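import Pool.Agent.CPT.Bgs

/-!
# Evaluation in a structure embedded into a larger type of atoms
-/

set_option autoImplicit false

namespace Pool.Agent.CPT

open Finset Classical

namespace EvMap

open HF

variable {A B : Type}

theorem map_emp (f : A → B) : map f (emp : HF A) = emp := map_ord f 0

theorem map_inj' {f : A → B} (hf : Function.Injective f) {x y : HF A} :
    map f x = map f y ↔ x = y := (map_injective hf).eq_iff

theorem map_tv (f : A → B) (p : Prop) : map f (tv p : HF A) = tv p := by
  unfold tv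
  split_ifs
  · exact map_ord f 1
  · exact map_ord f 0

theorem map_pr (f : A → B) (x y : HF A) : map f (pr x y) = pr (map f x) (map f y) := by
  unfold pr
  rw [map_mk, Finset.image_insert, Finset.image_singleton]

theorem map_un (f : A → B) (x : HF A) : map f (un x) = un (map f x) := by
  unfold un
  rw [map_mk, elems_map]
  congr 1
  ext z
  simp only [Finset.mem_image, Finset.mem_biUnion]
  constructor
  · rintro ⟨y, ⟨w, hw, hy⟩, rfl⟩
    refine ⟨map f w, ⟨w, hw, rfl⟩, ?_⟩
    rw [elems_map]
    exact Finset.mem_image_of_mem _ hy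
  · rintro ⟨y, ⟨w, hw, rfl⟩, hy⟩
    rw [elems_map, Finset.mem_image] at hy
    obtain ⟨v, hv, rfl⟩ := hy
    exact ⟨v, ⟨w, hw, hv⟩, rfl⟩

theorem uq_eq {x y : HF A} (h : elems x = {y}) : uq x = y := by
  have h' : ∃ y, elems x = {y} := ⟨y, h⟩
  unfold uq
  rw [dif_pos h']
  exact (Finset.singleton_injective (h.symm.trans h'.choose_spec)).symm

theorem uq_eq_emp {x : HF A} (h : ¬ ∃ y, elems x = {y}) : uq x = emp := by
  unfold uq
  rw [dif_neg h]

theorem map_uq {f : A → B} (hf : Function.Injective f) (x : HF A) :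
    map f (uq x) = uq (map f x) := by
  by_cases h : ∃ y, elems x = {y}
  · obtain ⟨y, hy⟩ := h
    rw [uq_eq hy]
    symm
    apply uq_eq
    rw [elems_map, hy, Finset.image_singleton]
  · rw [uq_eq_emp h, map_emp, uq_eq_emp]
    rintro ⟨z, hz⟩
    apply h
    rw [elems_map] at hz
    have hc : ((elems x).image (map f)).card = 1 := by rw [hz, Finset.card_singleton]
    rw [Finset.card_image_of_injective _ (map_injective hf)] at hc
    exact Finset.card_eq_one.1 hc

theorem card_elems_map {f : A → B} (hf : Function.Injective f) (x : HF A) :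
    (elems (map f x)).card = (elems x).card := by
  rw [elems_map, Finset.card_image_of_injective _ (map_injective hf)]

theorem card_tc_map {f : A → B} (hf : Function.Injective f) (x : HF A) :
    (tc (map f x)).card = (tc x).card := by
  rw [tc_map, Finset.card_image_of_injective _ (map_injective hf)]

theorem map_mem_elems {f : A → B} (hf : Function.Injective f) (x y : HF A) :
    map f x ∈ elems (map f y) ↔ x ∈ elems y := by
  rw [elems_map, Finset.mem_image]
  constructor
  · rintro ⟨z, hz, h⟩
    rwa [← map_injective hf h]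
  · intro h
    exact ⟨x, h, rfl⟩

theorem map_eq_atom {f : A → B} {x : HF A} {b : B} (h : map f x = atom b) :
    ∃ a, x = atom a ∧ f a = b := by
  rcases cases' x with ⟨a, rfl⟩ | ⟨s, rfl⟩
  · rw [map_atom] at h
    exact ⟨a, rfl, atom_inj h⟩
  · rw [map_mk] at h
    exact absurd h.symm (atom_ne_mk _ _)

theorem map_eq_ord {f : A → B} (hf : Function.Injective f) {x : HF A} {n : ℕ} :
    map f x = ord n ↔ x = ord n := by
  rw [← map_ord f n, map_inj' hf]

theorem map_itr {f : A → B} (hf : Function.Injective f) (ns b : ℕ) (g : HF A → HF A)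
    (g' : HF B → HF B) (hg : ∀ x, map f (g x) = g' (map f x)) :
    map f (itr ns b g) = itr ns b g' := by
  have hit : ∀ j : ℕ, map f (g^[j] emp) = g'^[j] emp := by
    intro j
    induction j with
    | zero => exact map_emp f
    | succ j ih => rw [Function.iterate_succ_apply', Function.iterate_succ_apply', hg, ih]
  have hiff : ∀ i : ℕ, (i ≤ ns ∧ g (g^[i] emp) = g^[i] emp ∧
      ∀ j ≤ i, (tc (g^[j] emp)).card ≤ b) ↔ (i ≤ ns ∧ g' (g'^[i] emp) = g'^[i] emp ∧
      ∀ j ≤ i, (tc (g'^[j] emp)).card ≤ b) := by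
    intro i
    rw [← hit i, ← hg, map_inj' hf]
    have h3 : (∀ j ≤ i, (tc (g^[j] emp)).card ≤ b) ↔ ∀ j ≤ i, (tc (g'^[j] emp)).card ≤ b := by
      refine forall_congr' fun j => forall_congr' fun _ => ?_
      rw [← hit j, card_tc_map hf]
    rw [h3]
  rw [itr_def, itr_def]
  by_cases h : ∃ i : ℕ, i ≤ ns ∧ g (g^[i] emp) = g^[i] emp ∧ ∀ j ≤ i, (tc (g^[j] emp)).card ≤ b
  · have h' : ∃ i : ℕ, i ≤ ns ∧ g' (g'^[i] emp) = g'^[i] emp ∧
        ∀ j ≤ i, (tc (g'^[j] emp)).card ≤ b := by
      obtain ⟨i, hi⟩ := h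
      exact ⟨i, (hiff i).1 hi⟩
    rw [dif_pos h, dif_pos h', hit]
    have : Nat.find h = Nat.find h' := by
      apply le_antisymm
      · exact Nat.find_min' h ((hiff _).2 (Nat.find_spec h'))
      · exact Nat.find_min' h' ((hiff _).1 (Nat.find_spec h))
    rw [this]
  · have h' : ¬ ∃ i : ℕ, i ≤ ns ∧ g' (g'^[i] emp) = g'^[i] emp ∧
        ∀ j ≤ i, (tc (g'^[j] emp)).card ≤ b := by
      rintro ⟨i, hi⟩
      exact h ⟨i, (hiff i).2 hi⟩
    rw [dif_neg h, dif_neg h', map_emp]

end EvMap

/-- evaluation commutes with embeddings, general form -/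
theorem eval_map_gen {Γ : Voc} {V A : Type} (f : V → A) (hf : Function.Injective f)
    (U : Finset V) (S0 : Str Γ V) (S : Str Γ A)
    (hS : ∀ (r : Γ.R) (x : Fin (Γ.ar r) → V), S0 r x ↔ S r (fun i => f (x i)))
    (ns b : ℕ) (t : Tm Γ) : ∀ ρ : List (HF V),
    HF.map f (eval U S0 ns b t ρ) = eval (U.image f) S ns b t (ρ.map (HF.map f)) := by
  induction t with
  | var i =>
    intro ρ
    simp only [eval]
    rw [← EvMap.map_emp f, List.getD_map]
  | empty => intro ρ; simp only [eval]; exact EvMap.map_emp f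
  | atoms =>
    intro ρ
    simp only [eval]
    rw [HF.map_mk, Finset.image_image, Finset.image_image]
    congr 1
    apply Finset.image_congr
    intro v _
    exact HF.map_atom f v
  | pair s t ihs iht =>
    intro ρ
    simp only [eval]
    rw [EvMap.map_pr, ihs, iht]
  | union t ih => intro ρ; simp only [eval]; rw [EvMap.map_un, ih]
  | uniq t ih => intro ρ; simp only [eval]; rw [EvMap.map_uq hf, ih]
  | card t ih =>
    intro ρ
    simp only [eval]
    rw [HF.map_ord, ← ih, EvMap.card_elems_map hf]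
  | eq s t ihs iht =>
    intro ρ
    simp only [eval]
    rw [EvMap.map_tv, ← ihs, ← iht, EvMap.map_inj' hf]
  | mem s t ihs iht =>
    intro ρ
    simp only [eval]
    rw [EvMap.map_tv, ← ihs, ← iht, EvMap.map_mem_elems hf]
  | rel r ts ih =>
    intro ρ
    simp only [eval]
    rw [EvMap.map_tv]
    congr 1
    apply propext
    constructor
    · rintro ⟨x, hx, hr⟩
      refine ⟨fun i => f (x i), fun i => ?_, (hS r x).1 hr⟩
      rw [← ih i, hx i, HF.map_atom]
    · rintro ⟨y, hy, hr⟩
      have h1 : ∀ i, ∃ v, eval U S0 ns b (ts i) ρ = HF.atom v ∧ f v = y i := by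
        intro i
        apply EvMap.map_eq_atom
        rw [ih i, hy i]
      choose x hx hxy using h1
      refine ⟨x, hx, (hS r x).2 ?_⟩
      have : (fun i => f (x i)) = y := funext hxy
      rw [this]
      exact hr
  | neg t ih =>
    intro ρ
    simp only [eval]
    rw [EvMap.map_tv, ← ih, EvMap.map_eq_ord hf]
  | and s t ihs iht =>
    intro ρ
    simp only [eval]
    rw [EvMap.map_tv, ← ihs, ← iht, ne_eq, ne_eq, ne_eq, ne_eq, EvMap.map_eq_ord hf, EvMap.map_eq_ord hf]
  | comp s t c ihs iht ihc =>
    intro ρ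
    simp only [eval]
    rw [HF.map_mk, ← iht, HF.elems_map]
    congr 1
    ext z
    simp only [Finset.mem_image, Finset.mem_filter]
    constructor
    · rintro ⟨y, ⟨x, ⟨hx, hc⟩, rfl⟩, rfl⟩
      refine ⟨HF.map f x, ⟨⟨x, hx, rfl⟩, ?_⟩, ?_⟩
      · intro h
        apply hc
        have h2 := ihc (x :: ρ)
        rw [List.map_cons, h, EvMap.map_eq_ord hf] at h2
        exact h2
      · have h2 := ihs (x :: ρ)
        rw [List.map_cons] at h2
        exact h2.symm
    · rintro ⟨y, ⟨⟨x, hx, rfl⟩, hc⟩, rfl⟩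
      refine ⟨eval U S0 ns b s (x :: ρ), ⟨x, ⟨hx, ?_⟩, rfl⟩, ?_⟩
      · intro h
        apply hc
        have h2 := ihc (x :: ρ)
        rw [List.map_cons, h, HF.map_ord] at h2
        exact h2.symm
      · have h2 := ihs (x :: ρ)
        rw [List.map_cons] at h2
        exact h2
  | iter t ih =>
    intro ρ
    simp only [eval]
    apply EvMap.map_itr hf
    intro x
    have h2 := ih (x :: ρ)
    rw [List.map_cons] at h2
    exact h2

theorem eval_map {Γ : Voc} {V A : Type} [Fintype V] (f : V → A) (hf : Function.Injective f)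
    (S : Str Γ A) (ns b : ℕ) (t : Tm Γ) (ρ : List (HF V)) :
    HF.map f (eval Finset.univ (fun r x => S r (fun i => f (x i))) ns b t ρ) =
      eval (Finset.univ.image f) S ns b t (ρ.map (HF.map f)) :=
  eval_map_gen f hf Finset.univ _ S (fun _ _ => Iff.rfl) ns b t ρ

/-- acceptance is invariant under embeddings into a larger type of atoms -/
theorem accepts_iff {Γ : Voc} {V A : Type} [Fintype V] (f : V → A) (hf : Function.Injective f)
    (S : Str Γ A) (ns b : ℕ) (t : Tm Γ) :
    Accepts (fun r x => S r (fun i => f (x i))) t ns b ↔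
      eval (Finset.univ.image f) S ns b t [] = HF.ord 1 := by
  have h := eval_map f hf S ns b t []
  rw [List.map_nil] at h
  unfold Accepts
  rw [← h, EvMap.map_eq_ord hf]

/-- acceptance is invariant under isomorphisms -/
theorem accepts_iso {Γ : Voc} {V W : Type} [Fintype V] [Fintype W] (e : V ≃ W)
    (S : Str Γ W) (ns b : ℕ) (t : Tm Γ) :
    Accepts (fun r x => S r (fun i => e (x i))) t ns b ↔ Accepts S t ns b := by
  rw [accepts_iff (fun v => e v) e.injective S ns b t]
  unfold Accepts
  have : Finset.univ.image (fun v => e v) = (Finset.univ : Finset W) := by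
    ext w
    simp only [Finset.mem_image, Finset.mem_univ, true_and, iff_true]
    exact ⟨e.symm w, e.apply_symm_apply w⟩
  rw [this]

end Pool.Agent.CPT
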