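import Mathlib

/-!
GROUP LEMMA. A group acting on a set, `Γ i` pairwise commuting perfect subgroups, `x` a point with an orbit of size at most `q`: all but
`2 log₂ q` of the `Γ i` fix `x`.
-/

namespace Pool.Agent.CPT

open MulAction

/-- Factors which commute with everything disappear in a commutator. -/
lemma comm_aux {G : Type*} [Group G] {u v a b : G} (k1 : Commute u a) (k2 : Commute u b) (k3 : Commute v a) (k4 : Commute v b)
    (k5 : Commute u v) : a * b * a⁻¹ * b⁻¹ = (u * a) * (v * b) * (u * a)⁻¹ * (v * b)⁻¹ := by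
  have e1 : (u * a) * (v * b) = (u * v) * (a * b) := by
    rw [mul_assoc u a, ← mul_assoc a v b, ← k3.eq, mul_assoc v a b, ← mul_assoc u v]
  have e2 : (v * b) * (u * a) = (u * v) * (b * a) := by
    rw [mul_assoc v b, ← mul_assoc b u a, ← k2.eq, mul_assoc u b a, ← mul_assoc v u, k5.eq]
  have e3 : Commute (u * v) (a * b * a⁻¹ * b⁻¹) :=
    (((k1.mul_left k3).mul_right (k2.mul_left k4)).mul_right (k1.mul_left k3).inv_right).mul_right (k2.mul_left k4).inv_right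
  calc a * b * a⁻¹ * b⁻¹ = (u * v) * (a * b * a⁻¹ * b⁻¹) * (u * v)⁻¹ := by
        rw [e3.eq, mul_inv_cancel_right]
    _ = ((u * v) * (a * b)) * ((u * v) * (b * a))⁻¹ := by
        rw [mul_inv_rev (u * v) (b * a), mul_inv_rev b a]
        simp only [mul_assoc]
    _ = ((u * a) * (v * b)) * ((v * b) * (u * a))⁻¹ := by rw [e1, e2]
    _ = _ := by
        rw [mul_inv_rev]
        simp only [mul_assoc]

section

variable {G X ι : Type*} [Group G] [MulAction G X]

/-- The subgroup generated by the `Γ i`, `i ∈ S`. -/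
def DS (Γ : ι → Subgroup G) (S : Finset ι) : Subgroup G := ⨆ i ∈ S, Γ i

lemma DS_le_iff {Γ : ι → Subgroup G} {S : Finset ι} {K : Subgroup G} : DS Γ S ≤ K ↔ ∀ i ∈ S, Γ i ≤ K := by
  simp [DS]

lemma le_DS {Γ : ι → Subgroup G} {S : Finset ι} {i : ι} (hi : i ∈ S) : Γ i ≤ DS Γ S := DS_le_iff.1 le_rfl i hi

lemma DS_comm {Γ : ι → Subgroup G} (hc : ∀ i j, i ≠ j → ∀ x ∈ Γ i, ∀ y ∈ Γ j, x * y = y * x) {S T : Finset ι} (h : Disjoint S T) :
    ∀ x ∈ DS Γ S, ∀ y ∈ DS Γ T, x * y = y * x := by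
  have h1 : DS Γ S ≤ Subgroup.centralizer (DS Γ T : Set G) := by
    rw [DS_le_iff]
    intro i hi a ha
    rw [Subgroup.mem_centralizer_iff]
    intro y hy
    have h2 : DS Γ T ≤ Subgroup.centralizer ({a} : Set G) := by
      rw [DS_le_iff]
      intro j hj b hb
      rw [Subgroup.mem_centralizer_iff]
      intro z hz
      rw [Set.mem_singleton_iff.1 hz]
      exact hc i j (fun e => (Finset.disjoint_left.1 h hi) (e ▸ hj)) a ha b hb
    have h3 := h2 hy
    rw [Subgroup.mem_centralizer_iff] at h3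
    exact (h3 a (Set.mem_singleton a)).symm
  intro x hx y hy
  have h4 := h1 hx
  rw [Subgroup.mem_centralizer_iff] at h4
  exact (h4 y hy).symm

lemma exists_cover [DecidableEq ι] (Γ : ι → Subgroup G) (hc : ∀ i j, i ≠ j → ∀ x ∈ Γ i, ∀ y ∈ Γ j, x * y = y * x) (x : X)
    (hfin : (orbit G x).Finite) (U : Finset ι) :
    ∃ S ⊆ U, 2 ^ S.card ≤ (orbit (DS Γ S) x).ncard ∧ ∀ i ∈ U, i ∉ S → ∀ a ∈ Γ i, ∃ d ∈ DS Γ S, d • x = a • x := by
  classical
  have hsub : ∀ S : Finset ι, orbit (DS Γ S) x ⊆ orbit G x := by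
    rintro S _ ⟨g, rfl⟩
    exact ⟨(g : G), rfl⟩
  set P : Finset (Finset ι) := U.powerset.filter (fun S => 2 ^ S.card ≤ (orbit (DS Γ S) x).ncard) with hP
  have hne : P.Nonempty := by
    refine ⟨∅, ?_⟩
    rw [hP, Finset.mem_filter]
    refine ⟨Finset.empty_mem_powerset _, ?_⟩
    rw [Finset.card_empty, pow_zero]
    exact Set.ncard_pos ((hfin.subset (hsub ∅))) |>.2 ⟨x, mem_orbit_self x⟩
  obtain ⟨S, hS, hmax⟩ := P.exists_max_image Finset.card hne
  rw [hP, Finset.mem_filter, Finset.mem_powerset] at hS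
  refine ⟨S, hS.1, hS.2, fun i hi hiS a ha => ?_⟩
  by_contra hcon
  push Not at hcon
  have h1 : insert i S ∈ P := by
    rw [hP, Finset.mem_filter, Finset.mem_powerset]
    refine ⟨Finset.insert_subset hi hS.1, ?_⟩
    rw [Finset.card_insert_of_notMem hiS, pow_succ]
    have h2 : (orbit (DS Γ S) x) ∪ (fun z => a • z) '' (orbit (DS Γ S) x) ⊆ orbit (DS Γ (insert i S)) x := by
      have h3 : DS Γ S ≤ DS Γ (insert i S) := DS_le_iff.2 fun j hj => le_DS (Finset.mem_insert_of_mem hj)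
      have h4 : a ∈ DS Γ (insert i S) := le_DS (Finset.mem_insert_self i S) ha
      rintro z (⟨g, rfl⟩ | ⟨_, ⟨g, rfl⟩, rfl⟩)
      · exact ⟨⟨g, h3 g.2⟩, rfl⟩
      · exact ⟨⟨a * g, mul_mem h4 (h3 g.2)⟩, by
          change (a * (g : G)) • x = a • ((g : G) • x)
          rw [mul_smul]⟩
    have hdisj : Disjoint (orbit (DS Γ S) x) ((fun z => a • z) '' (orbit (DS Γ S) x)) := by
      rw [Set.disjoint_left]
      rintro z ⟨g, rfl⟩ ⟨_, ⟨g', rfl⟩, h5⟩
      change a • ((g' : G) • x) = (g : G) • x at h5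
      have h6 : a * (g' : G) = (g' : G) * a := by
        have := DS_comm hc (S := {i}) (T := S) (Finset.disjoint_singleton_left.2 hiS) a
          (le_DS (Finset.mem_singleton_self i) ha) g' g'.2
        exact this
      rw [← mul_smul, h6, mul_smul] at h5
      refine hcon ((g' : G)⁻¹ * g) (mul_mem (inv_mem g'.2) g.2) ?_
      rw [mul_smul, ← h5, inv_smul_smul]
    calc 2 ^ S.card * 2 ≤ (orbit (DS Γ S) x).ncard * 2 := Nat.mul_le_mul_right _ hS.2
      _ = (orbit (DS Γ S) x).ncard + ((fun z => a • z) '' (orbit (DS Γ S) x)).ncard := by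
          rw [Set.ncard_image_of_injective _ (MulAction.injective a)]
          ring
      _ = ((orbit (DS Γ S) x) ∪ (fun z => a • z) '' (orbit (DS Γ S) x)).ncard := by
          rw [Set.ncard_union_eq hdisj (hfin.subset (hsub S)) ((hfin.subset (hsub S)).image _)]
      _ ≤ _ := Set.ncard_le_ncard h2 (hfin.subset (hsub _))
  have h7 := hmax _ h1
  rw [Finset.card_insert_of_notMem hiS] at h7
  omega

/-- The commuting perfect subgroups outside a set `S` with `2 ^ |S| ≤ |orbit|²` fix the point. -/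
theorem group_lemma' (Γ : ι → Subgroup G) (hc : ∀ i j, i ≠ j → ∀ x ∈ Γ i, ∀ y ∈ Γ j, x * y = y * x)
    (hp : ∀ i, ⁅Γ i, Γ i⁆ = Γ i) (x : X) (hfin : (orbit G x).Finite) (U : Finset ι) :
    ∃ S ⊆ U, 2 ^ S.card ≤ (orbit G x).ncard ^ 2 ∧ ∀ i ∈ U, i ∉ S → ∀ a ∈ Γ i, a • x = x := by
  classical
  have hsub : ∀ S : Finset ι, orbit (DS Γ S) x ⊆ orbit G x := by
    rintro S _ ⟨g, rfl⟩
    exact ⟨(g : G), rfl⟩
  obtain ⟨S, hS, hS1, hS2⟩ := exists_cover Γ hc x hfin U
  obtain ⟨T, hT, hT1, hT2⟩ := exists_cover Γ hc x hfin (U \ S)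
  have hq0 : ∀ S : Finset ι, 2 ^ S.card ≤ (orbit (DS Γ S) x).ncard → 2 ^ S.card ≤ (orbit G x).ncard := by
    intro S h
    exact h.trans (Set.ncard_le_ncard (hsub S) hfin)
  refine ⟨S ∪ T, Finset.union_subset hS (hT.trans Finset.sdiff_subset), ?_, fun i hi hiST a ha => ?_⟩
  · calc 2 ^ (S ∪ T).card ≤ 2 ^ (S.card + T.card) := Nat.pow_le_pow_right (by norm_num) (Finset.card_union_le S T)
      _ = 2 ^ S.card * 2 ^ T.card := pow_add _ _ _
      _ ≤ (orbit G x).ncard * (orbit G x).ncard := Nat.mul_le_mul (hq0 S hS1) (hq0 T hT1)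
      _ = _ := by ring
  · rw [Finset.mem_union, not_or] at hiST
    have hdis : Disjoint S T := by
      rw [Finset.disjoint_left]
      intro j hj hj'
      exact (Finset.mem_sdiff.1 (hT hj')).2 hj
    have key : Γ i ≤ stabilizer G x := by
      rw [← hp i, Subgroup.commutator_le]
      intro a ha b hb
      obtain ⟨d, hd, hd1⟩ := hS2 i hi hiST.1 a ha
      obtain ⟨e, he, he1⟩ := hT2 i (Finset.mem_sdiff.2 ⟨hi, hiST.1⟩) hiST.2 b hb
      have h1 : d⁻¹ * a ∈ stabilizer G x := by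
        rw [mem_stabilizer_iff, mul_smul, ← hd1, inv_smul_smul]
      have h2 : e⁻¹ * b ∈ stabilizer G x := by
        rw [mem_stabilizer_iff, mul_smul, ← he1, inv_smul_smul]
      have hiS : Disjoint ({i} : Finset ι) S := Finset.disjoint_singleton_left.2 hiST.1
      have hiT : Disjoint ({i} : Finset ι) T := Finset.disjoint_singleton_left.2 hiST.2
      have ha' : a ∈ DS Γ {i} := le_DS (Finset.mem_singleton_self i) ha
      have hb' : b ∈ DS Γ {i} := le_DS (Finset.mem_singleton_self i) hb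
      have k1 : Commute d⁻¹ a := (DS_comm hc hiS a ha' _ (inv_mem hd)).symm
      have k2 : Commute d⁻¹ b := (DS_comm hc hiS b hb' _ (inv_mem hd)).symm
      have k3 : Commute e⁻¹ a := (DS_comm hc hiT a ha' _ (inv_mem he)).symm
      have k4 : Commute e⁻¹ b := (DS_comm hc hiT b hb' _ (inv_mem he)).symm
      have k5 : Commute d⁻¹ e⁻¹ := DS_comm hc hdis _ (inv_mem hd) _ (inv_mem he)
      have h3 : a * b * a⁻¹ * b⁻¹ = (d⁻¹ * a) * (e⁻¹ * b) * (d⁻¹ * a)⁻¹ * (e⁻¹ * b)⁻¹ := comm_aux k1 k2 k3 k4 k5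
      rw [commutatorElement_def, h3]
      exact mul_mem (mul_mem (mul_mem h1 h2) (inv_mem h1)) (inv_mem h2)
    exact mem_stabilizer_iff.1 (key ha)

/-- All but `2 log₂ q` of the commuting perfect subgroups fix a point with an orbit of size at most `q`. -/
theorem group_lemma (Γ : ι → Subgroup G) (hc : ∀ i j, i ≠ j → ∀ x ∈ Γ i, ∀ y ∈ Γ j, x * y = y * x)
    (hp : ∀ i, ⁅Γ i, Γ i⁆ = Γ i) (x : X) (hfin : (orbit G x).Finite) {q : ℕ} (hq : (orbit G x).ncard ≤ q) (U : Finset ι) :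
    ∃ S ⊆ U, S.card ≤ 2 * Nat.log 2 q + 1 ∧ ∀ i ∈ U, i ∉ S → ∀ a ∈ Γ i, a • x = x := by
  obtain ⟨S, hS, h1, h2⟩ := group_lemma' Γ hc hp x hfin U
  refine ⟨S, hS, ?_, h2⟩
  have hne : (orbit G x).ncard ≠ 0 := by
    rw [Ne, Set.ncard_eq_zero hfin]
    exact Set.Nonempty.ne_empty ⟨x, mem_orbit_self x⟩
  have hq0 : q ≠ 0 := by omega
  have h3 : (orbit G x).ncard ^ 2 ≤ q ^ 2 := Nat.pow_le_pow_left hq 2
  have h4 : q < 2 ^ (Nat.log 2 q + 1) := Nat.lt_pow_succ_log_self (by norm_num) q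
  have h5 : q ^ 2 < (2 ^ (Nat.log 2 q + 1)) ^ 2 := Nat.pow_lt_pow_left h4 (by norm_num)
  rw [← pow_mul] at h5
  have h6 : 2 ^ S.card < 2 ^ ((Nat.log 2 q + 1) * 2) := lt_of_le_of_lt (h1.trans h3) h5
  have h7 := (Nat.pow_lt_pow_iff_right (by norm_num : 1 < 2)).1 h6
  omega

end

section PerfectPi

variable {ι : Type*} [Fintype ι] [DecidableEq ι] {Γ : Type*} [Group Γ]

/-- The `i`th factor of a power. -/
def fac (Γ : Type*) [Group Γ] (i : ι) : Subgroup (ι → Γ) := (MonoidHom.mulSingle (fun _ : ι => Γ) i).range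

omit [Fintype ι] in
lemma mem_fac {i : ι} {x : ι → Γ} : x ∈ fac Γ i ↔ ∃ g : Γ, Pi.mulSingle i g = x := Iff.rfl

omit [Fintype ι] in
lemma fac_comm (i j : ι) (h : i ≠ j) : ∀ x ∈ fac Γ i, ∀ y ∈ fac Γ j, x * y = y * x := by
  rintro _ ⟨a, rfl⟩ _ ⟨b, rfl⟩
  exact Pi.mulSingle_commute (f := fun _ : ι => Γ) h a b

omit [Fintype ι] in
lemma fac_perfect (hp : commutator Γ = ⊤) (i : ι) : ⁅fac Γ i, fac Γ i⁆ = fac Γ i := by
  have h : fac Γ i = (⊤ : Subgroup Γ).map (MonoidHom.mulSingle (fun _ : ι => Γ) i) := by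
    rw [fac, MonoidHom.range_eq_map]
  rw [h, ← Subgroup.map_commutator, ← commutator_def, hp]

/-- In a subgroup of index `m` of a power of a finite perfect group, all but at most `2 log₂ m` of the factors are contained. -/
theorem perfect_pi [Finite Γ] (hp : commutator Γ = ⊤) (H : Subgroup (ι → Γ)) [DecidablePred (fun i => ¬ ∀ g : Γ, Pi.mulSingle i g ∈ H)] :
    2 ^ (Finset.univ.filter (fun i => ¬ ∀ g : Γ, Pi.mulSingle i g ∈ H)).card ≤ H.index ^ 2 := by
  classical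
  have hfin : (orbit (ι → Γ) ((1 : ι → Γ) : (ι → Γ) ⧸ H)).Finite := Set.toFinite _
  obtain ⟨S, -, h1, h2⟩ := group_lemma' (G := ι → Γ) (X := (ι → Γ) ⧸ H) (fac Γ) fac_comm (fac_perfect hp)
    ((1 : ι → Γ) : (ι → Γ) ⧸ H) hfin Finset.univ
  have h3 : (orbit (ι → Γ) ((1 : ι → Γ) : (ι → Γ) ⧸ H)).ncard = H.index := by
    rw [MulAction.orbit_eq_univ, Set.ncard_univ]
    rfl
  rw [h3] at h1
  refine le_trans (Nat.pow_le_pow_right (by norm_num) (Finset.card_le_card ?_)) h1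
  intro i hi
  rw [Finset.mem_filter] at hi
  by_contra hiS
  refine hi.2 fun g => ?_
  have h4 := h2 i (Finset.mem_univ i) hiS (Pi.mulSingle i g) ⟨g, rfl⟩
  have h5 : (((Pi.mulSingle i g : ι → Γ) * 1 : ι → Γ) : (ι → Γ) ⧸ H) = ((1 : ι → Γ) : (ι → Γ) ⧸ H) := h4
  rw [mul_one] at h5
  rw [QuotientGroup.eq] at h5
  have h6 := inv_mem h5
  simpa using h6

end PerfectPi

end Pool.Agent.CPT
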