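import Pool.Agent.CPT.Def

/-!
# Hereditarily finite sets over a type of atoms: basic facts
-/

set_option autoImplicit false

namespace Pool.Agent.CPT

open Finset Classical

namespace HF

variable {A B : Type}

@[simp] theorem elems_atom (a : A) : elems (atom a) = ∅ := rfl

theorem ofPre_out (x : HF A) : ofPre (Quotient.out x) = x := Quotient.out_eq x

theorem ofPre_eq {s t : Pre A} : ofPre s = ofPre t ↔ Pre.Eqv s t :=
  ⟨fun h => Quotient.exact h, fun h => Quotient.sound h⟩

theorem exists_ofPre (x : HF A) : ∃ t, ofPre t = x := ⟨_, ofPre_out x⟩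

theorem elems_node (n : ℕ) (f : Fin n → Pre A) :
    elems (ofPre (Pre.node n f)) =
      Finset.univ.image (fun i => ofPre (f i)) := rfl

@[simp] theorem elems_mk (s : Finset (HF A)) : elems (mk s) = s := by
  unfold mk
  rw [elems_node]
  ext y
  simp only [Finset.mem_image, Finset.mem_univ, true_and]
  constructor
  · rintro ⟨i, rfl⟩
    rw [ofPre_out]
    exact (s.equivFin.symm i).2
  · intro hy
    refine ⟨s.equivFin ⟨y, hy⟩, ?_⟩
    rw [ofPre_out, Equiv.symm_apply_apply]

theorem atom_inj {a b : A} (h : atom a = atom b) : a = b := by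
  have h' : Pre.Eqv (Pre.atom a) (Pre.atom b) := Quotient.exact h
  simpa only [Pre.Eqv] using h'

theorem mk_inj {s t : Finset (HF A)} (h : mk s = mk t) : s = t := by
  rw [← elems_mk s, h, elems_mk]

theorem atom_ne_mk (a : A) (s : Finset (HF A)) : atom a ≠ mk s := by
  intro h
  have h' : Pre.Eqv (Pre.atom a)
    (Pre.node s.card (fun i => Quotient.out (s.equivFin.symm i).1)) := Quotient.exact h
  simp only [Pre.Eqv] at h'

theorem node_eq_mk (n : ℕ) (f : Fin n → Pre A) :
    ofPre (Pre.node n f) =
      mk (Finset.univ.image (fun i => ofPre (f i))) := by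
  set s : Finset (HF A) := Finset.univ.image
    (fun i => ofPre (f i)) with hs
  unfold mk
  rw [ofPre_eq]
  simp only [Pre.Eqv]
  constructor
  · intro i
    have hi : ofPre (f i) ∈ s :=
      Finset.mem_image_of_mem _ (Finset.mem_univ i)
    refine ⟨s.equivFin ⟨_, hi⟩, ?_⟩
    rw [Equiv.symm_apply_apply, ← ofPre_eq, ofPre_out]
  · intro j
    have hj : (s.equivFin.symm j).1 ∈ s := (s.equivFin.symm j).2
    obtain ⟨i, -, hi⟩ := Finset.mem_image.1 hj
    refine ⟨i, ?_⟩
    rw [← ofPre_eq, ofPre_out, hi]

theorem cases' (x : HF A) : (∃ a, x = atom a) ∨ ∃ s, x = mk s := by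
  obtain ⟨t, rfl⟩ := exists_ofPre x
  cases t with
  | atom a => exact Or.inl ⟨a, rfl⟩
  | node n f => exact Or.inr ⟨_, node_eq_mk n f⟩

theorem mk_elems_of_not_atom {x : HF A} (h : ¬ ∃ a, x = atom a) : mk (elems x) = x := by
  rcases cases' x with hx | ⟨s, rfl⟩
  · exact absurd hx h
  · rw [elems_mk]

/-- induction over the membership relation -/
theorem ind {P : HF A → Prop} (ha : ∀ a, P (atom a)) (hs : ∀ s, (∀ y ∈ s, P y) → P (mk s))
    (x : HF A) : P x := by
  obtain ⟨t, rfl⟩ := exists_ofPre x
  induction t with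
  | atom a => exact ha a
  | node n f ih =>
    rw [node_eq_mk]
    apply hs
    intro y hy
    obtain ⟨i, -, rfl⟩ := Finset.mem_image.1 hy
    exact ih i

theorem wf : WellFounded (fun y x : HF A => y ∈ elems x) := by
  constructor
  intro x
  induction x using ind with
  | ha a => exact ⟨_, fun y hy => absurd hy (by simp)⟩
  | hs s ih => exact ⟨_, fun y hy => ih y (by simpa using hy)⟩

/-- recursion over the membership relation -/
noncomputable def fold {β : Type} (fa : A → β)
    (fs : (s : Finset (HF A)) → ((y : HF A) → y ∈ s → β) → β) : HF A → β :=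
  wf.fix (fun x ih => if h : ∃ a, x = atom a then fa h.choose else
    fs (elems x) (fun y hy => ih y hy))

theorem fold_atom {β : Type} (fa : A → β)
    (fs : (s : Finset (HF A)) → ((y : HF A) → y ∈ s → β) → β) (a : A) :
    fold fa fs (atom a) = fa a := by
  unfold fold
  rw [WellFounded.fix_eq]
  have h : ∃ b, (atom a : HF A) = atom b := ⟨a, rfl⟩
  rw [dif_pos h]
  congr 1
  exact (atom_inj h.choose_spec).symm

theorem fold_mk {β : Type} (fa : A → β)
    (fs : (s : Finset (HF A)) → ((y : HF A) → y ∈ s → β) → β) (s : Finset (HF A)) :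
    fold fa fs (mk s) = fs s (fun y _ => fold fa fs y) := by
  have key : ∀ t : Finset (HF A), t = s →
      fs t (fun y _ => fold fa fs y) = fs s (fun y _ => fold fa fs y) := by
    rintro t rfl; rfl
  have h : ¬ ∃ a, (mk s : HF A) = atom a := by
    rintro ⟨a, ha⟩
    exact atom_ne_mk a s ha.symm
  have h1 : fold fa fs (mk s) = fs (elems (mk s)) (fun y _ => fold fa fs y) := by
    conv_lhs => unfold fold
    rw [WellFounded.fix_eq, dif_neg h]
    rfl
  rw [h1]
  exact key _ (elems_mk s)

/-- the transitive closure of `{x}` -/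
noncomputable def tc : HF A → Finset (HF A) :=
  fold (fun a => {atom a}) (fun s ih => insert (mk s) (s.attach.biUnion fun y => ih y.1 y.2))

@[simp] theorem tc_atom (a : A) : tc (atom a) = {atom a} := fold_atom _ _ a

@[simp] theorem tc_mk (s : Finset (HF A)) : tc (mk s) = insert (mk s) (s.biUnion tc) := by
  have h : tc (mk s) = insert (mk s) (s.attach.biUnion fun y => tc y.1) := fold_mk _ _ s
  rw [h]
  congr 1
  ext z
  simp only [Finset.mem_biUnion, Finset.mem_attach, true_and, Subtype.exists, exists_prop]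

theorem self_mem_tc (x : HF A) : x ∈ tc x := by
  rcases cases' x with ⟨a, rfl⟩ | ⟨s, rfl⟩
  · simp
  · rw [tc_mk]; exact Finset.mem_insert_self _ _

theorem mem_tc_mk {s : Finset (HF A)} {z : HF A} :
    z ∈ tc (mk s) ↔ z = mk s ∨ ∃ y ∈ s, z ∈ tc y := by
  rw [tc_mk, Finset.mem_insert, Finset.mem_biUnion]

theorem tc_sub {x y z : HF A} (hy : y ∈ tc x) (hz : z ∈ tc y) : z ∈ tc x := by
  induction x using ind with
  | ha a =>
    rw [tc_atom, Finset.mem_singleton] at hy
    subst hy
    exact hz
  | hs s ih =>
    rw [mem_tc_mk] at hy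
    rcases hy with rfl | ⟨w, hw, hyw⟩
    · exact hz
    · exact mem_tc_mk.2 (Or.inr ⟨w, hw, ih w hw hyw⟩)

theorem elems_sub_tc (x : HF A) : elems x ⊆ tc x := by
  rcases cases' x with ⟨a, rfl⟩ | ⟨s, rfl⟩
  · simp
  · intro y hy
    rw [elems_mk] at hy
    exact mem_tc_mk.2 (Or.inr ⟨y, hy, self_mem_tc y⟩)

theorem tc_ind {P : HF A → Prop} {x : HF A} (h0 : P x)
    (hs : ∀ y ∈ tc x, P y → ∀ z ∈ elems y, P z) : ∀ z ∈ tc x, P z := by
  induction x using ind with
  | ha a =>
    intro z hz
    rw [tc_atom, Finset.mem_singleton] at hz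
    rw [hz]; exact h0
  | hs s ih =>
    intro z hz
    rcases mem_tc_mk.1 hz with rfl | ⟨w, hw, hzw⟩
    · exact h0
    · have hwt : w ∈ tc (mk s) := mem_tc_mk.2 (Or.inr ⟨w, hw, self_mem_tc w⟩)
      exact ih w hw (hs _ (self_mem_tc _) h0 w (by rw [elems_mk]; exact hw))
        (fun y hy hPy z hz => hs y (tc_sub hwt hy) hPy z hz) z hzw

/-- apply a map to all atoms -/
noncomputable def map (f : A → B) : HF A → HF B :=
  fold (fun a => atom (f a)) (fun s ih => mk (s.attach.image fun y => ih y.1 y.2))

@[simp] theorem map_atom (f : A → B) (a : A) : map f (atom a) = atom (f a) := fold_atom _ _ a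

@[simp] theorem map_mk (f : A → B) (s : Finset (HF A)) : map f (mk s) = mk (s.image (map f)) := by
  have h : map f (mk s) = mk (s.attach.image fun y => map f y.1) := fold_mk _ _ s
  rw [h]
  congr 1
  ext z
  simp only [Finset.mem_image, Finset.mem_attach, true_and, Subtype.exists, exists_prop]

theorem map_id (x : HF A) : map id x = x := by
  induction x using ind with
  | ha a => rw [map_atom]; rfl
  | hs s ih =>
    rw [map_mk]
    congr 1
    ext z
    rw [Finset.mem_image]
    constructor
    · rintro ⟨y, hy, rfl⟩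
      rw [ih y hy]; exact hy
    · intro hz
      exact ⟨z, hz, ih z hz⟩

theorem map_map {C : Type} (f : A → B) (g : B → C) (x : HF A) :
    map g (map f x) = map (g ∘ f) x := by
  induction x using ind with
  | ha a => rw [map_atom, map_atom, map_atom]; rfl
  | hs s ih =>
    rw [map_mk, map_mk, map_mk]
    congr 1
    ext z
    simp only [Finset.mem_image]
    constructor
    · rintro ⟨y, ⟨w, hw, rfl⟩, rfl⟩
      exact ⟨w, hw, (ih w hw).symm⟩
    · rintro ⟨w, hw, rfl⟩
      exact ⟨map f w, ⟨w, hw, rfl⟩, ih w hw⟩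

theorem map_injective {f : A → B} (hf : Function.Injective f) : Function.Injective (map f) := by
  intro x
  induction x using ind with
  | ha a =>
    intro y h
    rcases cases' y with ⟨b, rfl⟩ | ⟨t, rfl⟩
    · rw [map_atom, map_atom] at h
      rw [hf (atom_inj h)]
    · rw [map_atom, map_mk] at h
      exact absurd h (atom_ne_mk _ _)
  | hs s ih =>
    intro y h
    rcases cases' y with ⟨b, rfl⟩ | ⟨t, rfl⟩
    · rw [map_atom, map_mk] at h
      exact absurd h.symm (atom_ne_mk _ _)
    · rw [map_mk, map_mk] at h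
      have h1 : s.image (map f) = t.image (map f) := mk_inj h
      congr 1
      ext z
      constructor
      · intro hz
        have : map f z ∈ t.image (map f) := h1 ▸ Finset.mem_image_of_mem _ hz
        obtain ⟨w, hw, hwz⟩ := Finset.mem_image.1 this
        rw [ih z hz hwz.symm]; exact hw
      · intro hz
        have : map f z ∈ s.image (map f) := h1.symm ▸ Finset.mem_image_of_mem _ hz
        obtain ⟨w, hw, hwz⟩ := Finset.mem_image.1 this
        rw [← ih w hw hwz]; exact hw

theorem elems_map (f : A → B) (x : HF A) : elems (map f x) = (elems x).image (map f) := by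
  rcases cases' x with ⟨a, rfl⟩ | ⟨s, rfl⟩
  · simp
  · rw [map_mk, elems_mk, elems_mk]

theorem tc_map (f : A → B) (x : HF A) : tc (map f x) = (tc x).image (map f) := by
  induction x using ind with
  | ha a => simp
  | hs s ih =>
    rw [map_mk, tc_mk, tc_mk, Finset.image_insert, map_mk]
    congr 1
    ext z
    simp only [Finset.mem_biUnion, Finset.mem_image]
    constructor
    · rintro ⟨y, ⟨w, hw, rfl⟩, hz⟩
      rw [ih w hw, Finset.mem_image] at hz
      obtain ⟨v, hv, rfl⟩ := hz
      exact ⟨v, ⟨w, hw, hv⟩, rfl⟩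
    · rintro ⟨v, ⟨w, hw, hv⟩, rfl⟩
      refine ⟨map f w, ⟨w, hw, rfl⟩, ?_⟩
      rw [ih w hw]
      exact Finset.mem_image_of_mem _ hv

/-- a group acting on the atoms acts on all objects -/
noncomputable instance {K : Type} [Group K] [MulAction K A] : MulAction K (HF A) where
  smul k x := map (fun a => k • a) x
  one_smul x := by
    show map (fun a => (1 : K) • a) x = x
    have h : (fun a : A => (1 : K) • a) = id := by
      funext a; exact one_smul K a
    rw [h, map_id]
  mul_smul k k' x := by
    show map (fun a => (k * k') • a) x = map (fun a => k • a) (map (fun a => k' • a) x)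
    rw [map_map]
    congr 1
    funext a
    exact mul_smul k k' a

section act

variable {K : Type} [Group K] [MulAction K A]

theorem smul_def (k : K) (x : HF A) : k • x = map (fun a => k • a) x := rfl

@[simp] theorem smul_atom (k : K) (a : A) : k • (atom a : HF A) = atom (k • a) :=
  map_atom _ _

@[simp] theorem smul_mk (k : K) (s : Finset (HF A)) : k • mk s = mk (s.image fun y => k • y) :=
  map_mk _ _

theorem elems_smul (k : K) (x : HF A) : elems (k • x) = (elems x).image fun y => k • y :=
  elems_map _ _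

theorem tc_smul (k : K) (x : HF A) : tc (k • x) = (tc x).image fun y => k • y :=
  tc_map _ _

theorem smul_mem_elems (k : K) (x y : HF A) : k • y ∈ elems (k • x) ↔ y ∈ elems x := by
  rw [elems_smul, Finset.mem_image]
  constructor
  · rintro ⟨z, hz, h⟩
    rwa [← smul_left_cancel k h]
  · intro h
    exact ⟨y, h, rfl⟩

theorem smul_mem_tc (k : K) (x y : HF A) : k • y ∈ tc (k • x) ↔ y ∈ tc x := by
  rw [tc_smul, Finset.mem_image]
  constructor
  · rintro ⟨z, hz, h⟩
    rwa [← smul_left_cancel k h]
  · intro h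
    exact ⟨y, h, rfl⟩

end act

theorem ord_zero : (ord 0 : HF A) = emp := rfl

theorem ord_succ (n : ℕ) : (ord (n + 1) : HF A) = mk (insert (ord n) (elems (ord n))) := rfl

theorem elems_emp : elems (emp : HF A) = ∅ := elems_mk _

theorem elems_ord (n : ℕ) : elems (ord n : HF A) = (Finset.range n).image ord := by
  induction n with
  | zero => rw [ord_zero, elems_emp]; rfl
  | succ n ih => rw [ord_succ, elems_mk, Finset.range_add_one, Finset.image_insert, ih]

theorem not_mem_elems_self (x : HF A) : x ∉ elems x := by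
  intro h
  exact (wf (A := A)).irrefl.irrefl x h

theorem ord_mem_elems {m n : ℕ} (h : m < n) : (ord m : HF A) ∈ elems (ord n) := by
  rw [elems_ord]
  exact Finset.mem_image_of_mem _ (Finset.mem_range.2 h)

theorem ord_inj : Function.Injective (ord : ℕ → HF A) := by
  intro m n h
  rcases lt_trichotomy m n with hlt | heq | hgt
  · exact absurd (h ▸ ord_mem_elems (A := A) hlt) (not_mem_elems_self _)
  · exact heq
  · exact absurd (h ▸ ord_mem_elems (A := A) hgt) (not_mem_elems_self _)

theorem ord_eq_mk (n : ℕ) : (ord n : HF A) = mk ((Finset.range n).image ord) := by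
  rw [← elems_ord]
  cases n with
  | zero => rw [ord_zero, elems_emp]; rfl
  | succ n => rw [ord_succ, elems_mk]

theorem map_ord (f : A → B) (n : ℕ) : map f (ord n) = ord n := by
  induction n using Nat.strong_induction_on with
  | _ n ih =>
    rw [ord_eq_mk, ord_eq_mk, map_mk, Finset.image_image]
    congr 1
    apply Finset.image_congr
    intro m hm
    exact ih m (Finset.mem_range.1 hm)

@[simp] theorem smul_ord {K : Type} [Group K] [MulAction K A] (k : K) (n : ℕ) :
    k • (ord n : HF A) = ord n :=
  map_ord _ _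

/-- the size is the number of elements of the transitive closure -/
theorem size_eq (x : HF A) : size x = (tc x).card := by
  have h : {y : HF A | Relation.ReflTransGen (fun u v => u ∈ elems v) y x} =
      ((tc x : Finset (HF A)) : Set (HF A)) := by
    ext y
    constructor
    · intro hy
      have hy' : Relation.ReflTransGen (fun u v => u ∈ elems v) y x := hy
      clear hy
      change y ∈ tc x
      induction hy' with
      | refl => exact self_mem_tc y
      | tail _ h1 ih => exact tc_sub (elems_sub_tc _ h1) ih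
    · intro hy
      have hy' : y ∈ tc x := hy
      change Relation.ReflTransGen (fun u v => u ∈ elems v) y x
      clear hy
      induction x using ind with
      | ha a =>
        rw [tc_atom, Finset.mem_singleton] at hy'
        rw [hy']
      | hs s ih =>
        rw [tc_mk, Finset.mem_insert, Finset.mem_biUnion] at hy'
        rcases hy' with h | ⟨z, hz, h⟩
        · rw [h]
        · exact (ih z hz h).tail (by rw [elems_mk]; exact hz)
  unfold size
  rw [h, Set.ncard_coe_finset]

/-- bounded iteration in terms of the transitive closure -/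
theorem itr_def (a b : ℕ) (f : HF A → HF A) : itr a b f =
    if h : ∃ i : ℕ, i ≤ a ∧ f (f^[i] emp) = f^[i] emp ∧ ∀ j ≤ i, (tc (f^[j] emp)).card ≤ b then
      f^[Nat.find h] emp else emp := by
  have hP : ∀ i : ℕ, (i ≤ a ∧ f (f^[i] emp) = f^[i] emp ∧ ∀ j ≤ i, size (f^[j] emp) ≤ b) ↔
      (i ≤ a ∧ f (f^[i] emp) = f^[i] emp ∧ ∀ j ≤ i, (tc (f^[j] emp)).card ≤ b) := by
    intro i
    simp only [size_eq]
  unfold itr
  by_cases h : ∃ i : ℕ, i ≤ a ∧ f (f^[i] emp) = f^[i] emp ∧ ∀ j ≤ i, size (f^[j] emp) ≤ b
  · have h' : ∃ i : ℕ, i ≤ a ∧ f (f^[i] emp) = f^[i] emp ∧ ∀ j ≤ i, (tc (f^[j] emp)).card ≤ b := by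
      obtain ⟨i, hi⟩ := h
      exact ⟨i, (hP i).1 hi⟩
    rw [dif_pos h, dif_pos h']
    congr 1
    rw [Nat.find_congr' (fun {n} => hP n)]
  · have h' : ¬ ∃ i : ℕ, i ≤ a ∧ f (f^[i] emp) = f^[i] emp ∧
        ∀ j ≤ i, (tc (f^[j] emp)).card ≤ b := by
      rintro ⟨i, hi⟩
      exact h ⟨i, (hP i).2 hi⟩
    rw [dif_neg h, dif_neg h']

end HF

end Pool.Agent.CPT
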