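import Pool.Agent.CPT.Tr

/-!
# The transport preserves cardinalities
-/

set_option autoImplicit false

namespace Pool.Agent.CPT

open Finset Classical

namespace Fr

variable {A I K : Type} [Fintype A] [Fintype I] [Fintype K] [Group K] [MulAction K A]
variable (F : Fr A I K) (s : ℕ)

private theorem tc_agr_refl {X : Finset I} (k : K) : Agr F.pl X k k := fun _ _ => rfl

private theorem tc_agr_anti {X Y : Finset I} (hXY : X ⊆ Y) {k k' : K} (h : Agr F.pl Y k k') :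
    Agr F.pl X k k' := fun a ha => h a (ha.trans hXY)

private theorem tc_agr_symm {X : Finset I} {k k' : K} (h : Agr F.pl X k k') :
    Agr F.pl X k' k := fun a ha => (h a ha).symm

private theorem tc_agr_trans {X : Finset I} {k k' k'' : K} (h : Agr F.pl X k k')
    (h' : Agr F.pl X k' k'') : Agr F.pl X k k'' := fun a ha => (h a ha).trans (h' a ha)

private theorem tc_agr_inv {X : Finset I} {k k' : K} (h : Agr F.pl X k k') :
    Agr F.pl X k⁻¹ k'⁻¹ := fun a ha => by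
  rw [inv_smul_eq_iff]
  have h1 : k • k'⁻¹ • a = k' • k'⁻¹ • a := h _ (by rw [F.pl_smul]; exact ha)
  rw [h1, smul_inv_smul]

/-- homogeneity: an element of the transport is moved to a given extension -/
private theorem tc_move {y : HF A} {X Y : Finset I} {r ζ : K} (hY : Supp F.pl F.G Y y)
    (hL : (X ∪ Y).card ≤ F.L) (hr : r ∈ F.Th (X ∪ Y)) (hζ : ζ ∈ F.Th (X ∪ Y)) (h : Agr F.pl X r ζ) :
    ∃ g ∈ F.G, Trv F.pl X g ∧ F.T s y Y r = F.T s (g • y) Y ζ := by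
  obtain ⟨g, hg, hg1⟩ := F.Th_hom hL hζ hr
  refine ⟨g, hg, ?_, ?_⟩
  · intro a ha
    have h1 := h a ha
    have h2 := hg1 a (ha.trans Finset.subset_union_left)
    rw [h1, mul_smul] at h2
    exact (MulAction.injective ζ h2).symm
  · have h1 : F.T s y Y r = F.T s y Y (ζ * g) := F.T_agr s hY (F.tc_agr_anti Finset.subset_union_right hg1)
    rw [h1, ← F.T_smul s y Y (ζ * g) hg, mul_inv_cancel_right]

/-- the transport of a family of objects -/
noncomputable def TF (Z : Finset (HF A)) (X : Finset I) (k : K) : Finset (HF A) :=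
  ((Z ×ˢ ((Finset.univ : Finset (Finset I)) ×ˢ (Finset.univ : Finset K))).filter
      (fun p => p.2.1.card ≤ s ∧ Supp F.pl F.G p.2.1 p.1 ∧ p.2.2 ∈ F.Th (X ∪ p.2.1) ∧
        Agr F.pl X k p.2.2)).image (fun p => F.T s p.1 p.2.1 p.2.2)

theorem mem_TF {Z : Finset (HF A)} {X : Finset I} {k : K} {z : HF A} :
    z ∈ F.TF s Z X k ↔ ∃ y ∈ Z, ∃ Y : Finset I, Y.card ≤ s ∧
      Supp F.pl F.G Y y ∧ ∃ k' ∈ F.Th (X ∪ Y), Agr F.pl X k k' ∧ z = F.T s y Y k' := by
  unfold TF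
  simp only [Finset.mem_image, Finset.mem_filter, Finset.mem_product, Finset.mem_univ, and_true, Prod.exists]
  constructor
  · rintro ⟨y, Y, k', ⟨hy, h1, h2, h3, h4⟩, h5⟩
    exact ⟨y, hy, Y, h1, h2, k', h3, h4, h5.symm⟩
  · rintro ⟨y, hy, Y, h1, h2, k', h3, h4, h5⟩
    exact ⟨y, Y, k', ⟨hy, h1, h2, h3, h4⟩, h5.symm⟩

theorem elems_T (x : HF A) (X : Finset I) (k : K) :
    HF.elems (F.T s x X k) = F.TF s (HF.elems x) X k := by
  ext z
  rw [mem_T, mem_TF]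

private theorem tc_cases {x z : HF A} (hz : z ∈ HF.tc x) : z = x ∨ ∃ y ∈ HF.elems x, z ∈ HF.tc y := by
  rcases HF.cases' x with ⟨a, rfl⟩ | ⟨X, rfl⟩
  · left
    rwa [HF.tc_atom, mem_singleton] at hz
  · rw [HF.mem_tc_mk] at hz
    rcases hz with rfl | ⟨y, hy, hz⟩
    · exact Or.inl rfl
    · exact Or.inr ⟨y, by rwa [HF.elems_mk], hz⟩

private theorem tc_tc_aux (h5 : 5 * s ≤ F.L) (x : HF A) : HS F.pl F.G s x → ∀ (X : Finset I) (k : K), Supp F.pl F.G X x →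
    X.card + 4 * s ≤ F.L → k ∈ F.Th X → ∀ z, z ∈ HF.tc (F.T s x X k) ↔ z ∈ F.TF s (HF.tc x) X k := by
  refine HF.ind (P := fun x => HS F.pl F.G s x → ∀ (X : Finset I) (k : K), Supp F.pl F.G X x →
    X.card + 4 * s ≤ F.L → k ∈ F.Th X → ∀ z, z ∈ HF.tc (F.T s x X k) ↔ z ∈ F.TF s (HF.tc x) X k) ?_ ?_ x
  · intro a ha X k hX hL hk z
    rw [T_atom, HF.tc_atom, HF.tc_atom, mem_singleton, mem_TF]
    constructor
    · rintro rfl
      obtain ⟨Y, hY, hY'⟩ := ha _ (HF.self_mem_tc _)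
      have hc1 : (X ∪ Y).card ≤ X.card + s := le_trans (Finset.card_union_le _ _) (Nat.add_le_add_left hY _)
      obtain ⟨r, hr, hr1⟩ := F.Th_ext (X := X) (Y := X ∪ Y) Finset.subset_union_left (by omega) hk
      refine ⟨HF.atom a, mem_singleton_self _, Y, hY, hY', r, hr, hr1, ?_⟩
      rw [T_atom, hr1 a (hX.2 a rfl)]
    · rintro ⟨y, hy, Y, hY, hY', r, hr, hr1, rfl⟩
      rw [mem_singleton] at hy
      rw [hy, T_atom, hr1 a (hX.2 a rfl)]
  · intro S ih hS X k hX hL hk z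
    rw [mem_TF]
    constructor
    · intro hz
      rcases tc_cases hz with rfl | ⟨w, hw, hz⟩
      · obtain ⟨Y, hY, hY'⟩ := hS _ (HF.self_mem_tc _)
        have hc1 : (X ∪ Y).card ≤ X.card + s := le_trans (Finset.card_union_le _ _) (Nat.add_le_add_left hY _)
        obtain ⟨r, hr, hr1⟩ := F.Th_ext (X := X) (Y := X ∪ Y) Finset.subset_union_left (by omega) hk
        refine ⟨HF.mk S, HF.self_mem_tc _, Y, hY, hY', r, hr, hr1, ?_⟩
        rw [F.T_agr s hX hr1, F.T_indep s hX hY' (by omega) hr]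
      · obtain ⟨y0, hy0, Y0, hY0, hY0', k0, hk0, hk0', rfl⟩ := (F.mem_T s _ _ _ _).1 hw
        have hy0S : y0 ∈ S := by rwa [HF.elems_mk] at hy0
        obtain ⟨y, hy, Y, hY, hY', k', hk', hk'', rfl⟩ := (F.mem_TF s).1
          ((ih y0 hy0S (HS.mem F s hS hy0) Y0 k0 hY0' (by omega) (F.Th_anti Finset.subset_union_right hk0) z).1 hz)
        have hc1 : (X ∪ Y0).card ≤ X.card + s := le_trans (Finset.card_union_le _ _) (Nat.add_le_add_left hY0 _)
        have hc2 : ((X ∪ Y0) ∪ Y).card ≤ X.card + s + s := le_trans (Finset.card_union_le _ _) (Nat.add_le_add hc1 hY)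
        obtain ⟨ζ, hζ, hζ1⟩ := F.Th_ext (X := X ∪ Y0) (Y := (X ∪ Y0) ∪ Y) Finset.subset_union_left (by omega) hk0
        have s1 : Y0 ∪ Y ⊆ (X ∪ Y0) ∪ Y := Finset.union_subset_union_left Finset.subset_union_right
        have s2 : X ∪ Y ⊆ (X ∪ Y0) ∪ Y := Finset.union_subset_union_left Finset.subset_union_left
        obtain ⟨g, hg, hgN, hg2⟩ := F.tc_move s (X := Y0) hY' (by have := Finset.card_le_card s1; omega) hk' (F.Th_anti s1 hζ)
          (F.tc_agr_trans (F.tc_agr_symm hk'') (F.tc_agr_anti Finset.subset_union_right hζ1))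
        have hgy0 : g • y0 = y0 := hY0'.1 g hg hgN
        have hgy : g • y ∈ HF.tc y0 := by
          have h1 : g • y ∈ HF.tc (g • y0) := by
            rw [HF.tc_smul]
            exact Finset.mem_image_of_mem _ hy
          rwa [hgy0] at h1
        exact ⟨g • y, HF.tc_sub (HF.elems_sub_tc _ hy0) hgy, Y, hY, F.supp_smul hY' g, ζ, F.Th_anti s2 hζ,
          F.tc_agr_trans hk0' (F.tc_agr_anti Finset.subset_union_left hζ1), hg2⟩
    · rintro ⟨y, hy, Y, hY, hY', k', hk', hk'', rfl⟩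
      have hc1 : (X ∪ Y).card ≤ X.card + s := le_trans (Finset.card_union_le _ _) (Nat.add_le_add_left hY _)
      rcases tc_cases hy with rfl | ⟨y0, hy0, hy⟩
      · rw [← F.T_indep s hX hY' (by omega) hk', ← F.T_agr s hX hk'']
        exact HF.self_mem_tc _
      · have hy0S : y0 ∈ S := by rwa [HF.elems_mk] at hy0
        obtain ⟨Y0, hY0, hY0'⟩ := hS y0 (HF.elems_sub_tc _ hy0)
        have hc2 : ((X ∪ Y) ∪ Y0).card ≤ X.card + s + s := le_trans (Finset.card_union_le _ _) (Nat.add_le_add hc1 hY0)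
        obtain ⟨ζ, hζ, hζ1⟩ := F.Th_ext (X := X ∪ Y) (Y := (X ∪ Y) ∪ Y0) Finset.subset_union_left (by omega) hk'
        have s1 : X ∪ Y0 ⊆ (X ∪ Y) ∪ Y0 := Finset.union_subset_union_left Finset.subset_union_left
        have s2 : Y0 ∪ Y ⊆ (X ∪ Y) ∪ Y0 := by
          rw [Finset.union_comm Y0 Y]
          exact Finset.union_subset_union_left Finset.subset_union_right
        have hw : F.T s y0 Y0 ζ ∈ HF.elems (F.T s (HF.mk S) X k) := by
          rw [mem_T]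
          exact ⟨y0, hy0, Y0, hY0, hY0', ζ, F.Th_anti s1 hζ,
            F.tc_agr_trans hk'' (F.tc_agr_anti Finset.subset_union_left hζ1), rfl⟩
        refine HF.tc_sub (HF.elems_sub_tc _ hw) ?_
        rw [ih y0 hy0S (HS.mem F s hS hy0) Y0 ζ hY0' (by omega) (F.Th_anti Finset.subset_union_right hζ), mem_TF]
        exact ⟨y, hy, Y, hY, hY', ζ, F.Th_anti s2 hζ, F.tc_agr_refl _,
          F.T_agr s hY' (F.tc_agr_anti Finset.subset_union_right hζ1)⟩

theorem tc_T {x : HF A} {X : Finset I} {k : K} (hx : HS F.pl F.G s x) (hX : Supp F.pl F.G X x)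
    (h5 : 5 * s ≤ F.L) (hL : X.card + 4 * s ≤ F.L) (hk : k ∈ F.Th X) :
    HF.tc (F.T s x X k) = F.TF s (HF.tc x) X k :=
  Finset.ext (F.tc_tc_aux s h5 x hx X k hX hL hk)

private theorem tc_TF_inv {Z : Finset (HF A)} {X : Finset I} {k : K} (hZ : ∀ y ∈ Z, HS F.pl F.G s y)
    (hG : ∀ g ∈ F.G, Trv F.pl X g → ∀ y ∈ Z, g • y ∈ Z)
    (h5 : 5 * s ≤ F.L) (hL : X.card + 4 * s ≤ F.L) (hk : k ∈ F.Th X) : F.TF s (F.TF s Z X k) X k⁻¹ = Z := by
  ext z
  rw [mem_TF]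
  constructor
  · rintro ⟨w, hw, C, hC, hC', m, hm, hm', rfl⟩
    obtain ⟨y, hy, Y, hY, hY', r, hr, hr', rfl⟩ := (F.mem_TF s).1 hw
    have hc1 : (X ∪ C).card ≤ X.card + s := le_trans (Finset.card_union_le _ _) (Nat.add_le_add_left hC _)
    have hc2 : ((X ∪ C) ∪ Y).card ≤ X.card + s + s := le_trans (Finset.card_union_le _ _) (Nat.add_le_add hc1 hY)
    obtain ⟨ζ, hζ, hζ1⟩ := F.Th_ext (X := X ∪ C) (Y := (X ∪ C) ∪ Y) Finset.subset_union_left (by omega) (F.Th_inv hm)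
    have s1 : X ∪ Y ⊆ (X ∪ C) ∪ Y := Finset.union_subset_union_left Finset.subset_union_left
    have s2 : C ∪ Y ⊆ (X ∪ C) ∪ Y := Finset.union_subset_union_left Finset.subset_union_right
    have hkζ : Agr F.pl X r ζ := by
      have h1 := F.tc_agr_inv hm'
      rw [inv_inv] at h1
      exact F.tc_agr_trans (F.tc_agr_symm hr') (F.tc_agr_trans h1 (F.tc_agr_anti Finset.subset_union_left hζ1))
    obtain ⟨g, hg, hgN, hg2⟩ := F.tc_move s hY' (by have := Finset.card_le_card s1; omega) hr (F.Th_anti s1 hζ) hkζ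
    have hgy : g • y ∈ Z := hG g hg hgN y hy
    have hζY : ζ ∈ F.Th Y := F.Th_anti Finset.subset_union_right hζ
    have e3 : F.T s (F.T s y Y r) C m = F.T s (F.T s y Y r) C ζ⁻¹ := by
      refine F.T_agr s hC' ?_
      have h4 := F.tc_agr_inv (F.tc_agr_anti Finset.subset_union_right hζ1 : Agr F.pl C m⁻¹ ζ)
      rwa [inv_inv] at h4
    have e2 : F.T s (F.T s y Y r) C ζ⁻¹ = F.T s (F.T s y Y r) Y ζ⁻¹ := by
      refine F.T_indep s hC' (F.supp_T s r hY') ?_ (F.Th_inv (F.Th_anti s2 hζ))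
      have := Finset.card_union_le C Y
      omega
    rw [e3, e2, hg2, F.T_inv s (hZ _ hgy) (F.supp_smul hY' g) h5 (by omega) hζY]
    exact hgy
  · intro hz
    obtain ⟨Y, hY, hY'⟩ := hZ z hz z (HF.self_mem_tc z)
    have hc1 : (X ∪ Y).card ≤ X.card + s := le_trans (Finset.card_union_le _ _) (Nat.add_le_add_left hY _)
    obtain ⟨r, hr, hr1⟩ := F.Th_ext (X := X) (Y := X ∪ Y) Finset.subset_union_left (by omega) hk
    refine ⟨F.T s z Y r, (F.mem_TF s).2 ⟨z, hz, Y, hY, hY', r, hr, hr1, rfl⟩, Y, hY, F.supp_T s r hY', r⁻¹, F.Th_inv hr,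
      F.tc_agr_inv hr1, ?_⟩
    exact (F.T_inv s (hZ z hz) hY' h5 (by omega) (F.Th_anti Finset.subset_union_right hr)).symm

private theorem tc_card_le {Z : Finset (HF A)} {X : Finset I} {k : K} (hZ : ∀ y ∈ Z, HS F.pl F.G s y)
    (hG : ∀ g ∈ F.G, Trv F.pl X g → ∀ y ∈ Z, g • y ∈ Z)
    (h5 : 5 * s ≤ F.L) (hL : X.card + 4 * s ≤ F.L) (hk : k ∈ F.Th X) : Z.card ≤ (F.TF s Z X k).card := by
  let Gb : Subgroup K :=
    { carrier := {g | g ∈ F.G ∧ Trv F.pl X g}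
      mul_mem' := fun {a b} ha hb => ⟨mul_mem ha.1 hb.1, fun c hc => by rw [mul_smul, hb.2 c hc, ha.2 c hc]⟩
      one_mem' := ⟨one_mem _, fun c _ => one_smul K c⟩
      inv_mem' := fun {a} ha => ⟨inv_mem ha.1, fun c hc => by rw [inv_smul_eq_iff, ha.2 c hc]⟩ }
  have hex : ∀ y : HF A, ∃ p : Finset I × K, y ∈ Z → (p.1.card ≤ s ∧ Supp F.pl F.G p.1 y ∧ p.2 ∈ F.Th (X ∪ p.1) ∧
      Agr F.pl X k p.2) := by
    intro y
    by_cases hy : y ∈ Z
    · obtain ⟨Y, hY, hY'⟩ := hZ y hy y (HF.self_mem_tc y)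
      have hc1 : (X ∪ Y).card ≤ X.card + s := le_trans (Finset.card_union_le _ _) (Nat.add_le_add_left hY _)
      obtain ⟨r, hr, hr1⟩ := F.Th_ext (X := X) (Y := X ∪ Y) Finset.subset_union_left (by omega) hk
      exact ⟨(Y, r), fun _ => ⟨hY, hY', hr, hr1⟩⟩
    · exact ⟨(∅, 1), fun h => absurd h hy⟩
  choose p hp using hex
  let rp : HF A → HF A := fun y => Quotient.out (Quotient.mk (MulAction.orbitRel Gb (HF A)) y)
  have hr : ∀ y, ∃ g ∈ F.G, Trv F.pl X g ∧ y = g • rp y := by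
    intro y
    have h1 : (MulAction.orbitRel Gb (HF A)) (rp y) y := Quotient.mk_out (s := MulAction.orbitRel Gb (HF A)) y
    have h2 := (MulAction.orbitRel Gb (HF A)).symm h1
    obtain ⟨g, hg⟩ := h2
    exact ⟨g.1, g.2.1, g.2.2, hg.symm⟩
  have hrr : ∀ y z, (∃ g ∈ F.G, Trv F.pl X g ∧ y = g • z) → rp y = rp z := by
    rintro y z ⟨g, hg, hg', rfl⟩
    have h1 : (Quotient.mk (MulAction.orbitRel Gb (HF A)) (g • z)) = Quotient.mk (MulAction.orbitRel Gb (HF A)) z :=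
      Quotient.sound ⟨⟨g, hg, hg'⟩, rfl⟩
    exact congrArg Quotient.out h1
  have hrmem : ∀ y ∈ Z, rp y ∈ Z := by
    intro y hy
    obtain ⟨g, hg, hg', h1⟩ := hr y
    have h2 := hG g⁻¹ (inv_mem hg) (fun c hc => by rw [inv_smul_eq_iff, hg' c hc]) y hy
    have h3 : g⁻¹ • y = rp y := by
      conv_lhs => rw [h1]
      rw [inv_smul_smul]
    rwa [h3] at h2
  have hps : ∀ y ∈ Z, Supp F.pl F.G (p (rp y)).1 y := by
    intro y hy
    obtain ⟨g, hg, hg', h1⟩ := hr y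
    have h2 := F.supp_smul (hp _ (hrmem y hy)).2.1 g
    rwa [← h1] at h2
  refine Finset.card_le_card_of_injOn (fun y => F.T s y (p (rp y)).1 (p (rp y)).2) (fun y hy => ?_) ?_
  · have hy' : y ∈ Z := hy
    obtain ⟨a1, a2, a3, a4⟩ := hp _ (hrmem y hy')
    exact Finset.mem_coe.2 ((F.mem_TF s).2 ⟨y, hy', _, a1, hps y hy', _, a3, a4, rfl⟩)
  · intro y1 hy1 y2 hy2 h
    have hy1' : y1 ∈ Z := hy1
    have hy2' : y2 ∈ Z := hy2
    obtain ⟨a1, a2, a3, a4⟩ := hp _ (hrmem y1 hy1')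
    obtain ⟨b1, b2, b3, b4⟩ := hp _ (hrmem y2 hy2')
    have hs1 := hps y1 hy1'
    have hs2 := hps y2 hy2'
    have h' : F.T s y1 (p (rp y1)).1 (p (rp y1)).2 = F.T s y2 (p (rp y2)).1 (p (rp y2)).2 := h
    have hrep : rp y1 = rp y2 := by
      set C1 := (p (rp y1)).1 with hC1
      set C2 := (p (rp y2)).1 with hC2
      set m1 := (p (rp y1)).2
      set m2 := (p (rp y2)).2
      have hc1 : (X ∪ C1).card ≤ X.card + s := le_trans (Finset.card_union_le _ _) (Nat.add_le_add_left a1 _)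
      have hc2 : ((X ∪ C1) ∪ C2).card ≤ X.card + s + s := le_trans (Finset.card_union_le _ _) (Nat.add_le_add hc1 b1)
      obtain ⟨ζ, hζ, hζ1⟩ := F.Th_ext (X := X ∪ C1) (Y := (X ∪ C1) ∪ C2) Finset.subset_union_left (by omega) a3
      have s1 : X ∪ C2 ⊆ (X ∪ C1) ∪ C2 := Finset.union_subset_union_left Finset.subset_union_left
      have s2 : C1 ∪ C2 ⊆ (X ∪ C1) ∪ C2 := Finset.union_subset_union_left Finset.subset_union_right
      have e3 : Agr F.pl X m2 ζ := F.tc_agr_trans (F.tc_agr_symm b4) (F.tc_agr_trans a4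
        (F.tc_agr_anti Finset.subset_union_left hζ1))
      obtain ⟨g, hg, hgN, hg2⟩ := F.tc_move s hs2 (by have := Finset.card_le_card s1; omega) b3 (F.Th_anti s1 hζ) e3
      have hgy : g • y2 ∈ Z := hG g hg hgN y2 hy2'
      have e5 : F.T s y1 C1 m1 = F.T s y1 C1 ζ := F.T_agr s hs1 (F.tc_agr_anti Finset.subset_union_right hζ1)
      rw [e5, hg2] at h'
      have hc3 : (C1 ∪ C2).card ≤ s + s := le_trans (Finset.card_union_le _ _) (Nat.add_le_add a1 b1)
      have e6 := (F.T_inj s (hZ _ hy1') (hZ _ hgy) hs1 (F.supp_smul hs2 g) h5 (by omega) (F.Th_anti s2 hζ)).1 h'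
      exact hrr y1 y2 ⟨g, hg, hgN, e6⟩
    rw [← hrep] at h' hs2
    have hm : (p (rp y1)).2 ∈ F.Th ((p (rp y1)).1 ∪ (p (rp y1)).1) := by
      rw [Finset.union_self]
      exact F.Th_anti Finset.subset_union_right a3
    exact (F.T_inj s (hZ _ hy1') (hZ _ hy2') hs1 hs2 h5 (by rw [Finset.union_self]; omega) hm).1 h'

/-- choose one extension of `k` for every orbit of the stabiliser of `X` -/
theorem card_TF {Z : Finset (HF A)} {X : Finset I} {k : K} (hZ : ∀ y ∈ Z, HS F.pl F.G s y)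
    (hG : ∀ g ∈ F.G, Trv F.pl X g → ∀ y ∈ Z, g • y ∈ Z)
    (h5 : 5 * s ≤ F.L) (hL : X.card + 4 * s ≤ F.L) (hk : k ∈ F.Th X) : (F.TF s Z X k).card = Z.card := by
  refine le_antisymm ?_ (F.tc_card_le s hZ hG h5 hL hk)
  have h1 : ∀ y ∈ F.TF s Z X k, HS F.pl F.G s y := by
    intro w hw
    obtain ⟨y, hy, Y, hY, hY', r, hr, hr', rfl⟩ := (F.mem_TF s).1 hw
    exact F.HS_T s (hZ y hy) hY' h5 (by omega) (F.Th_anti Finset.subset_union_right hr)
  have h2 : ∀ g ∈ F.G, Trv F.pl X g → ∀ y ∈ F.TF s Z X k, g • y ∈ F.TF s Z X k := by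
    intro g hg hgN w hw
    obtain ⟨y, hy, Y, hY, hY', r, hr, hr', rfl⟩ := (F.mem_TF s).1 hw
    rw [F.smul_T s y Y r hg, mem_TF]
    refine ⟨y, hy, Y, hY, hY', g * r, F.Th_mul hg hr, fun a ha => ?_, rfl⟩
    rw [mul_smul, hr' a ha]
    exact (hgN _ (by rw [F.pl_smul]; exact ha)).symm
  have h3 := F.tc_card_le s h1 h2 h5 hL (F.Th_inv hk)
  rwa [F.tc_TF_inv s hZ hG h5 hL hk] at h3

theorem card_elems_T {x : HF A} {X : Finset I} {k : K} (hx : HS F.pl F.G s x)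
    (hX : Supp F.pl F.G X x) (h5 : 5 * s ≤ F.L) (hL : X.card + 4 * s ≤ F.L) (hk : k ∈ F.Th X) :
    (HF.elems (F.T s x X k)).card = (HF.elems x).card := by
  rw [elems_T]
  refine F.card_TF s (fun y hy => HS.mem F s hx hy) (fun g hg hgN y hy => ?_) h5 hL hk
  have h1 : g • y ∈ HF.elems (g • x) := (HF.smul_mem_elems g x y).2 hy
  rwa [hX.1 g hg hgN] at h1

theorem card_tc_T {x : HF A} {X : Finset I} {k : K} (hx : HS F.pl F.G s x)
    (hX : Supp F.pl F.G X x) (h5 : 5 * s ≤ F.L) (hL : X.card + 4 * s ≤ F.L) (hk : k ∈ F.Th X) :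
    (HF.tc (F.T s x X k)).card = (HF.tc x).card := by
  rw [F.tc_T s hx hX h5 hL hk]
  refine F.card_TF s (fun y hy => HS.tc F s hx hy) (fun g hg hgN y hy => ?_) h5 hL hk
  have h1 : g • y ∈ HF.tc (g • x) := by
    rw [HF.tc_smul]
    exact Finset.mem_image_of_mem _ hy
  rwa [hX.1 g hg hgN] at h1

end Fr

end Pool.Agent.CPT
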