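import Pool.Agent.CPT.Ev

/-!
# All values that occur in an evaluation have small orbits
-/

set_option autoImplicit false

namespace Pool.Agent.CPT

open Finset Classical

namespace EvSm

open HF

section

variable {A K : Type} [Fintype K] [Group K] [MulAction K A]

/-- the images of a list of values -/
noncomputable def lst (G : Subgroup K) (ρ : List (HF A)) : Finset (List (HF A)) :=
  (Finset.univ.filter (fun g : K => g ∈ G)).image (fun g => ρ.map fun x => g • x)

theorem mem_orb {G : Subgroup K} {x y : HF A} : y ∈ orb G x ↔ ∃ g ∈ G, g • x = y := by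
  unfold orb
  simp only [mem_image, mem_filter, mem_univ, true_and]

theorem mem_lst {G : Subgroup K} {ρ l : List (HF A)} :
    l ∈ lst G ρ ↔ ∃ g ∈ G, (ρ.map fun x => g • x) = l := by
  unfold lst
  simp only [mem_image, mem_filter, mem_univ, true_and]

theorem card_lst (G : Subgroup K) (q : ℕ) (ρ : List (HF A)) :
    (∀ x ∈ ρ, (orb G x).card ≤ q) → (lst G ρ).card ≤ (q + 1) ^ ρ.length := by
  induction ρ with
  | nil =>
    intro _
    have h : lst G ([] : List (HF A)) ⊆ {[]} := by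
      intro l hl
      rw [mem_lst] at hl
      obtain ⟨g, -, rfl⟩ := hl
      simp
    calc (lst G ([] : List (HF A))).card ≤ ({[]} : Finset (List (HF A))).card := card_le_card h
      _ = 1 := card_singleton _
      _ ≤ _ := by simp
  | cons x ρ ih =>
    intro hρ
    have hsub : lst G (x :: ρ) ⊆ ((orb G x) ×ˢ (lst G ρ)).image (fun p => p.1 :: p.2) := by
      intro l hl
      rw [mem_lst] at hl
      obtain ⟨g, hg, rfl⟩ := hl
      rw [mem_image]
      exact ⟨(g • x, ρ.map fun x => g • x),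
        mem_product.2 ⟨mem_orb.2 ⟨g, hg, rfl⟩, mem_lst.2 ⟨g, hg, rfl⟩⟩, rfl⟩
    have h1 : (orb G x).card ≤ q + 1 := by
      have := hρ x (by simp)
      omega
    have h2 : (lst G ρ).card ≤ (q + 1) ^ ρ.length := ih fun y hy => hρ y (by simp [hy])
    calc (lst G (x :: ρ)).card ≤ _ := card_le_card hsub
      _ ≤ ((orb G x) ×ˢ (lst G ρ)).card := card_image_le
      _ = (orb G x).card * (lst G ρ).card := card_product _ _
      _ ≤ (q + 1) * (q + 1) ^ ρ.length := Nat.mul_le_mul h1 h2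
      _ = (q + 1) ^ (x :: ρ).length := by rw [List.length_cons, pow_succ, mul_comm]

theorem Sm.mono {G : Subgroup K} {q q' : ℕ} {x : HF A} (h : Sm G q x) (hq : q ≤ q') :
    Sm G q' x := fun y hy => (h y hy).trans hq

theorem Sm.el {G : Subgroup K} {q : ℕ} {x y : HF A} (h : Sm G q x) (hy : y ∈ elems x) :
    Sm G q y := fun z hz => h z (tc_sub (elems_sub_tc x hy) hz)

theorem Sm.mk' {G : Subgroup K} {q : ℕ} {x : HF A} (h : (orb G x).card ≤ q)
    (h' : ∀ y ∈ elems x, Sm G q y) : Sm G q x := by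
  intro z hz
  rcases cases' x with ⟨a, rfl⟩ | ⟨s, rfl⟩
  · rw [tc_atom, mem_singleton] at hz
    rw [hz]; exact h
  · rcases mem_tc_mk.1 hz with rfl | ⟨y, hy, hzy⟩
    · exact h
    · exact h' y (by rw [elems_mk]; exact hy) z hzy

theorem Sm.ord {G : Subgroup K} {q : ℕ} (hq : 1 ≤ q) (n : ℕ) : Sm G q (HF.ord n : HF A) := by
  have key : ∀ z ∈ tc (HF.ord n : HF A), ∃ m : ℕ, z = HF.ord m := by
    apply tc_ind
    · exact ⟨n, rfl⟩
    · rintro y - ⟨m, rfl⟩ z hz
      rw [elems_ord, mem_image] at hz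
      obtain ⟨k, -, rfl⟩ := hz
      exact ⟨k, rfl⟩
  intro z hz
  obtain ⟨m, rfl⟩ := key z hz
  have hsub : orb G (HF.ord m : HF A) ⊆ {HF.ord m} := by
    intro y hy
    obtain ⟨g, -, rfl⟩ := mem_orb.1 hy
    rw [smul_ord, mem_singleton]
  exact (card_le_card hsub).trans ((card_singleton _).le.trans hq)

theorem Sm.emp {G : Subgroup K} {q : ℕ} (hq : 1 ≤ q) : Sm G q (HF.emp : HF A) := Sm.ord hq 0

theorem Sm.tv {G : Subgroup K} {q : ℕ} (hq : 1 ≤ q) (p : Prop) : Sm G q (HF.tv p : HF A) := by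
  unfold HF.tv
  split_ifs
  · exact Sm.ord hq 1
  · exact Sm.ord hq 0

theorem orb_le {G : Subgroup K} {q : ℕ} {ρ : List (HF A)} (hρ : ∀ x ∈ ρ, Sm G q x)
    (V : List (HF A) → HF A) (hV : ∀ g ∈ G, g • V ρ = V (ρ.map fun x => g • x)) :
    (orb G (V ρ)).card ≤ (q + 1) ^ (ρ.length + 1) := by
  have h1 : orb G (V ρ) ⊆ (lst G ρ).image V := by
    intro y hy
    obtain ⟨g, hg, rfl⟩ := mem_orb.1 hy
    rw [hV g hg]
    exact mem_image_of_mem _ (mem_lst.2 ⟨g, hg, rfl⟩)
  calc (orb G (V ρ)).card ≤ ((lst G ρ).image V).card := card_le_card h1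
    _ ≤ (lst G ρ).card := card_image_le
    _ ≤ (q + 1) ^ ρ.length := card_lst G q ρ (fun x hx => hρ x hx x (self_mem_tc x))
    _ ≤ (q + 1) ^ (ρ.length + 1) := Nat.pow_le_pow_right (by omega) (by omega)

theorem orb_tc_le {G : Subgroup K} {q b : ℕ} {ρ : List (HF A)} (hρ : ∀ x ∈ ρ, Sm G q x)
    (V : List (HF A) → HF A) (hV : ∀ g ∈ G, g • V ρ = V (ρ.map fun x => g • x))
    (hb : (tc (V ρ)).card ≤ b) : Sm G (b * (q + 1) ^ (ρ.length + 1)) (V ρ) := by
  intro y hy
  have h1 : orb G y ⊆ (lst G ρ).biUnion (fun l => tc (V l)) := by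
    intro z hz
    obtain ⟨g, hg, rfl⟩ := mem_orb.1 hz
    rw [mem_biUnion]
    refine ⟨ρ.map fun x => g • x, mem_lst.2 ⟨g, hg, rfl⟩, ?_⟩
    rw [← hV g hg, smul_mem_tc]
    exact hy
  have h2 : ∀ l ∈ lst G ρ, (tc (V l)).card ≤ b := by
    intro l hl
    obtain ⟨g, hg, rfl⟩ := mem_lst.1 hl
    rw [← hV g hg, EvA.card_tc_smul]
    exact hb
  calc (orb G y).card ≤ _ := card_le_card h1
    _ ≤ (lst G ρ).card * b := card_biUnion_le_card_mul _ _ _ h2
    _ ≤ (q + 1) ^ ρ.length * b :=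
      Nat.mul_le_mul_right _ (card_lst G q ρ (fun x hx => hρ x hx x (self_mem_tc x)))
    _ ≤ (q + 1) ^ (ρ.length + 1) * b :=
      Nat.mul_le_mul_right _ (Nat.pow_le_pow_right (by omega) (by omega))
    _ = b * (q + 1) ^ (ρ.length + 1) := mul_comm _ _

end

end EvSm

section

variable {Γ : Voc} {A I K : Type} [Fintype A] [Fintype I] [Fintype K] [Group K] [MulAction K A]
variable (P : Twin Γ A I K)

/-- the stages of an iteration have small orbits, as long as they have at most `B` elements -/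
theorem stage_Sm (ns b B : ℕ) (hbB : b ≤ B) (t : Tm Γ) (ρ : List (HF A)) (q j : ℕ)
    (hρ : ∀ x ∈ ρ, Sm P.F.G q x)
    (hj : (HF.tc ((fun x => eval P.U0 P.S ns b t (x :: ρ))^[j] HF.emp)).card ≤ b) :
    Sm P.F.G (B * (q + 1) ^ (ρ.length + 1)) ((fun x => eval P.U0 P.S ns b t (x :: ρ))^[j] HF.emp) := by
  have h := EvSm.orb_tc_le (G := P.F.G) (q := q) (b := b) hρ
    (fun l => (fun x => eval P.U0 P.S ns b t (x :: l))^[j] HF.emp)
    (by
      intro g hg
      apply EvA.smul_iterate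
      intro x
      exact eval_smul P.U0 P.S ns b g (P.inv0 g hg) (P.inv g) t (x :: ρ))
    hj
  exact EvSm.Sm.mono h (Nat.mul_le_mul_right _ hbB)

theorem eval_Sm (ns b B : ℕ) (hb : P.U0.card ≤ B) (hbB : b ≤ B) (t : Tm Γ) (ρ : List (HF A)) (q : ℕ)
    (hρ : ∀ x ∈ ρ, Sm P.F.G q x) : Sm P.F.G (t.bd B q ρ.length) (eval P.U0 P.S ns b t ρ) := by
  have key : ∀ (t : Tm Γ) (ρ : List (HF A)) (q : ℕ), (∀ x ∈ ρ, Sm P.F.G q x) →
      (orb P.F.G (eval P.U0 P.S ns b t ρ)).card ≤ (q + 1) ^ (ρ.length + 1) := by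
    intro t ρ q hρ
    exact EvSm.orb_le hρ (fun l => eval P.U0 P.S ns b t l)
      (fun g hg => eval_smul P.U0 P.S ns b g (P.inv0 g hg) (P.inv g) t ρ)
  have hone : ∀ (n m : ℕ), 1 ≤ (n + 1) ^ m := fun n m => Nat.one_le_pow _ _ (by omega)
  induction t generalizing ρ q with
  | var i =>
    have h1 := hone q (ρ.length + 1)
    show Sm P.F.G ((q + 1) ^ (ρ.length + 1) + B) (ρ.getD i HF.emp)
    rw [List.getD_eq_getElem?_getD]
    cases hi : ρ[i]? with
    | none => exact EvSm.Sm.emp (by omega)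
    | some x =>
      have hx : x ∈ ρ := List.mem_of_getElem? hi
      refine EvSm.Sm.mono (hρ x hx) ?_
      have h2 : q + 1 ≤ (q + 1) ^ (ρ.length + 1) := Nat.le_self_pow (by omega) _
      omega
  | empty =>
    have h1 := hone q (ρ.length + 1)
    exact EvSm.Sm.emp (by show 1 ≤ (q + 1) ^ (ρ.length + 1) + B; omega)
  | atoms =>
    have h0 := key Tm.atoms ρ q hρ
    refine EvSm.Sm.mk' (h0.trans (by show _ ≤ (q + 1) ^ (ρ.length + 1) + B; omega)) ?_
    intro y hy
    have hy' : y ∈ HF.elems (HF.mk (P.U0.image HF.atom)) := hy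
    rw [HF.elems_mk, mem_image] at hy'
    obtain ⟨a, ha, rfl⟩ := hy'
    apply EvSm.Sm.mk'
    · have hsub : orb P.F.G (HF.atom a : HF A) ⊆ P.U0.image HF.atom := by
        intro z hz
        obtain ⟨g, hg, rfl⟩ := EvSm.mem_orb.1 hz
        rw [HF.smul_atom]
        exact mem_image_of_mem _ ((P.inv0 g hg a).2 ha)
      have h3 := (card_le_card hsub).trans (card_image_le.trans hb)
      show _ ≤ (q + 1) ^ (ρ.length + 1) + B
      omega
    · intro y hy
      rw [HF.elems_atom] at hy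
      exact absurd hy (by simp)
  | pair s t hs ht =>
    have h0 := key (Tm.pair s t) ρ q hρ
    have h1 := hs ρ q hρ
    have h2 := ht ρ q hρ
    have hbd : (Tm.pair s t).bd B q ρ.length =
      s.bd B q ρ.length + t.bd B q ρ.length + (q + 1) ^ (ρ.length + 1) + B := rfl
    rw [hbd]
    refine EvSm.Sm.mk' (h0.trans (by omega)) ?_
    intro y hy
    have hy' : y ∈ HF.elems (HF.pr (eval P.U0 P.S ns b s ρ) (eval P.U0 P.S ns b t ρ)) := hy
    unfold HF.pr at hy'
    rw [HF.elems_mk, mem_insert, mem_singleton] at hy'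
    rcases hy' with rfl | rfl
    · exact EvSm.Sm.mono h1 (by omega)
    · exact EvSm.Sm.mono h2 (by omega)
  | union t ht =>
    have h0 := key (Tm.union t) ρ q hρ
    have h2 := ht ρ q hρ
    have hbd : (Tm.union t).bd B q ρ.length =
      t.bd B q ρ.length + (q + 1) ^ (ρ.length + 1) + B := rfl
    rw [hbd]
    refine EvSm.Sm.mk' (h0.trans (by omega)) ?_
    intro y hy
    have hy' : y ∈ HF.elems (HF.un (eval P.U0 P.S ns b t ρ)) := hy
    unfold HF.un at hy'
    rw [HF.elems_mk, mem_biUnion] at hy'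
    obtain ⟨z, hz, hyz⟩ := hy'
    exact EvSm.Sm.mono (EvSm.Sm.el (EvSm.Sm.el h2 hz) hyz) (by omega)
  | uniq t ht =>
    have h1 := hone q (ρ.length + 1)
    have h2 := ht ρ q hρ
    have hbd : (Tm.uniq t).bd B q ρ.length =
      t.bd B q ρ.length + (q + 1) ^ (ρ.length + 1) + B := rfl
    rw [hbd]
    show Sm P.F.G _ (HF.uq (eval P.U0 P.S ns b t ρ))
    by_cases h : ∃ y, HF.elems (eval P.U0 P.S ns b t ρ) = {y}
    · obtain ⟨y, hy⟩ := h
      rw [EvA.uq_eq hy]
      exact EvSm.Sm.mono (EvSm.Sm.el h2 (by rw [hy]; exact mem_singleton_self y)) (by omega)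
    · rw [EvA.uq_neg h]
      exact EvSm.Sm.emp (by omega)
  | card t ht =>
    have h1 := hone q (ρ.length + 1)
    have hbd : (Tm.card t).bd B q ρ.length =
      t.bd B q ρ.length + (q + 1) ^ (ρ.length + 1) + B := rfl
    rw [hbd]
    exact EvSm.Sm.ord (by omega) _
  | eq s t hs ht =>
    have h1 := hone q (ρ.length + 1)
    have hbd : (Tm.eq s t).bd B q ρ.length =
      s.bd B q ρ.length + t.bd B q ρ.length + (q + 1) ^ (ρ.length + 1) + B := rfl
    rw [hbd]
    exact EvSm.Sm.tv (by omega) _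
  | mem s t hs ht =>
    have h1 := hone q (ρ.length + 1)
    have hbd : (Tm.mem s t).bd B q ρ.length =
      s.bd B q ρ.length + t.bd B q ρ.length + (q + 1) ^ (ρ.length + 1) + B := rfl
    rw [hbd]
    exact EvSm.Sm.tv (by omega) _
  | rel r ts ih =>
    have h1 := hone q (ρ.length + 1)
    have hbd : (Tm.rel r ts).bd B q ρ.length =
      (∑ i : Fin (Γ.ar r), (ts i).bd B q ρ.length) + (q + 1) ^ (ρ.length + 1) + B := rfl
    rw [hbd]
    exact EvSm.Sm.tv (by omega) _
  | neg t ht =>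
    have h1 := hone q (ρ.length + 1)
    have hbd : (Tm.neg t).bd B q ρ.length =
      t.bd B q ρ.length + (q + 1) ^ (ρ.length + 1) + B := rfl
    rw [hbd]
    exact EvSm.Sm.tv (by omega) _
  | and s t hs ht =>
    have h1 := hone q (ρ.length + 1)
    have hbd : (Tm.and s t).bd B q ρ.length =
      s.bd B q ρ.length + t.bd B q ρ.length + (q + 1) ^ (ρ.length + 1) + B := rfl
    rw [hbd]
    exact EvSm.Sm.tv (by omega) _
  | comp s t c hs ht hc =>
    have h0 := key (Tm.comp s t c) ρ q hρ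
    have h2 := ht ρ q hρ
    have hbd : (Tm.comp s t c).bd B q ρ.length =
      t.bd B q ρ.length + s.bd B (t.bd B q ρ.length + q) (ρ.length + 1) +
      c.bd B (t.bd B q ρ.length + q) (ρ.length + 1) + (q + 1) ^ (ρ.length + 1) + B := rfl
    rw [hbd]
    refine EvSm.Sm.mk' (h0.trans (by omega)) ?_
    intro y hy
    have hy' : y ∈ HF.elems (HF.mk (((HF.elems (eval P.U0 P.S ns b t ρ)).filter
      (fun x => eval P.U0 P.S ns b c (x :: ρ) ≠ HF.ord 0)).image
        (fun x => eval P.U0 P.S ns b s (x :: ρ)))) := hy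
    rw [HF.elems_mk, mem_image] at hy'
    obtain ⟨x, hx, rfl⟩ := hy'
    rw [mem_filter] at hx
    have h3 := hs (x :: ρ) (t.bd B q ρ.length + q) (by
      intro z hz
      rw [List.mem_cons] at hz
      rcases hz with rfl | hz
      · exact EvSm.Sm.mono (EvSm.Sm.el h2 hx.1) (by omega)
      · exact EvSm.Sm.mono (hρ z hz) (by omega))
    rw [List.length_cons] at h3
    exact EvSm.Sm.mono h3 (by omega)
  | iter t ht =>
    have h1 := hone q (ρ.length + 1)
    have hbd : (Tm.iter t).bd B q ρ.length =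
      t.bd B (B * (q + 1) ^ (ρ.length + 1) + q) (ρ.length + 1) + B * (q + 1) ^ (ρ.length + 1) +
      (q + 1) ^ (ρ.length + 1) + B := rfl
    rw [hbd]
    show Sm P.F.G _ (HF.itr ns b (fun x => eval P.U0 P.S ns b t (x :: ρ)))
    rw [HF.itr_def]
    by_cases hf : ∃ i : ℕ, i ≤ ns ∧ (fun x => eval P.U0 P.S ns b t (x :: ρ))
        ((fun x => eval P.U0 P.S ns b t (x :: ρ))^[i] HF.emp) =
          (fun x => eval P.U0 P.S ns b t (x :: ρ))^[i] HF.emp ∧
        ∀ j ≤ i, (HF.tc ((fun x => eval P.U0 P.S ns b t (x :: ρ))^[j] HF.emp)).card ≤ b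
    · rw [dif_pos hf]
      have hspec := Nat.find_spec hf
      have h3 := stage_Sm P ns b B hbB t ρ q (Nat.find hf) hρ (hspec.2.2 _ le_rfl)
      exact EvSm.Sm.mono h3 (by omega)
    · rw [dif_neg hf]
      exact EvSm.Sm.emp (by omega)

end

end Pool.Agent.CPT
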