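import Pool.Agent.CPT.Ev

/-!
# Adding atoms that are fixed by the group
-/

set_option autoImplicit false

namespace Pool.Agent.CPT

open Finset Classical

/-- the atoms `A` together with fixed atoms `B` -/
def AB (A B : Type) : Type := A ⊕ B

/-- an atom of `A` -/
def AB.l {A B : Type} (a : A) : AB A B := Sum.inl a

/-- a fixed atom -/
def AB.r {A B : Type} (b : B) : AB A B := Sum.inr b

/-- case distinction -/
def AB.elim {A B C : Type} (f : A → C) (g : B → C) : AB A B → C := Sum.elim f g

@[simp] theorem AB.elim_l {A B C : Type} (f : A → C) (g : B → C) (a : A) :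
    AB.elim f g (AB.l a) = f a := rfl

@[simp] theorem AB.elim_r {A B C : Type} (f : A → C) (g : B → C) (b : B) :
    AB.elim f g (AB.r b) = g b := rfl

theorem AB.cases {A B : Type} (x : AB A B) : (∃ a, x = AB.l a) ∨ ∃ b, x = AB.r b := by
  rcases x with a | b
  · exact Or.inl ⟨a, rfl⟩
  · exact Or.inr ⟨b, rfl⟩

theorem AB.l_inj {A B : Type} {a a' : A} (h : (AB.l a : AB A B) = AB.l a') : a = a' :=
  Sum.inl_injective h

theorem AB.r_inj {A B : Type} {b b' : B} (h : (AB.r b : AB A B) = AB.r b') : b = b' :=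
  Sum.inr_injective h

noncomputable instance {A B : Type} [Fintype A] [Fintype B] : Fintype (AB A B) :=
  inferInstanceAs (Fintype (A ⊕ B))

instance {A B K : Type} [Group K] [MulAction K A] : MulAction K (AB A B) where
  smul k := AB.elim (fun a => AB.l (k • a)) AB.r
  one_smul x := by
    rcases AB.cases x with ⟨a, rfl⟩ | ⟨b, rfl⟩
    · show AB.l ((1 : K) • a) = AB.l a
      rw [one_smul]
    · rfl
  mul_smul k k' x := by
    rcases AB.cases x with ⟨a, rfl⟩ | ⟨b, rfl⟩
    · show AB.l ((k * k') • a) = AB.l (k • k' • a)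
      rw [mul_smul]
    · rfl

@[simp] theorem AB.smul_l {A B K : Type} [Group K] [MulAction K A] (k : K) (a : A) :
    k • (AB.l a : AB A B) = AB.l (k • a) := rfl

@[simp] theorem AB.smul_r {A B K : Type} [Group K] [MulAction K A] (k : K) (b : B) :
    k • (AB.r b : AB A B) = AB.r b := rfl

private theorem ab_agr {A B I K : Type} [Group K] [MulAction K A] (pl : A → Finset I)
    (X : Finset I) (k k' : K) :
    Agr (A := AB A B) (AB.elim pl (fun _ => ∅)) X k k' ↔ Agr pl X k k' := by
  constructor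
  · intro h a ha
    exact AB.l_inj (h (AB.l a) ha)
  · intro h x hx
    rcases AB.cases x with ⟨a, rfl⟩ | ⟨b, rfl⟩
    · rw [AB.smul_l, AB.smul_l, h a hx]
    · rfl

/-- the frame with additional fixed atoms -/
noncomputable def Fr.ext {A I K : Type} [Fintype A] [Fintype I] [Fintype K] [Group K]
    [MulAction K A] (F : Fr A I K) (B : Type) [Fintype B] : Fr (AB A B) I K where
  pl := AB.elim F.pl (fun _ => ∅)
  pl_smul := by
    intro k x
    rcases AB.cases x with ⟨a, rfl⟩ | ⟨b, rfl⟩
    · exact F.pl_smul k a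
    · rfl
  G := F.G
  norm := F.norm
  Th := F.Th
  L := F.L
  Th_anti := F.Th_anti
  Th_inv := F.Th_inv
  Th_mul := F.Th_mul
  Th_ext := by
    intro X Y k hXY hY hk
    obtain ⟨k', hk', h⟩ := F.Th_ext hXY hY hk
    exact ⟨k', hk', (ab_agr F.pl X k k').2 h⟩
  Th_hom := by
    intro X k k' hX hk hk'
    obtain ⟨g, hg, h⟩ := F.Th_hom hX hk hk'
    exact ⟨g, hg, (ab_agr F.pl X k' (k * g)).2 h⟩

end Pool.Agent.CPT
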