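import Pool.Agent.CPT.At

/-!
# The graphs have bounded degree and at most `D l^3` vertices

Squares and edges at a vertex `u` are named by `Cd = Fin 3 × (Fin 3 → Fin 2)` (direction and
offsets), an atom by its place and its restriction to the squares and edges at the place
(`Deg_cde`), a vertex of the graph whose places are near a fixed vertex `v` by the offsets of the
places and the codes of the atoms (`Deg_loc`).
-/

set_option autoImplicit false

namespace Pool.Agent.CPT

open Finset Classical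

/-- names of the squares and edges at a vertex -/
abbrev Deg_Cd : Type := Fin 3 × (Fin 3 → Fin 2)

/-- codes of atoms -/
abbrev Deg_Q : Type := (Deg_Cd → Om) × (Deg_Cd → ZMod 2)

/-- codes of atoms with offsets -/
abbrev Deg_P : Type := (Fin 3 → Fin 3) × Deg_Q

/-- codes of vertices of the graph -/
abbrev Deg_K : Type := Deg_P ⊕ (Deg_P × Deg_P)

noncomputable instance Deg_fintypeQ1 : Fintype (Deg_Cd → Om) := Fintype.ofFinite _

noncomputable instance Deg_fintypeQ2 : Fintype (Deg_Cd → ZMod 2) := Fintype.ofFinite _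

noncomputable instance Deg_fintypeK : Fintype Deg_K := Fintype.ofFinite _

variable {l : ℕ}

/-- the square or edge at `u` with a given name -/
def Deg_dec (u : Vx l) (t : Deg_Cd) : Fin 3 × Vx l :=
  (t.1, fun j => ⟨(u j).val - (t.2 j).val, lt_of_le_of_lt (Nat.sub_le _ _) (u j).isLt⟩)

theorem Deg_dec_surj {u : Vx l} {C : Fin 3 × Vx l}
    (h : ∀ j, (u j).val = (C.2 j).val ∨ (u j).val = (C.2 j).val + 1) :
    ∃ t, Deg_dec u t = C := by
  refine ⟨(C.1, fun j => if (u j).val = (C.2 j).val then 0 else 1), ?_⟩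
  refine Prod.ext rfl ?_
  funext j
  apply Fin.ext
  simp only [Deg_dec]
  by_cases hj : (u j).val = (C.2 j).val
  · simp [hj]
  · rcases h j with h1 | h1
    · exact absurd h1 hj
    · rw [if_neg hj]
      simp only [Fin.val_one]
      omega

theorem Deg_sv {C : Sq l} {u : Vx l} (h : sv C u) (j : Fin 3) :
    (u j).val = (C.2 j).val ∨ (u j).val = (C.2 j).val + 1 := by
  by_cases hj : j = C.1
  · left; rw [hj, h.2.1]
  · exact h.2.2 j hj

theorem Deg_ie {e : Ed l} {u : Vx l} (h : ie e u) (j : Fin 3) :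
    (u j).val = (e.2 j).val ∨ (u j).val = (e.2 j).val + 1 := by
  by_cases hj : j = e.1
  · rw [hj]; exact h.2.2
  · left; rw [h.2.1 j hj]

/-- the code of an atom -/
noncomputable def Deg_cde (x : At l) : Deg_Q :=
  (fun t => x.a (Deg_dec x.v t), fun t => x.w (Deg_dec x.v t))

theorem Deg_cde_inj {τ : Vx l → ZMod 2} {x y : At l} (hx : IsAt τ x) (hy : IsAt τ y)
    (hv : x.v = y.v) (hc : Deg_cde x = Deg_cde y) : x = y := by
  have h1 : ∀ t, x.a (Deg_dec x.v t) = y.a (Deg_dec y.v t) := fun t =>
    congrFun (congrArg Prod.fst hc) t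
  have h2 : ∀ t, x.w (Deg_dec x.v t) = y.w (Deg_dec y.v t) := fun t =>
    congrFun (congrArg Prod.snd hc) t
  refine At.ext hv ?_ ?_
  · funext C
    by_cases hC : sv C x.v
    · obtain ⟨t, ht⟩ := Deg_dec_surj (fun j => Deg_sv hC j)
      have := h1 t
      rw [← hv, ht] at this
      exact this
    · rw [hx.1 C hC, hy.1 C (hv ▸ hC)]
  · funext e
    by_cases he : ie e x.v
    · obtain ⟨t, ht⟩ := Deg_dec_surj (fun j => Deg_ie he j)
      have := h2 t
      rw [← hv, ht] at this
      exact this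
    · rw [hx.2.1 e he, hy.2.1 e (hv ▸ he)]

/-- near vertices -/
def Deg_near (v u : Vx l) : Prop := ∀ j, (u j).val ≤ (v j).val + 1 ∧ (v j).val ≤ (u j).val + 1

/-- the offset of a near vertex -/
def Deg_off (v u : Vx l) : Fin 3 → Fin 3 := fun j =>
  ⟨((u j).val + 1 - (v j).val) % 3, Nat.mod_lt _ (by norm_num)⟩

theorem Deg_off_inj {v u u' : Vx l} (h : Deg_near v u) (h' : Deg_near v u')
    (ho : Deg_off v u = Deg_off v u') : u = u' := by
  funext j
  apply Fin.ext
  have := congrArg Fin.val (congrFun ho j)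
  simp only [Deg_off] at this
  have h1 := h j
  have h2 := h' j
  omega

theorem Deg_near_refl (v : Vx l) : Deg_near v v := fun j => ⟨by omega, by omega⟩

theorem Deg_near_symm {v u : Vx l} (h : Deg_near v u) : Deg_near u v :=
  fun j => ⟨(h j).2, (h j).1⟩

theorem Deg_near_sv {C : Sq l} {v u : Vx l} (h : sv C v) (h' : sv C u) : Deg_near v u := by
  intro j
  have h1 := Deg_sv h j
  have h2 := Deg_sv h' j
  omega

theorem Deg_near_ie {e : Ed l} {v u : Vx l} (h : ie e v) (h' : ie e u) : Deg_near v u := by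
  intro j
  have h1 := Deg_ie h j
  have h2 := Deg_ie h' j
  omega

theorem Deg_near_bad {x y : At l} (h : Bad x y) : Deg_near x.v y.v := by
  rcases h.2 with h | ⟨C, h1, h2, _⟩
  · rw [h]; exact Deg_near_refl _
  · exact Deg_near_sv h1 h2

theorem Deg_near_dif {x y : At l} (h : Dif x y) : Deg_near x.v y.v := by
  obtain ⟨e, h1, h2, _⟩ := h.2.2
  exact Deg_near_ie h1 h2

/-- all places of a vertex are near `v` -/
def Deg_Near (v : Vx l) : Al l → Prop
  | .inl x => Deg_near v x.v
  | .inr p => Deg_near v p.1.v ∧ Deg_near v p.2.v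

/-- the code of a vertex relative to `v` -/
noncomputable def Deg_loc (v : Vx l) : Al l → Deg_K
  | .inl x => .inl (Deg_off v x.v, Deg_cde x)
  | .inr p => .inr ((Deg_off v p.1.v, Deg_cde p.1), (Deg_off v p.2.v, Deg_cde p.2))

theorem Deg_loc_inj {τ : Vx l → ZMod 2} {v : Vx l} {x y : Al l} (hx : InU τ x) (hy : InU τ y)
    (nx : Deg_Near v x) (ny : Deg_Near v y) (h : Deg_loc v x = Deg_loc v y) : x = y := by
  rcases x with x | p <;> rcases y with y | q
  · simp only [Deg_loc, Sum.inl.injEq, Prod.mk.injEq] at h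
    exact congrArg Sum.inl (Deg_cde_inj hx hy (Deg_off_inj nx ny h.1) h.2)
  · simp [Deg_loc] at h
  · simp [Deg_loc] at h
  · simp only [Deg_loc, Sum.inr.injEq, Prod.mk.injEq] at h
    obtain ⟨⟨h1, h2⟩, h3, h4⟩ := h
    exact congrArg Sum.inr (Prod.ext (Deg_cde_inj hx.1 hy.1 (Deg_off_inj nx.1 ny.1 h1) h2)
      (Deg_cde_inj hx.2.1 hy.2.1 (Deg_off_inj nx.2 ny.2 h3) h4))

/-- the first place of a vertex -/
def Deg_fv : Al l → Vx l
  | .inl x => x.v
  | .inr p => p.1.v

theorem Deg_Near_self {τ : Vx l → ZMod 2} {x : Al l} (hx : InU τ x) :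
    Deg_Near (Deg_fv x) x := by
  rcases x with x | p
  · exact Deg_near_refl _
  · exact ⟨Deg_near_refl _, Deg_near_dif hx.2.2⟩

theorem Deg_Near_adj {τ : Vx l → ZMod 2} {x y : Al l} (hx : InU τ x) (hy : InU τ y)
    (h : adj x y) : Deg_Near (Deg_fv x) y := by
  rcases x with x | p <;> rcases y with y | q
  · exact Deg_near_bad h
  · rcases h with h | h
    · subst h
      exact ⟨Deg_near_refl _, Deg_near_dif hy.2.2⟩
    · subst h
      exact ⟨Deg_near_symm (Deg_near_dif hy.2.2), Deg_near_refl _⟩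
  · rcases h with h | h
    · subst h
      exact Deg_near_refl _
    · subst h
      exact Deg_near_dif hx.2.2
  · exact absurd h (by simp [adj])

theorem XG_bound : ∃ D : ℕ, ∀ (l : ℕ) (τ : Vx l → ZMod 2),
    (Finset.univ.filter (InU τ)).card ≤ D * l ^ 3 ∧
    ∀ x : {x : Al l // InU τ x}, (Finset.univ.filter (fun y => (XG l τ).Adj x y)).card ≤ D := by
  refine ⟨Fintype.card Deg_K, fun l τ => ⟨?_, fun x => ?_⟩⟩
  · have h1 : (Finset.univ.filter (InU τ)).card ≤
        (Finset.univ : Finset (Deg_K × Vx l)).card := by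
      refine Finset.card_le_card_of_injOn (fun x => (Deg_loc (Deg_fv x) x, Deg_fv x))
        (fun _ _ => Finset.mem_coe.2 (Finset.mem_univ _)) ?_
      intro x hx y hy hxy
      have hx' : InU τ x := by simpa using hx
      have hy' : InU τ y := by simpa using hy
      simp only [Prod.mk.injEq] at hxy
      have h3 := hxy.1
      have ny := Deg_Near_self hy'
      rw [← hxy.2] at h3 ny
      exact Deg_loc_inj hx' hy' (Deg_Near_self hx') ny h3
    refine h1.trans (le_of_eq ?_)
    rw [Finset.card_univ, Fintype.card_prod, Fintype.card_fun]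
    simp
  · have h1 : (Finset.univ.filter (fun y => (XG l τ).Adj x y)).card ≤
        (Finset.univ : Finset Deg_K).card := by
      refine Finset.card_le_card_of_injOn (fun y => Deg_loc (Deg_fv x.1) y.1)
        (fun _ _ => Finset.mem_coe.2 (Finset.mem_univ _)) ?_
      intro y hy z hz hyz
      have hy' : adj x.1 y.1 := (Finset.mem_filter.1 (Finset.mem_coe.1 hy)).2
      have hz' : adj x.1 z.1 := (Finset.mem_filter.1 (Finset.mem_coe.1 hz)).2
      exact Subtype.ext (Deg_loc_inj y.2 z.2 (Deg_Near_adj x.2 y.2 hy')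
        (Deg_Near_adj x.2 z.2 hz') hyz)
    exact h1

end Pool.Agent.CPT
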