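import Pool.Agent.CPT.TrC

/-!
# Two structures that are locally isomorphic: the values of terms are transported
-/

set_option autoImplicit false

namespace Pool.Agent.CPT

open Finset Classical

/-- two structures with atoms `U0`, `U1` inside `A`, with relations `S` invariant under `K` -/
structure Twin (Γ : Voc) (A I K : Type) [Fintype A] [Fintype I] [Fintype K] [Group K]
    [MulAction K A] where
  F : Fr A I K
  U0 : Finset A
  U1 : Finset A
  S : Str Γ A
  inv : ∀ (k : K) (r : Γ.R) (x : Fin (Γ.ar r) → A), S r (fun i => k • x i) ↔ S r x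
  inv0 : ∀ g ∈ F.G, ∀ a, g • a ∈ U0 ↔ a ∈ U0
  inv1 : ∀ g ∈ F.G, ∀ a, g • a ∈ U1 ↔ a ∈ U1
  loc : ∀ (X : Finset I), ∀ k ∈ F.Th X, ∀ a, F.pl a ⊆ X → (k • a ∈ U1 ↔ a ∈ U0)

/-- a bound for the orbits of all values that occur in the evaluation of a term with at most `m`
variables, if the orbits of the values of the variables have size at most `q` -/
def Tm.bd {Γ : Voc} (b : ℕ) : Tm Γ → ℕ → ℕ → ℕ
  | .var _, q, m => (q + 1) ^ (m + 1) + b
  | .empty, q, m => (q + 1) ^ (m + 1) + b
  | .atoms, q, m => (q + 1) ^ (m + 1) + b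
  | .pair s t, q, m => s.bd b q m + t.bd b q m + (q + 1) ^ (m + 1) + b
  | .union t, q, m => t.bd b q m + (q + 1) ^ (m + 1) + b
  | .uniq t, q, m => t.bd b q m + (q + 1) ^ (m + 1) + b
  | .card t, q, m => t.bd b q m + (q + 1) ^ (m + 1) + b
  | .eq s t, q, m => s.bd b q m + t.bd b q m + (q + 1) ^ (m + 1) + b
  | .mem s t, q, m => s.bd b q m + t.bd b q m + (q + 1) ^ (m + 1) + b
  | .rel r ts, q, m => (∑ i : Fin (Γ.ar r), (ts i).bd b q m) + (q + 1) ^ (m + 1) + b
  | .neg t, q, m => t.bd b q m + (q + 1) ^ (m + 1) + b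
  | .and s t, q, m => s.bd b q m + t.bd b q m + (q + 1) ^ (m + 1) + b
  | .comp s t c, q, m => t.bd b q m + s.bd b (t.bd b q m + q) (m + 1) +
      c.bd b (t.bd b q m + q) (m + 1) + (q + 1) ^ (m + 1) + b
  | .iter t, q, m => t.bd b (b * (q + 1) ^ (m + 1) + q) (m + 1) + b * (q + 1) ^ (m + 1) +
      (q + 1) ^ (m + 1) + b

/-- number of supports needed in the evaluation -/
def Tm.dep {Γ : Voc} : Tm Γ → ℕ
  | .var _ => 9
  | .empty => 9
  | .atoms => 9
  | .pair s t => s.dep + t.dep + 9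
  | .union t => t.dep + 9
  | .uniq t => t.dep + 9
  | .card t => t.dep + 9
  | .eq s t => s.dep + t.dep + 9
  | .mem s t => s.dep + t.dep + 9
  | .rel r ts => (∑ i : Fin (Γ.ar r), (ts i).dep) + 9
  | .neg t => t.dep + 9
  | .and s t => s.dep + t.dep + 9
  | .comp s t c => s.dep + t.dep + c.dep + 9
  | .iter t => t.dep + 9

namespace EvA

theorem pw_add {N x y a c : ℕ} (hN : 2 ≤ N) (hx : x ≤ N ^ a) (hy : y ≤ N ^ c) :
    x + y ≤ N ^ (a + c + 1) := by
  have h1 : N ^ a ≤ N ^ (a + c) := Nat.pow_le_pow_right (by omega) (by omega)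
  have h2 : N ^ c ≤ N ^ (a + c) := Nat.pow_le_pow_right (by omega) (by omega)
  calc x + y ≤ N ^ (a + c) + N ^ (a + c) := by omega
    _ = N ^ (a + c) * 2 := by ring
    _ ≤ N ^ (a + c) * N := Nat.mul_le_mul_left _ hN
    _ = N ^ (a + c + 1) := (pow_succ _ _).symm

theorem pw_mul {N x y a c : ℕ} (hx : x ≤ N ^ a) (hy : y ≤ N ^ c) :
    x * y ≤ N ^ (a + c) := by
  rw [pow_add]; exact Nat.mul_le_mul hx hy

/-- polynomially bounded functions of two variables -/
def PB (f : ℕ → ℕ → ℕ) : Prop := ∃ e : ℕ, ∀ b q : ℕ, f b q ≤ (b + q + 2) ^ e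

theorem PB.add {f g : ℕ → ℕ → ℕ} (hf : PB f) (hg : PB g) : PB (fun b q => f b q + g b q) := by
  obtain ⟨a, ha⟩ := hf
  obtain ⟨c, hc⟩ := hg
  exact ⟨a + c + 1, fun b q => pw_add (by omega) (ha b q) (hc b q)⟩

theorem PB.mul {f g : ℕ → ℕ → ℕ} (hf : PB f) (hg : PB g) : PB (fun b q => f b q * g b q) := by
  obtain ⟨a, ha⟩ := hf
  obtain ⟨c, hc⟩ := hg
  exact ⟨a + c, fun b q => pw_mul (ha b q) (hc b q)⟩

theorem PB.fst : PB (fun b _ => b) := ⟨1, fun b q => by
  show b ≤ _
  rw [pow_one]; omega⟩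

theorem PB.snd : PB (fun _ q => q) := ⟨1, fun b q => by
  show q ≤ _
  rw [pow_one]; omega⟩

theorem PB.pw (n : ℕ) : PB (fun _ q => (q + 1) ^ n) :=
  ⟨n, fun b q => Nat.pow_le_pow_left (by omega) _⟩

theorem PB.const (c : ℕ) : PB (fun _ _ => c) :=
  ⟨c, fun b q => le_trans (Nat.lt_two_pow_self (n := c)).le (Nat.pow_le_pow_left (by omega) _)⟩

theorem PB.comp {f : ℕ → ℕ → ℕ} {g : ℕ → ℕ → ℕ} (hf : PB f) (hg : PB g) :
    PB (fun b q => f b (g b q)) := by
  obtain ⟨a, ha⟩ := hf
  obtain ⟨c, hc⟩ := (PB.fst.add hg).add (PB.const 2)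
  refine ⟨c * a, fun b q => ?_⟩
  calc f b (g b q) ≤ (b + g b q + 2) ^ a := ha _ _
    _ ≤ ((b + q + 2) ^ c) ^ a := Nat.pow_le_pow_left (hc b q) _
    _ = (b + q + 2) ^ (c * a) := (pow_mul _ _ _).symm

theorem PB.sum {ι : Type} (s : Finset ι) {f : ι → ℕ → ℕ → ℕ} (hf : ∀ i ∈ s, PB (f i)) :
    PB (fun b q => ∑ i ∈ s, f i b q) := by
  induction s using Finset.induction_on with
  | empty => simpa using PB.const 0
  | insert i s hi ih =>
    have := (hf i (mem_insert_self _ _)).add (ih fun j hj => hf j (mem_insert_of_mem hj))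
    simpa [sum_insert hi] using this

section

open HF

variable {A K : Type} [Group K] [MulAction K A]

theorem smul_eq_ord {k : K} {x : HF A} {n : ℕ} : k • x = ord n ↔ x = ord n := by
  constructor
  · intro h
    have := smul_left_cancel k (h.trans (smul_ord k n).symm)
    exact this
  · rintro rfl; exact smul_ord k n

theorem smul_tv (k : K) (p : Prop) : k • (tv p : HF A) = tv p := by
  unfold tv; split_ifs <;> exact smul_ord _ _

theorem smul_emp (k : K) : k • (emp : HF A) = emp := smul_ord k 0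

theorem smul_pr (k : K) (x y : HF A) : k • pr x y = pr (k • x) (k • y) := by
  simp [pr, Finset.image_insert]

theorem smul_un (k : K) (x : HF A) : k • un x = un (k • x) := by
  unfold un
  rw [smul_mk, elems_smul, Finset.image_biUnion, Finset.biUnion_image]
  congr 1
  apply Finset.biUnion_congr rfl
  intro y _
  rw [elems_smul]

theorem uq_eq {x y : HF A} (h : elems x = {y}) : uq x = y := by
  unfold uq
  have h' : ∃ y, elems x = {y} := ⟨y, h⟩
  rw [dif_pos h']
  exact Finset.singleton_injective (h'.choose_spec.symm.trans h)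

theorem uq_neg {x : HF A} (h : ¬ ∃ y, elems x = {y}) : uq x = emp := by
  unfold uq
  rw [dif_neg h]

theorem smul_uq (k : K) (x : HF A) : k • uq x = uq (k • x) := by
  by_cases h : ∃ y, elems x = {y}
  · obtain ⟨y, hy⟩ := h
    rw [uq_eq hy, uq_eq (y := k • y)]
    rw [elems_smul, hy, image_singleton]
  · rw [uq_neg h, uq_neg, smul_emp]
    rintro ⟨y, hy⟩
    apply h
    refine ⟨k⁻¹ • y, ?_⟩
    have := elems_smul k⁻¹ (k • x)
    rw [inv_smul_smul, hy, image_singleton] at this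
    exact this

theorem card_elems_smul (k : K) (x : HF A) : (elems (k • x)).card = (elems x).card := by
  rw [elems_smul, card_image_of_injective _ (MulAction.injective k)]

theorem card_tc_smul (k : K) (x : HF A) : (tc (k • x)).card = (tc x).card := by
  rw [tc_smul, card_image_of_injective _ (MulAction.injective k)]

theorem smul_iterate {k : K} {f g : HF A → HF A} (h : ∀ x, k • f x = g (k • x)) (n : ℕ) :
    k • (f^[n] emp) = g^[n] emp := by
  induction n with
  | zero => exact smul_emp k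
  | succ n ih => rw [Function.iterate_succ_apply', Function.iterate_succ_apply', h, ih]

theorem smul_itr (ns b : ℕ) (k : K) {f g : HF A → HF A} (h : ∀ x, k • f x = g (k • x)) :
    k • itr ns b f = itr ns b g := by
  have hP : ∀ i : ℕ, (i ≤ ns ∧ f (f^[i] emp) = f^[i] emp ∧ ∀ j ≤ i, (tc (f^[j] emp)).card ≤ b) ↔
      (i ≤ ns ∧ g (g^[i] emp) = g^[i] emp ∧ ∀ j ≤ i, (tc (g^[j] emp)).card ≤ b) := by
    intro i
    have h1 : f (f^[i] emp) = f^[i] emp ↔ g (g^[i] emp) = g^[i] emp := by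
      rw [← smul_iterate h i, ← h]
      exact ⟨fun e => by rw [e], fun e => smul_left_cancel k e⟩
    have h2 : ∀ j, (tc (f^[j] emp)).card = (tc (g^[j] emp)).card := fun j => by
      rw [← smul_iterate h j, card_tc_smul]
    simp only [h1, h2]
  rw [itr_def, itr_def]
  by_cases hf : ∃ i : ℕ, i ≤ ns ∧ f (f^[i] emp) = f^[i] emp ∧ ∀ j ≤ i, (tc (f^[j] emp)).card ≤ b
  · have hg : ∃ i : ℕ, i ≤ ns ∧ g (g^[i] emp) = g^[i] emp ∧ ∀ j ≤ i, (tc (g^[j] emp)).card ≤ b := by
      obtain ⟨i, hi⟩ := hf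
      exact ⟨i, (hP i).1 hi⟩
    rw [dif_pos hf, dif_pos hg, smul_iterate h]
    congr 1
    exact Nat.find_congr' (fun {n} => hP n)
  · have hg : ¬ ∃ i : ℕ, i ≤ ns ∧ g (g^[i] emp) = g^[i] emp ∧
        ∀ j ≤ i, (tc (g^[j] emp)).card ≤ b := by
      rintro ⟨i, hi⟩
      exact hf ⟨i, (hP i).2 hi⟩
    rw [dif_neg hf, dif_neg hg, smul_emp]

end

end EvA

theorem EvA.bd_poly' {Γ : Voc} (t : Tm Γ) : ∀ m : ℕ, EvA.PB (fun b q => t.bd b q m) := by
  induction t with
  | var i => exact fun m => (EvA.PB.pw _).add EvA.PB.fst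
  | empty => exact fun m => (EvA.PB.pw _).add EvA.PB.fst
  | atoms => exact fun m => (EvA.PB.pw _).add EvA.PB.fst
  | pair s t hs ht => exact fun m => (((hs m).add (ht m)).add (EvA.PB.pw _)).add EvA.PB.fst
  | union t ht => exact fun m => ((ht m).add (EvA.PB.pw _)).add EvA.PB.fst
  | uniq t ht => exact fun m => ((ht m).add (EvA.PB.pw _)).add EvA.PB.fst
  | card t ht => exact fun m => ((ht m).add (EvA.PB.pw _)).add EvA.PB.fst
  | eq s t hs ht => exact fun m => (((hs m).add (ht m)).add (EvA.PB.pw _)).add EvA.PB.fst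
  | mem s t hs ht => exact fun m => (((hs m).add (ht m)).add (EvA.PB.pw _)).add EvA.PB.fst
  | rel r ts ih => exact fun m => ((EvA.PB.sum _ (fun i _ => ih i m)).add (EvA.PB.pw _)).add EvA.PB.fst
  | neg t ht => exact fun m => ((ht m).add (EvA.PB.pw _)).add EvA.PB.fst
  | and s t hs ht => exact fun m => (((hs m).add (ht m)).add (EvA.PB.pw _)).add EvA.PB.fst
  | comp s t c hs ht hc =>
    exact fun m => ((((ht m).add ((hs (m + 1)).comp ((ht m).add EvA.PB.snd))).add
      ((hc (m + 1)).comp ((ht m).add EvA.PB.snd))).add (EvA.PB.pw _)).add EvA.PB.fst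
  | iter t ht =>
    exact fun m => ((((ht (m + 1)).comp ((EvA.PB.fst.mul (EvA.PB.pw _)).add EvA.PB.snd)).add
      (EvA.PB.fst.mul (EvA.PB.pw _))).add (EvA.PB.pw _)).add EvA.PB.fst

/-- the bound is polynomial -/
theorem Tm.bd_poly {Γ : Voc} (t : Tm Γ) (m : ℕ) :
    ∃ e : ℕ, ∀ b q : ℕ, t.bd b q m ≤ (b + q + 2) ^ e := EvA.bd_poly' t m

theorem EvA.eval_smul' {Γ : Voc} {A K : Type} [Group K] [MulAction K A] (U : Finset A) (S : Str Γ A)
    (ns b : ℕ) (k : K) (hU : ∀ a, k • a ∈ U ↔ a ∈ U)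
    (hS : ∀ (r : Γ.R) (x : Fin (Γ.ar r) → A), S r (fun i => k • x i) ↔ S r x)
    (t : Tm Γ) : ∀ (ρ : List (HF A)),
    k • eval U S ns b t ρ = eval U S ns b t (ρ.map fun x => k • x) := by
  induction t with
  | var i =>
    intro ρ
    show k • ρ.getD i HF.emp = (ρ.map fun x => k • x).getD i HF.emp
    rw [List.getD_eq_getElem?_getD, List.getD_eq_getElem?_getD, List.getElem?_map]
    cases ρ[i]? with
    | none => simp [EvA.smul_emp]
    | some x => simp
  | empty => intro ρ; exact EvA.smul_emp k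
  | atoms =>
    intro ρ
    show k • HF.mk (U.image HF.atom) = HF.mk (U.image HF.atom)
    rw [HF.smul_mk]
    congr 1
    ext y
    simp only [mem_image, exists_exists_and_eq_and, HF.smul_atom]
    constructor
    · rintro ⟨a, ha, rfl⟩
      exact ⟨k • a, (hU a).2 ha, rfl⟩
    · rintro ⟨a, ha, rfl⟩
      refine ⟨k⁻¹ • a, ?_, by rw [smul_inv_smul]⟩
      rw [← hU, smul_inv_smul]; exact ha
  | pair s t hs ht =>
    intro ρ
    show k • HF.pr _ _ = HF.pr _ _
    rw [EvA.smul_pr, hs, ht]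
  | union t ht =>
    intro ρ
    show k • HF.un _ = HF.un _
    rw [EvA.smul_un, ht]
  | uniq t ht =>
    intro ρ
    show k • HF.uq _ = HF.uq _
    rw [EvA.smul_uq, ht]
  | card t ht =>
    intro ρ
    show k • HF.ord _ = HF.ord _
    rw [HF.smul_ord, ← ht, EvA.card_elems_smul]
  | eq s t hs ht =>
    intro ρ
    show k • HF.tv _ = HF.tv _
    rw [EvA.smul_tv, ← hs, ← ht]
    congr 1
    exact propext ⟨fun e => by rw [e], fun e => smul_left_cancel k e⟩
  | mem s t hs ht =>
    intro ρ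
    show k • HF.tv _ = HF.tv _
    rw [EvA.smul_tv, ← hs, ← ht, HF.smul_mem_elems]
  | rel r ts ih =>
    intro ρ
    show k • HF.tv _ = HF.tv _
    rw [EvA.smul_tv]
    congr 1
    apply propext
    constructor
    · rintro ⟨x, hx, hr⟩
      refine ⟨fun i => k • x i, fun i => ?_, (hS r x).2 hr⟩
      rw [← ih, hx, HF.smul_atom]
    · rintro ⟨x, hx, hr⟩
      refine ⟨fun i => k⁻¹ • x i, fun i => ?_, ?_⟩
      · have h1 := hx i
        rw [← ih] at h1
        rw [← HF.smul_atom, ← h1, inv_smul_smul]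
      · rw [← hS]
        simpa only [smul_inv_smul] using hr
  | neg t ht =>
    intro ρ
    show k • HF.tv _ = HF.tv _
    rw [EvA.smul_tv, ← ht, EvA.smul_eq_ord]
  | and s t hs ht =>
    intro ρ
    show k • HF.tv _ = HF.tv _
    rw [EvA.smul_tv, ← hs, ← ht]
    simp only [ne_eq, EvA.smul_eq_ord]
  | comp s t c hs ht hc =>
    intro ρ
    show k • HF.mk _ = HF.mk _
    rw [HF.smul_mk, ← ht, HF.elems_smul]
    congr 1
    rw [Finset.image_image, Finset.filter_image, Finset.image_image]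
    have hfil : (HF.elems (eval U S ns b t ρ)).filter (fun x => eval U S ns b c (x :: ρ) ≠ HF.ord 0) =
        (HF.elems (eval U S ns b t ρ)).filter
          (fun x => eval U S ns b c ((k • x) :: ρ.map fun x => k • x) ≠ HF.ord 0) := by
      apply Finset.filter_congr
      intro x _
      have := hc (x :: ρ)
      rw [List.map_cons] at this
      rw [← this, ne_eq, ne_eq, EvA.smul_eq_ord]
    rw [hfil]
    apply Finset.image_congr
    intro x _
    exact hs (x :: ρ)
  | iter t ht =>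
    intro ρ
    show k • HF.itr ns b _ = HF.itr ns b _
    exact EvA.smul_itr ns b k (fun x => ht (x :: ρ))

/-- the evaluation commutes with automorphisms -/
theorem eval_smul {Γ : Voc} {A K : Type} [Group K] [MulAction K A] (U : Finset A) (S : Str Γ A)
    (ns b : ℕ) (k : K) (hU : ∀ a, k • a ∈ U ↔ a ∈ U)
    (hS : ∀ (r : Γ.R) (x : Fin (Γ.ar r) → A), S r (fun i => k • x i) ↔ S r x)
    (t : Tm Γ) (ρ : List (HF A)) :
    k • eval U S ns b t ρ = eval U S ns b t (ρ.map fun x => k • x) :=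
  EvA.eval_smul' U S ns b k hU hS t ρ

end Pool.Agent.CPT
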