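import Pool.Agent.CPT.Gd

/-!
# The complement of a cube of coordinates is connected
-/

set_option autoImplicit false

namespace Pool.Agent.CPT

open Finset Classical

variable {l : ℕ}

/-- `v` and `w` are joined by a chain outside `X^3` -/
private def Rl (X : Finset (Fin l)) (v w : Vx l) : Prop :=
    ∃ z : Ed l → ZMod 2, (∀ e, z e ≠ 0 → ∀ u, ie e u → ¬ co u ⊆ X) ∧
      ∀ u, bdry z u = (if u = v then 1 else 0) + (if u = w then 1 else 0)

private theorem Rl.refl (X : Finset (Fin l)) (v : Vx l) : Rl X v v := by
  refine ⟨0, fun e h => absurd rfl h, fun u => ?_⟩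
  rw [CharTwo.add_self_eq_zero, bdry]
  exact Finset.sum_eq_zero fun _ _ => rfl

private theorem Rl.symm {X : Finset (Fin l)} {v w : Vx l} (h : Rl X v w) : Rl X w v := by
  obtain ⟨z, h1, h2⟩ := h
  exact ⟨z, h1, fun u => by rw [h2 u, add_comm]⟩

private theorem Rl.trans {X : Finset (Fin l)} {v w u : Vx l} (h : Rl X v w) (h' : Rl X w u) : Rl X v u := by
  obtain ⟨z, h1, h2⟩ := h
  obtain ⟨z', h1', h2'⟩ := h'
  refine ⟨z + z', fun e he => ?_, fun t => ?_⟩
  · by_cases h3 : z e = 0
    · by_cases h4 : z' e = 0
      · exact absurd (by rw [Pi.add_apply, h3, h4, add_zero]) he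
      · exact h1' e h4
    · exact h1 e h3
  · rw [bdry_add, h2 t, h2' t]
    have := CharTwo.add_self_eq_zero (if t = w then (1 : ZMod 2) else 0)
    linear_combination this

private theorem not_sub {X : Finset (Fin l)} {v : Vx l} {j : Fin 3} (h : v j ∉ X) : ¬ co v ⊆ X :=
  fun h1 => h (h1 (Finset.mem_image_of_mem v (Finset.mem_univ j)))

/-- along a line -/
private theorem Rl.line {X : Finset (Fin l)} {v : Vx l} {i j : Fin 3} (hij : j ≠ i) (h : v j ∉ X) (n : ℕ) (hn : n < l) :
    Rl X (Function.update v i ⟨0, by omega⟩) (Function.update v i ⟨n, hn⟩) := by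
  induction n with
  | zero => exact Rl.refl X _
  | succ n ih =>
    refine (ih (by omega)).trans ?_
    set u : Vx l := Function.update v i ⟨n, by omega⟩ with hu
    have hui : u i = ⟨n, by omega⟩ := by rw [hu, Function.update_self]
    have hl : ((((i, u) : Ed l).2 ((i, u) : Ed l).1).val) + 1 < l := by
      change (u i).val + 1 < l
      rw [hui]
      exact hn
    have hup : up (i, u) hl = Function.update v i ⟨n + 1, hn⟩ := by
      funext k
      by_cases hk : k = i
      · rw [up, hk, Function.update_self, Function.update_self]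
        apply Fin.ext
        change (u i).val + 1 = n + 1
        rw [hui]
      · rw [up, Function.update_of_ne hk, Function.update_of_ne hk]
        change u k = v k
        rw [hu, Function.update_of_ne hk]
    refine ⟨Pi.single (i, u) 1, fun e he t ht => ?_, fun t => ?_⟩
    · have h1 : e = (i, u) := by
        by_contra h2
        exact he (Pi.single_eq_of_ne h2 _)
      rw [h1] at ht
      refine not_sub (j := j) ?_
      rw [ht.2.1 j hij]
      change u j ∉ X
      rw [hu, Function.update_of_ne hij]
      exact h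
    · rw [bdry_single _ hl, hup]

private theorem Rl.line' {X : Finset (Fin l)} {v : Vx l} {i j : Fin 3} (hij : j ≠ i) (h : v j ∉ X) (a : Fin l) :
    Rl X v (Function.update v i a) := by
  have h1 := Rl.line hij h a.1 a.2
  have h2 := Rl.line hij h (v i).1 (v i).2
  have h3 : Function.update v i ⟨(v i).1, (v i).2⟩ = v := Function.update_eq_self i v
  rw [h3] at h2
  exact h2.symm.trans h1

/-- in a plane -/
private theorem Rl.plane {X : Finset (Fin l)} {v w : Vx l} {j : Fin 3} (h : v j ∉ X) (hw : w j = v j) : Rl X v w := by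
  obtain ⟨a, b, ha, hb, hab⟩ : ∃ a b : Fin 3, j ≠ a ∧ j ≠ b ∧ ∀ k, k ≠ a → k ≠ b → k = j := by
    revert j
    intro j _ _
    fin_cases j
    · exact ⟨1, 2, by decide, by decide, by decide⟩
    · exact ⟨0, 2, by decide, by decide, by decide⟩
    · exact ⟨0, 1, by decide, by decide, by decide⟩
  have h1 := Rl.line' ha h (w a)
  have h2 : Function.update v a (w a) j ∉ X := by rwa [Function.update_of_ne ha]
  have h3 := Rl.line' hb h2 (w b)
  have h4 : Function.update (Function.update v a (w a)) b (w b) = w := by
    funext k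
    by_cases hkb : k = b
    · rw [hkb, Function.update_self]
    · rw [Function.update_of_ne hkb]
      by_cases hka : k = a
      · rw [hka, Function.update_self]
      · rw [Function.update_of_ne hka, hab k hka hkb, hw]
  rw [h4] at h3
  exact h1.trans h3

private theorem Rl.two {X : Finset (Fin l)} {v w : Vx l} {i j : Fin 3} (hij : i ≠ j) (hv : v i ∉ X) (hw : w j ∉ X) : Rl X v w := by
  have h1 : Rl X v (Function.update v j (w j)) := Rl.plane hv (Function.update_of_ne hij _ _)
  have h2 : Rl X (Function.update v j (w j)) w := by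
    refine Rl.symm (Rl.plane hw ?_)
    rw [Function.update_self]
  exact h1.trans h2

/-- the complement of `X^3` is connected -/
theorem conn {X : Finset (Fin l)} {v w : Vx l} (hv : ¬ co v ⊆ X) (hw : ¬ co w ⊆ X) :
    ∃ z : Ed l → ZMod 2, (∀ e, z e ≠ 0 → ∀ u, ie e u → ¬ co u ⊆ X) ∧
      ∀ u, bdry z u = (if u = v then 1 else 0) + (if u = w then 1 else 0) := by
  have key : ∀ u : Vx l, ¬ co u ⊆ X → ∃ i, u i ∉ X := by
    intro u hu
    by_contra h
    push Not at h
    refine hu fun x hx => ?_
    rw [co, Finset.mem_image] at hx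
    obtain ⟨i, -, rfl⟩ := hx
    exact h i
  obtain ⟨i, hi⟩ := key v hv
  obtain ⟨j, hj⟩ := key w hw
  change Rl X v w
  by_cases hij : i = j
  · subst hij
    obtain ⟨k, hk⟩ : ∃ k : Fin 3, k ≠ i := by
      fin_cases i
      · exact ⟨1, by decide⟩
      · exact ⟨0, by decide⟩
      · exact ⟨0, by decide⟩
    have h1 : Rl X v (Function.update v k (v i)) := Rl.plane hi (Function.update_of_ne hk.symm _ _)
    have h2 : Function.update v k (v i) k ∉ X := by rwa [Function.update_self]
    exact h1.trans (Rl.two hk h2 hj)
  · exact Rl.two hij hi hj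

end Pool.Agent.CPT
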