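import Pool.Agent.CPT.Om
import Pool.Agent.CPT.GdC
import Pool.Agent.CPT.Ev

/-!
# Atoms, the group `KK`, the graphs

An atom at the vertex `v` consists of an element `a C` of `Om` for every square `C` at `v` and a
bit `w e` for every edge `e` at `v`; the parity of the bits is prescribed. (The components of `a`,
`w` which do not belong to `v` are trivial.) Two atoms are in conflict (`Bad`) if they are at the
same vertex or disagree on a common square; they differ (`Dif`) if they are not in conflict and
their bits at the edge joining their vertices are different. The vertices of the graph are the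
atoms and the pairs of atoms which differ.
-/

set_option autoImplicit false

namespace Pool.Agent.CPT

open Finset Classical

/-- atoms (with arbitrary components outside the vertex) -/
def At (l : ℕ) : Type := Vx l × (Sq l → Om) × (Ed l → ZMod 2)

/-- the group of the flips of edges and the local groups of the squares -/
def KK (l : ℕ) : Type := Multiplicative (Ed l → ZMod 2) × (Sq l → Gm)

variable {l : ℕ}

noncomputable instance : Fintype (At l) := inferInstanceAs (Fintype (Vx l × (Sq l → Om) × (Ed l → ZMod 2)))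

noncomputable instance : Group (KK l) := inferInstanceAs (Group (Multiplicative (Ed l → ZMod 2) × (Sq l → Gm)))

noncomputable instance : Fintype (KK l) :=
  inferInstanceAs (Fintype (Multiplicative (Ed l → ZMod 2) × (Sq l → Gm)))

/-- the flips of an element -/
def KK.z (k : KK l) : Ed l → ZMod 2 := Multiplicative.toAdd k.1

/-- the local components of an element -/
def KK.g (k : KK l) : Sq l → Gm := k.2

/-- the element with given components -/
def mkK (z : Ed l → ZMod 2) (g : Sq l → Gm) : KK l := (Multiplicative.ofAdd z, g)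

@[simp] theorem mkK_z (z : Ed l → ZMod 2) (g : Sq l → Gm) : (mkK z g).z = z := rfl
@[simp] theorem mkK_g (z : Ed l → ZMod 2) (g : Sq l → Gm) : (mkK z g).g = g := rfl
@[simp] theorem mul_z (k k' : KK l) : (k * k').z = k.z + k'.z := rfl
@[simp] theorem mul_g (k k' : KK l) : (k * k').g = k.g * k'.g := rfl
@[simp] theorem one_z : (1 : KK l).z = 0 := rfl
@[simp] theorem one_g : (1 : KK l).g = 1 := rfl
@[simp] theorem inv_z (k : KK l) : (k⁻¹).z = -k.z := rfl
@[simp] theorem inv_g (k : KK l) : (k⁻¹).g = k.g⁻¹ := rfl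

theorem KK.ext {k k' : KK l} (h : k.z = k'.z) (h' : k.g = k'.g) : k = k' :=
  Prod.ext (Multiplicative.toAdd.injective h) h'

/-- the place of an atom -/
def At.v (x : At l) : Vx l := x.1

/-- the components at the squares -/
def At.a (x : At l) : Sq l → Om := x.2.1

/-- the bits at the edges -/
def At.w (x : At l) : Ed l → ZMod 2 := x.2.2

/-- the atom with given components -/
def mkA (v : Vx l) (a : Sq l → Om) (w : Ed l → ZMod 2) : At l := (v, a, w)

@[simp] theorem mkA_v (v : Vx l) (a : Sq l → Om) (w : Ed l → ZMod 2) : (mkA v a w).v = v := rfl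
@[simp] theorem mkA_a (v : Vx l) (a : Sq l → Om) (w : Ed l → ZMod 2) : (mkA v a w).a = a := rfl
@[simp] theorem mkA_w (v : Vx l) (a : Sq l → Om) (w : Ed l → ZMod 2) : (mkA v a w).w = w := rfl

theorem At.ext {x y : At l} (h : x.v = y.v) (h' : x.a = y.a) (h'' : x.w = y.w) : x = y :=
  Prod.ext h (Prod.ext h' h'')

/-- the action: `Gm` acts on the components at the squares, the bits at the edges are changed by
the flips and by the cocycles of the squares that contain the edge -/
noncomputable def act (k : KK l) (x : At l) : At l :=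
  mkA x.v (fun C => if sv C x.v then k.g C • x.a C else x.a C)
    (fun e => if ie e x.v then x.w e + k.z e + ∑ C ∈ Finset.univ.filter (fun C => se C e),
      cc (k.g C) (x.a C) else x.w e)

/-- the ends of an edge of a square are vertices of the square -/
theorem sv_of_se {C : Sq l} {e : Ed l} {u : Vx l} (h : se C e) (hu : ie e u) : sv C u := h.2 u hu

noncomputable instance : MulAction (KK l) (At l) where
  smul := act
  one_smul x := by
    change act 1 x = x
    refine At.ext rfl ?_ ?_
    · funext C
      change (if sv C x.v then (1 : Gm) • x.a C else x.a C) = x.a C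
      rw [one_smul, ite_self]
    · funext e
      change (if ie e x.v then x.w e + 0 + ∑ C ∈ Finset.univ.filter (fun C => se C e),
        cc (1 : Gm) (x.a C) else x.w e) = x.w e
      rw [Finset.sum_eq_zero (fun C _ => cc_one (x.a C)), add_zero, add_zero, ite_self]
  mul_smul k k' x := by
    change act (k * k') x = act k (act k' x)
    refine At.ext rfl ?_ ?_
    · funext C
      change (if sv C x.v then (k.g C * k'.g C) • x.a C else x.a C) =
        if sv C x.v then k.g C • (if sv C x.v then k'.g C • x.a C else x.a C) else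
          (if sv C x.v then k'.g C • x.a C else x.a C)
      by_cases h : sv C x.v
      · rw [if_pos h, if_pos h, if_pos h, mul_smul]
      · rw [if_neg h, if_neg h, if_neg h]
    · funext e
      change (if ie e x.v then x.w e + (k.z e + k'.z e) +
          ∑ C ∈ Finset.univ.filter (fun C => se C e), cc (k.g C * k'.g C) (x.a C) else x.w e) =
        if ie e x.v then
          (if ie e x.v then x.w e + k'.z e + ∑ C ∈ Finset.univ.filter (fun C => se C e),
            cc (k'.g C) (x.a C) else x.w e) + k.z e +
          ∑ C ∈ Finset.univ.filter (fun C => se C e),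
            cc (k.g C) (if sv C x.v then k'.g C • x.a C else x.a C)
        else (if ie e x.v then x.w e + k'.z e + ∑ C ∈ Finset.univ.filter (fun C => se C e),
            cc (k'.g C) (x.a C) else x.w e)
      by_cases h : ie e x.v
      · rw [if_pos h, if_pos h, if_pos h]
        have h1 : ∑ C ∈ Finset.univ.filter (fun C => se C e), cc (k.g C * k'.g C) (x.a C) =
            ∑ C ∈ Finset.univ.filter (fun C => se C e),
              cc (k.g C) (if sv C x.v then k'.g C • x.a C else x.a C) +
            ∑ C ∈ Finset.univ.filter (fun C => se C e), cc (k'.g C) (x.a C) := by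
          rw [← Finset.sum_add_distrib]
          refine Finset.sum_congr rfl fun C hC => ?_
          have hC' : se C e := (Finset.mem_filter.1 hC).2
          rw [if_pos (sv_of_se hC' h), cc_mul]
        rw [h1]
        abel
      · rw [if_neg h, if_neg h, if_neg h]

@[simp] theorem smul_v (k : KK l) (x : At l) : (k • x).v = x.v := rfl

theorem smul_a (k : KK l) (x : At l) (C : Sq l) :
    (k • x).a C = if sv C x.v then k.g C • x.a C else x.a C := rfl

theorem smul_w (k : KK l) (x : At l) (e : Ed l) :
    (k • x).w e = if ie e x.v then x.w e + k.z e + ∑ C ∈ Finset.univ.filter (fun C => se C e),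
      cc (k.g C) (x.a C) else x.w e := rfl

/-- conflict -/
def Bad (x y : At l) : Prop :=
  x ≠ y ∧ (x.v = y.v ∨ ∃ C, sv C x.v ∧ sv C y.v ∧ x.a C ≠ y.a C)

/-- different bits on a common edge -/
def Dif (x y : At l) : Prop :=
  x.v ≠ y.v ∧ ¬ Bad x y ∧ ∃ e, ie e x.v ∧ ie e y.v ∧ x.w e ≠ y.w e

theorem Bad.symm {x y : At l} (h : Bad x y) : Bad y x := by
  refine ⟨h.1.symm, ?_⟩
  rcases h.2 with h | ⟨C, h1, h2, h3⟩
  · exact Or.inl h.symm
  · exact Or.inr ⟨C, h2, h1, h3.symm⟩

theorem Dif.symm {x y : At l} (h : Dif x y) : Dif y x := by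
  obtain ⟨h1, h2, e, h3, h4, h5⟩ := h
  exact ⟨h1.symm, fun hb => h2 hb.symm, e, h4, h3, h5.symm⟩

theorem bad_smul (k : KK l) (x y : At l) : Bad (k • x) (k • y) ↔ Bad x y := by
  unfold Bad
  rw [smul_v, smul_v]
  refine and_congr ?_ (or_congr Iff.rfl (exists_congr fun C => ?_))
  · exact not_congr (MulAction.injective k).eq_iff
  · constructor
    · rintro ⟨h1, h2, h3⟩
      refine ⟨h1, h2, fun h => h3 ?_⟩
      rw [smul_a, smul_a, if_pos h1, if_pos h2, h]
    · rintro ⟨h1, h2, h3⟩
      refine ⟨h1, h2, fun h => h3 ?_⟩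
      rw [smul_a, smul_a, if_pos h1, if_pos h2] at h
      exact (MulAction.injective (k.g C)).eq_iff.1 h

theorem dif_smul (k : KK l) (x y : At l) : Dif (k • x) (k • y) ↔ Dif x y := by
  unfold Dif
  rw [bad_smul, smul_v, smul_v]
  refine and_congr_right fun hv => and_congr_right fun hb => exists_congr fun e =>
    and_congr_right fun h1 => and_congr_right fun h2 => not_congr ?_
  have hs : ∑ C ∈ Finset.univ.filter (fun C => se C e), cc (k.g C) (x.a C) =
      ∑ C ∈ Finset.univ.filter (fun C => se C e), cc (k.g C) (y.a C) := by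
    refine Finset.sum_congr rfl fun C hC => ?_
    have hC' : se C e := (Finset.mem_filter.1 hC).2
    have h3 : x.a C = y.a C := by
      by_contra h4
      refine hb ⟨fun h => hv (by rw [h]), Or.inr ⟨C, sv_of_se hC' h1, sv_of_se hC' h2, h4⟩⟩
    rw [h3]
  rw [smul_w, smul_w, if_pos h1, if_pos h2, hs, add_left_inj, add_left_inj]

/-- a fixed element of `Om` -/
noncomputable def o0 : Om := Classical.arbitrary Om

/-- the atoms of the graph with the parities `τ` -/
def IsAt (τ : Vx l → ZMod 2) (x : At l) : Prop :=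
  (∀ C, ¬ sv C x.v → x.a C = o0) ∧ (∀ e, ¬ ie e x.v → x.w e = 0) ∧ bdry x.w x.v = τ x.v

/-- all possible vertices of the graphs -/
abbrev Al (l : ℕ) : Type := At l ⊕ (At l × At l)

/-- coordinates -/
noncomputable def pl : Al l → Finset (Fin l)
  | .inl x => co x.v
  | .inr p => co p.1.v ∪ co p.2.v

noncomputable instance : MulAction (KK l) (Al l) where
  smul k := Sum.map (fun x => k • x) (fun p => (k • p.1, k • p.2))
  one_smul x := by
    rcases x with x | ⟨x, y⟩
    · change Sum.inl ((1 : KK l) • x) = _
      rw [one_smul]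
    · change Sum.inr ((1 : KK l) • x, (1 : KK l) • y) = _
      rw [one_smul, one_smul]
  mul_smul k k' x := by
    rcases x with x | ⟨x, y⟩
    · change Sum.inl ((k * k') • x) = Sum.inl (k • k' • x)
      rw [mul_smul]
    · change Sum.inr ((k * k') • x, (k * k') • y) = Sum.inr (k • k' • x, k • k' • y)
      rw [mul_smul, mul_smul]

@[simp] theorem smul_inl (k : KK l) (x : At l) : (k • (Sum.inl x : Al l)) = Sum.inl (k • x) := rfl

@[simp] theorem smul_inr (k : KK l) (p : At l × At l) :
    (k • (Sum.inr p : Al l)) = Sum.inr (k • p.1, k • p.2) := rfl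

/-- the vertices of the graph with the parities `τ` -/
def InU (τ : Vx l → ZMod 2) : Al l → Prop
  | .inl x => IsAt τ x
  | .inr p => IsAt τ p.1 ∧ IsAt τ p.2 ∧ Dif p.1 p.2

/-- adjacency -/
def adj : Al l → Al l → Prop
  | .inl x, .inl y => Bad x y
  | .inl x, .inr p => x = p.1 ∨ x = p.2
  | .inr p, .inl x => x = p.1 ∨ x = p.2
  | .inr _, .inr _ => False

theorem adj_symm {x y : Al l} (h : adj x y) : adj y x := by
  rcases x with x | p <;> rcases y with y | q
  · exact Bad.symm h
  · exact h
  · exact h
  · exact h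

theorem adj_irrefl (x : Al l) : ¬ adj x x := by
  rcases x with x | p
  · exact fun h => h.1 rfl
  · exact fun h => h

theorem adj_smul (k : KK l) (x y : Al l) : adj (k • x) (k • y) ↔ adj x y := by
  rcases x with x | p <;> rcases y with y | q
  · exact bad_smul k x y
  · change (k • x = k • q.1 ∨ k • x = k • q.2) ↔ (x = q.1 ∨ x = q.2)
    rw [(MulAction.injective k).eq_iff, (MulAction.injective k).eq_iff]
  · change (k • y = k • p.1 ∨ k • y = k • p.2) ↔ (y = p.1 ∨ y = p.2)
    rw [(MulAction.injective k).eq_iff, (MulAction.injective k).eq_iff]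
  · exact Iff.rfl

/-- the graph with the parities `τ` -/
def XG (l : ℕ) (τ : Vx l → ZMod 2) : SimpleGraph {x : Al l // InU τ x} where
  Adj x y := adj x.1 y.1
  symm := ⟨fun _ _ h => adj_symm h⟩
  loopless := ⟨fun x h => adj_irrefl x.1 h⟩

/-- the twist: the parity is odd at `v0` and even at all other vertices -/
noncomputable def tw (v0 : Vx l) : Vx l → ZMod 2 := Pi.single v0 1

theorem bdry_zero (v : Vx l) : bdry (0 : Ed l → ZMod 2) v = 0 :=
  Finset.sum_eq_zero fun _ _ => rfl

theorem bdry_neg (z : Ed l → ZMod 2) (v : Vx l) : bdry (-z) v = -bdry z v := by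
  unfold bdry
  rw [← Finset.sum_neg_distrib]
  rfl

theorem neg2 (a : ZMod 2) : -a = a := by
  revert a; decide

/-- automorphisms: the flips form a cycle -/
def GG (l : ℕ) : Subgroup (KK l) where
  carrier := {k | ∀ v, bdry k.z v = 0}
  mul_mem' := by
    intro a b ha hb v
    rw [mul_z, bdry_add, ha v, hb v, add_zero]
  one_mem' := by
    intro v
    exact bdry_zero v
  inv_mem' := by
    intro a ha v
    rw [inv_z, bdry_neg, ha v, neg_zero]

theorem mem_GG {k : KK l} : k ∈ GG l ↔ ∀ v, bdry k.z v = 0 := Iff.rfl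

/-- local isomorphisms from the untwisted to the twisted structure -/
def Tht (v0 : Vx l) (X : Finset (Fin l)) : Set (KK l) :=
  {k | ∃ v1, ¬ co v1 ⊆ X ∧ ∀ v, bdry k.z v = tw v0 v + tw v1 v}

theorem mem_Tht {v0 : Vx l} {X : Finset (Fin l)} {k : KK l} :
    k ∈ Tht v0 X ↔ ∃ v1, ¬ co v1 ⊆ X ∧ ∀ v, bdry k.z v = tw v0 v + tw v1 v := Iff.rfl

/-- the boundary of the bits of an atom changes by the boundary of the flips -/
theorem bdry_smul (k : KK l) (x : At l) :
    bdry (k • x).w x.v = bdry x.w x.v + bdry k.z x.v := by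
  have h0 : bdry (k • x).w x.v = ∑ e ∈ Finset.univ.filter (fun e => ie e x.v),
      (x.w e + k.z e + ∑ C ∈ Finset.univ.filter (fun C => se C e), cc (k.g C) (x.a C)) := by
    refine Finset.sum_congr rfl fun e he => ?_
    rw [smul_w, if_pos (Finset.mem_filter.1 he).2]
  have h1 : ∑ e ∈ Finset.univ.filter (fun e => ie e x.v),
      ∑ C ∈ Finset.univ.filter (fun C => se C e), cc (k.g C) (x.a C) = 0 := by
    have h2 : ∀ e ∈ Finset.univ.filter (fun e : Ed l => ie e x.v),
        ∑ C ∈ Finset.univ.filter (fun C => se C e), cc (k.g C) (x.a C) =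
        ∑ C : Sq l, cc (k.g C) (x.a C) * sqc C e := by
      intro e _
      rw [Finset.sum_filter]
      refine Finset.sum_congr rfl fun C _ => ?_
      unfold sqc
      by_cases h : se C e
      · rw [if_pos h, if_pos h, mul_one]
      · rw [if_neg h, if_neg h, mul_zero]
    rw [Finset.sum_congr rfl h2, Finset.sum_comm]
    refine Finset.sum_eq_zero fun C _ => ?_
    rw [← Finset.mul_sum]
    have h3 := bdry_sqc C x.v
    unfold bdry at h3
    rw [h3, mul_zero]
  rw [h0, Finset.sum_add_distrib, Finset.sum_add_distrib, h1, add_zero]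
  rfl

/-- the atoms of the two structures at a vertex where the flips have the right boundary -/
theorem isAt_smul {τ σ : Vx l → ZMod 2} (k : KK l) (x : At l) (h : bdry k.z x.v = τ x.v + σ x.v) :
    IsAt τ (k • x) ↔ IsAt σ x := by
  unfold IsAt
  rw [smul_v, bdry_smul, h]
  refine and_congr ?_ (and_congr ?_ ?_)
  · refine forall_congr' fun C => forall_congr' fun hC => ?_
    rw [smul_a, if_neg hC]
  · refine forall_congr' fun e => forall_congr' fun he => ?_
    rw [smul_w, if_neg he]
  · have : ∀ a b c : ZMod 2, a + (b + c) = b ↔ a = c := by decide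
    exact this _ _ _

theorem inU_smul {τ σ : Vx l → ZMod 2} (k : KK l) (X : Finset (Fin l))
    (h : ∀ v, co v ⊆ X → bdry k.z v = τ v + σ v) (a : Al l) (ha : pl a ⊆ X) :
    InU τ (k • a) ↔ InU σ a := by
  rcases a with x | p
  · exact isAt_smul k x (h _ ha)
  · change (IsAt τ (k • p.1) ∧ IsAt τ (k • p.2) ∧ Dif (k • p.1) (k • p.2)) ↔
      (IsAt σ p.1 ∧ IsAt σ p.2 ∧ Dif p.1 p.2)
    have h1 : co p.1.v ⊆ X := Finset.subset_union_left.trans ha
    have h2 : co p.2.v ⊆ X := Finset.subset_union_right.trans ha
    rw [isAt_smul k p.1 (h _ h1), isAt_smul k p.2 (h _ h2), dif_smul]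

/-- flips outside `X` are trivial at `X` -/
theorem flip_trv {X : Finset (Fin l)} {z : Ed l → ZMod 2}
    (hz : ∀ e, z e ≠ 0 → ∀ u, ie e u → ¬ co u ⊆ X) : Trv pl X (mkK z 1) := by
  have h1 : ∀ x : At l, co x.v ⊆ X → mkK z 1 • x = x := by
    intro x hx
    refine At.ext rfl ?_ ?_
    · funext C
      rw [smul_a]
      change (if sv C x.v then (1 : Gm) • x.a C else x.a C) = x.a C
      rw [one_smul, ite_self]
    · funext e
      rw [smul_w]
      by_cases h : ie e x.v
      · rw [if_pos h]
        have h2 : z e = 0 := by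
          by_contra h3
          exact hz e h3 _ h hx
        change x.w e + z e + ∑ C ∈ Finset.univ.filter (fun C => se C e), cc (1 : Gm) (x.a C) = _
        rw [Finset.sum_eq_zero (fun C _ => cc_one (x.a C)), h2, add_zero, add_zero]
      · rw [if_neg h]
  intro a ha
  rcases a with x | p
  · rw [smul_inl, h1 x ha]
  · rw [smul_inr, h1 p.1 (Finset.subset_union_left.trans ha),
      h1 p.2 (Finset.subset_union_right.trans ha)]

theorem agr_mul_flip {X : Finset (Fin l)} {z : Ed l → ZMod 2}
    (hz : ∀ e, z e ≠ 0 → ∀ u, ie e u → ¬ co u ⊆ X) (k : KK l) : Agr pl X k (k * mkK z 1) := by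
  intro a ha
  rw [mul_smul, flip_trv hz a ha]

theorem tw_eq (v w : Vx l) : (if w = v then (1 : ZMod 2) else 0) = tw v w := by
  unfold tw
  rw [Pi.single_apply]

/-- the frame -/
noncomputable def frm (v0 : Vx l) : Fr (Al l) (Fin l) (KK l) where
  pl := pl
  pl_smul := by
    intro k a
    rcases a with x | p <;> rfl
  G := GG l
  norm := by
    refine ⟨fun n hn g v => ?_⟩
    rw [mul_z, mul_z, inv_z, bdry_add, bdry_add, bdry_neg, hn v, add_zero, add_neg_cancel]
  Th := Tht v0
  L := l - 1
  Th_anti := by
    rintro X Y hXY k ⟨v1, h1, h2⟩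
    exact ⟨v1, fun h => h1 (h.trans hXY), h2⟩
  Th_inv := by
    rintro X k ⟨v1, h1, h2⟩
    refine ⟨v1, h1, fun v => ?_⟩
    rw [inv_z, bdry_neg, neg2, h2]
  Th_mul := by
    rintro X g k hg ⟨v1, h1, h2⟩
    refine ⟨v1, h1, fun v => ?_⟩
    rw [mul_z, bdry_add, hg v, zero_add, h2]
  Th_ext := by
    rintro X Y k hXY hY ⟨v1, h1, h2⟩
    have hl : 0 < l := lt_of_le_of_lt (Nat.zero_le _) (v0 0).isLt
    have h3 : ∃ y, y ∉ Y := by
      by_contra h
      push Not at h
      have h4 : Y = Finset.univ := Finset.eq_univ_iff_forall.2 h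
      rw [h4, Finset.card_univ, Fintype.card_fin] at hY
      omega
    obtain ⟨y, hy⟩ := h3
    have h5 : ∀ Z : Finset (Fin l), y ∉ Z → ¬ co (fun _ : Fin 3 => y) ⊆ Z := by
      intro Z hZ h
      exact hZ (h (Finset.mem_image.2 ⟨0, Finset.mem_univ _, rfl⟩))
    obtain ⟨z, hz1, hz2⟩ := conn h1 (h5 X (fun h => hy (hXY h)))
    refine ⟨k * mkK z 1, ⟨fun _ => y, h5 Y hy, fun v => ?_⟩, agr_mul_flip hz1 k⟩
    rw [mul_z, bdry_add, h2, mkK_z, hz2, tw_eq, tw_eq]
    have : ∀ a b c : ZMod 2, a + b + (b + c) = a + c := by decide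
    exact this _ _ _
  Th_hom := by
    rintro X k k' hX ⟨v1, h1, h2⟩ ⟨v1', h1', h2'⟩
    obtain ⟨z, hz1, hz2⟩ := conn h1 h1'
    refine ⟨k⁻¹ * k' * mkK z 1, fun v => ?_, ?_⟩
    · rw [mul_z, mul_z, inv_z, bdry_add, bdry_add, bdry_neg, mkK_z, h2, h2', hz2, tw_eq, tw_eq]
      have : ∀ a b c : ZMod 2, -(a + b) + (a + c) + (b + c) = 0 := by decide
      exact this _ _ _
    · have : k * (k⁻¹ * k' * mkK z 1) = k' * mkK z 1 := by group
      rw [this]
      exact agr_mul_flip hz1 k'

/-- the vertex sets of the two graphs are twins -/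
noncomputable def twn (v0 : Vx l) : Twin GrV (Al l) (Fin l) (KK l) where
  F := frm v0
  U0 := Finset.univ.filter (InU 0)
  U1 := Finset.univ.filter (InU (tw v0))
  S := fun _ _ => True
  inv := fun _ _ _ => Iff.rfl
  inv0 := by
    intro g hg a
    rw [Finset.mem_filter, Finset.mem_filter, and_iff_right (Finset.mem_univ _),
      and_iff_right (Finset.mem_univ _)]
    refine inU_smul g Finset.univ (fun v _ => ?_) a (Finset.subset_univ _)
    rw [hg v]
    rfl
  inv1 := by
    intro g hg a
    rw [Finset.mem_filter, Finset.mem_filter, and_iff_right (Finset.mem_univ _),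
      and_iff_right (Finset.mem_univ _)]
    refine inU_smul g Finset.univ (fun v _ => ?_) a (Finset.subset_univ _)
    rw [hg v]
    have : ∀ a : ZMod 2, 0 = a + a := by decide
    exact this _
  loc := by
    rintro X k ⟨v1, h1, h2⟩ a ha
    rw [Finset.mem_filter, Finset.mem_filter, and_iff_right (Finset.mem_univ _),
      and_iff_right (Finset.mem_univ _)]
    refine inU_smul k X (fun v hv => ?_) a ha
    rw [h2 v]
    have h3 : v ≠ v1 := fun h => h1 (h ▸ hv)
    have h4 : tw v1 v = 0 := by
      unfold tw
      rw [Pi.single_apply, if_neg h3]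
    rw [h4]
    rfl

end Pool.Agent.CPT
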