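import Mathlib

/-!
# Numerics
-/

set_option autoImplicit false

namespace Pool.Agent.CPT

/-- `log₂` of a power -/
private theorem log_pow_le (m e : ℕ) : Nat.log 2 (m ^ e) ≤ e * (Nat.log 2 m + 1) := by
  rcases Nat.eq_zero_or_pos (m ^ e) with h | h
  · rw [h, Nat.log_zero_right]; exact Nat.zero_le _
  · have h1 : m < 2 ^ (Nat.log 2 m + 1) := Nat.lt_pow_succ_log_self (by norm_num) m
    have h2 : m ^ e ≤ (2 ^ (Nat.log 2 m + 1)) ^ e := Nat.pow_le_pow_left h1.le e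
    rw [← pow_mul] at h2
    have h3 := Nat.log_mono_right (b := 2) h2
    rw [Nat.log_pow (by norm_num)] at h3
    calc Nat.log 2 (m ^ e) ≤ (Nat.log 2 m + 1) * e := h3
      _ = _ := Nat.mul_comm _ _

/-- `log₂ b ≤ l / C` when `b ^ C ≤ 2 ^ l` -/
private theorem log_le_div (b C l : ℕ) (h : b ^ C ≤ 2 ^ l) : C * Nat.log 2 b ≤ l := by
  rcases Nat.eq_zero_or_pos b with h0 | h0
  · rw [h0, Nat.log_zero_right]; simp
  · have h1 : 2 ^ Nat.log 2 b ≤ b := Nat.pow_log_le_self 2 (by omega)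
    have h2 : 2 ^ (Nat.log 2 b * C) ≤ 2 ^ l := by
      rw [pow_mul]
      exact (Nat.pow_le_pow_left h1 C).trans h
    have h3 := (Nat.pow_le_pow_iff_right (by norm_num : 1 < 2)).1 h2
    rwa [Nat.mul_comm]

private theorem sq_le_two_pow (n : ℕ) : n * n ≤ 4 * 2 ^ n := by
  have h : ∀ n : ℕ, n + 1 ≤ 2 ^ n := fun n => Nat.lt_two_pow_self
  have h1 := h (n / 2)
  have h2 : n ≤ 2 * (n / 2) + 1 := by omega
  have h3 : n + 1 ≤ 2 * 2 ^ (n / 2) := by omega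
  have h4 : (n + 1) * (n + 1) ≤ (2 * 2 ^ (n / 2)) * (2 * 2 ^ (n / 2)) := Nat.mul_le_mul h3 h3
  have h5 : (2 * 2 ^ (n / 2)) * (2 * 2 ^ (n / 2)) = 4 * 2 ^ (n / 2 + n / 2) := by
    rw [pow_add]; ring
  have h6 : 2 ^ (n / 2 + n / 2) ≤ 2 ^ n := Nat.pow_le_pow_right (by norm_num) (by omega)
  nlinarith

/-- `C log₂ l ≤ l` for large `l` -/
private theorem log_small (C : ℕ) : ∀ l ≥ 16 * C * C + 4, C * Nat.log 2 l ≤ l := by
  intro l hl
  set n := Nat.log 2 l with hn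
  have h1 : 2 ^ n ≤ l := Nat.pow_log_le_self 2 (by omega)
  have h2 := sq_le_two_pow n
  -- n² ≤ 4 l, and (C n)² ≤ 4 C² l ≤ l²
  have h3 : n * n ≤ 4 * l := by omega
  by_contra h
  push Not at h
  have h4 : l * l < (C * n) * (C * n) := Nat.mul_lt_mul'' h h
  have h5 : (C * n) * (C * n) ≤ C * C * (4 * l) := by
    calc (C * n) * (C * n) = C * C * (n * n) := by ring
      _ ≤ _ := Nat.mul_le_mul_left _ h3
  have h6 : (4 * C * C) * l ≤ l * l := Nat.mul_le_mul_right _ (by nlinarith)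
  nlinarith

theorem num_bound (D e d : ℕ) : ∃ C : ℕ, ∀ l ≥ C, ∀ b : ℕ, b ^ C ≤ 2 ^ l →
    d * (10 * Nat.log 2 ((max b (D * l ^ 3) + 2) ^ e) + 6) + 1 ≤ l := by
  refine ⟨30 * (d * e) + (16 * (90 * (d * e)) * (90 * (d * e)) + 4) + 3 * (10 * (d * e) * (Nat.log 2 D + 7) + 6 * d + 1),
    fun l hl b hb => ?_⟩
  set de := d * e with hde
  set k := 10 * de * (Nat.log 2 D + 7) + 6 * d + 1 with hk
  have h1 := log_le_div b _ l hb
  have h2 := log_small (90 * de) l (by omega)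
  have h3 : 30 * de * Nat.log 2 b ≤ l := by
    refine le_trans (Nat.mul_le_mul_right _ ?_) h1
    omega
  have h4 : 3 * k ≤ l := by omega
  -- the logarithm
  have h5 : Nat.log 2 (max b (D * l ^ 3) + 2) ≤ Nat.log 2 b + Nat.log 2 D + 3 * Nat.log 2 l + 5 := by
    set a := Nat.log 2 b + Nat.log 2 D + 3 * Nat.log 2 l + 4 with ha
    have e1 : b < 2 ^ (Nat.log 2 b + 1) := Nat.lt_pow_succ_log_self (by norm_num) b
    have e2 : D < 2 ^ (Nat.log 2 D + 1) := Nat.lt_pow_succ_log_self (by norm_num) D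
    have e3 : l < 2 ^ (Nat.log 2 l + 1) := Nat.lt_pow_succ_log_self (by norm_num) l
    have e4 : b ≤ 2 ^ a := e1.le.trans (Nat.pow_le_pow_right (by norm_num) (by omega))
    have e5 : D * l ^ 3 ≤ 2 ^ a := by
      calc D * l ^ 3 ≤ 2 ^ (Nat.log 2 D + 1) * (2 ^ (Nat.log 2 l + 1)) ^ 3 :=
            Nat.mul_le_mul e2.le (Nat.pow_le_pow_left e3.le 3)
        _ = 2 ^ (Nat.log 2 D + 1 + (Nat.log 2 l + 1) * 3) := by rw [← pow_mul, ← pow_add]
        _ ≤ 2 ^ a := Nat.pow_le_pow_right (by norm_num) (by omega)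
    have e6 : (2 : ℕ) ≤ 2 ^ a := by
      calc (2 : ℕ) = 2 ^ 1 := by norm_num
        _ ≤ 2 ^ a := Nat.pow_le_pow_right (by norm_num) (by omega)
    have e7 : max b (D * l ^ 3) + 2 ≤ 2 ^ (a + 1) := by
      rw [pow_succ]
      have e9 := max_le e4 e5
      calc max b (D * l ^ 3) + 2 ≤ 2 ^ a + 2 ^ a := Nat.add_le_add e9 e6
        _ = 2 ^ a * 2 := by ring
    have e8 := Nat.log_mono_right (b := 2) e7
    rw [Nat.log_pow (by norm_num)] at e8
    omega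
  have h6 := log_pow_le (max b (D * l ^ 3) + 2) e
  have h7 : Nat.log 2 ((max b (D * l ^ 3) + 2) ^ e) ≤ e * (Nat.log 2 b + Nat.log 2 D + 3 * Nat.log 2 l + 6) :=
    h6.trans (Nat.mul_le_mul_left _ (by omega))
  have h8 : d * (10 * Nat.log 2 ((max b (D * l ^ 3) + 2) ^ e) + 6) ≤
      d * (10 * (e * (Nat.log 2 b + Nat.log 2 D + 3 * Nat.log 2 l + 6)) + 6) :=
    Nat.mul_le_mul_left _ (by omega)
  have h9 : d * (10 * (e * (Nat.log 2 b + Nat.log 2 D + 3 * Nat.log 2 l + 6)) + 6) =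
      10 * de * Nat.log 2 b + 30 * de * Nat.log 2 l + (10 * de * (Nat.log 2 D + 6) + 6 * d) := by
    rw [hde]; ring
  have h10 : 10 * de * (Nat.log 2 D + 6) ≤ 10 * de * (Nat.log 2 D + 7) := Nat.mul_le_mul_left _ (by omega)
  have h11 : 3 * (10 * de * Nat.log 2 b) = 30 * de * Nat.log 2 b := by ring
  have h12 : 3 * (30 * de * Nat.log 2 l) = 90 * de * Nat.log 2 l := by ring
  omega

end Pool.Agent.CPT
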