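import Pool.Agent.CPT.Gd
import Pool.Agent.CPTGrp.Topo

/-!
# Cycles outside a cube of coordinates are sums of squares outside
-/

set_option autoImplicit false

namespace Pool.Agent.CPT

open Finset Classical

variable {l : ℕ}

/-- single edges with natural coordinates -/
private noncomputable def eF (l : ℕ) (i : Fin 3) (x y z : ℕ) (e : Ed l) : ZMod 2 :=
  if e.1 = i ∧ (e.2 0).val = x ∧ (e.2 1).val = y ∧ (e.2 2).val = z then 1 else 0

/-- the good chains -/
private noncomputable def SS (X : Finset (Fin l)) : AddSubgroup (Ed l → ZMod 2) where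
  carrier := {f | ∃ σ : Sq l → ZMod 2, (∀ e, f e = ∑ C, σ C * sqc C e) ∧
      ∀ C, σ C ≠ 0 → (∃ u, sv C u) ∧ ∀ u, sv C u → ¬ co u ⊆ X}
  add_mem' := by
    rintro f g ⟨σ, h1, h2⟩ ⟨τ, h3, h4⟩
    refine ⟨σ + τ, ?_, ?_⟩
    · intro e
      rw [Pi.add_apply, h1, h3, ← Finset.sum_add_distrib]
      exact Finset.sum_congr rfl fun C _ => by rw [Pi.add_apply, add_mul]
    · intro C hC
      by_cases h : σ C = 0
      · apply h4
        intro h'
        apply hC
        rw [Pi.add_apply, h, h', add_zero]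
      · exact h2 C h
  zero_mem' := ⟨0, by simp, by simp⟩
  neg_mem' := by
    rintro f ⟨σ, h1, h2⟩
    refine ⟨-σ, ?_, ?_⟩
    · intro e
      rw [Pi.neg_apply, h1, ← Finset.sum_neg_distrib]
      exact Finset.sum_congr rfl fun C _ => by rw [Pi.neg_apply, neg_mul]
    · intro C hC
      apply h2
      intro h
      apply hC
      rw [Pi.neg_apply, h, neg_zero]

private theorem sqc_mem (X : Finset (Fin l)) (C : Sq l) (h1 : ∃ u, sv C u)
    (h2 : ∀ u, sv C u → ¬ co u ⊆ X) (f : Ed l → ZMod 2) (hf : ∀ e, f e = sqc C e) : f ∈ SS X := by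
  refine ⟨Pi.single C 1, ?_, ?_⟩
  · intro e
    rw [hf, Finset.sum_eq_single C]
    · rw [Pi.single_eq_same, one_mul]
    · intro D _ hD
      rw [Pi.single_eq_of_ne hD, zero_mul]
    · intro h; exact absurd (Finset.mem_univ _) h
  · intro D hD
    by_cases h : D = C
    · rw [h]; exact ⟨h1, h2⟩
    · rw [Pi.single_eq_of_ne h] at hD
      exact absurd rfl hD

private theorem se_iffF (C : Sq l) (e : Ed l) : se C e ↔
    (∀ j, j ≠ C.1 → (C.2 j).val + 1 < l) ∧ e.1 ≠ C.1 ∧ e.2 C.1 = C.2 C.1 ∧ e.2 e.1 = C.2 e.1 ∧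
      ∀ m, m ≠ C.1 → m ≠ e.1 → ((e.2 m).val = (C.2 m).val ∨ (e.2 m).val = (C.2 m).val + 1) := by
  constructor
  · rintro ⟨⟨u, hu⟩, h⟩
    have hl := hu.1
    -- the two ends
    have i1 : ie e e.2 := ⟨hl, fun _ _ => rfl, Or.inl rfl⟩
    have i2 : ie e (Function.update e.2 e.1 ⟨(e.2 e.1).val + 1, hl⟩) := by
      refine ⟨hl, fun j hj => Function.update_of_ne hj _ _, Or.inr ?_⟩
      rw [Function.update_self]
    have s1 := h _ i1
    have s2 := h _ i2
    obtain ⟨a1, a2, a3⟩ := s1
    obtain ⟨-, b2, b3⟩ := s2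
    have hne : e.1 ≠ C.1 := by
      intro hh
      rw [← hh, Function.update_self] at b2
      rw [← hh] at a2
      have := congrArg Fin.val (b2.trans a2.symm)
      simp at this
    refine ⟨a1, hne, a2, ?_, ?_⟩
    · have c1 := a3 e.1 hne
      have c2 := b3 e.1 hne
      rw [Function.update_self] at c2
      apply Fin.ext
      simp only at c2
      omega
    · intro m hm _
      exact a3 m hm
  · rintro ⟨h1, h2, h3, h4, h5⟩
    have hl : (e.2 e.1).val + 1 < l := by rw [h4]; exact h1 _ h2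
    refine ⟨⟨e.2, hl, fun _ _ => rfl, Or.inl rfl⟩, ?_⟩
    rintro u ⟨-, hu2, hu3⟩
    refine ⟨h1, ?_, ?_⟩
    · rw [hu2 C.1 (Ne.symm h2), h3]
    · intro j hj
      by_cases hje : j = e.1
      · rw [hje, ← h4]
        exact hu3
      · rw [hu2 j hje]
        exact h5 j hj hje

private theorem all3 (P : Fin 3 → Prop) : (∀ m, P m) ↔ P 0 ∧ P 1 ∧ P 2 := by
  constructor
  · intro h; exact ⟨h 0, h 1, h 2⟩
  · rintro ⟨h0, h1, h2⟩ m
    fin_cases m
    · exact h0
    · exact h1
    · exact h2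

private theorem sq2 (x y z : ℕ) (hx : x + 1 < l) (hy : y + 1 < l) (hz : z < l) (e : Ed l) :
    (eF l 0 x y z + eF l 0 x (y + 1) z + eF l 1 x y z + eF l 1 (x + 1) y z) e
      = sqc (2, ![⟨x, by omega⟩, ⟨y, by omega⟩, ⟨z, hz⟩]) e := by
  obtain ⟨j, w⟩ := e
  simp only [Pi.add_apply, eF, sqc, se_iffF, all3, Fin.ext_iff]
  have hx' := hx
  have hy' := hy
  fin_cases j
  · simp
    generalize (w 0).val = a
    generalize (w 1).val = b
    generalize (w 2).val = c
    split_ifs <;> first | rfl | (exfalso; omega)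
  · simp
    generalize (w 0).val = a
    generalize (w 1).val = b
    generalize (w 2).val = c
    split_ifs <;> first | rfl | (exfalso; omega)
  · simp

private theorem sq1 (x y z : ℕ) (hx : x + 1 < l) (hy : y < l) (hz : z + 1 < l) (e : Ed l) :
    (eF l 0 x y z + eF l 0 x y (z + 1) + eF l 2 x y z + eF l 2 (x + 1) y z) e
      = sqc (1, ![⟨x, by omega⟩, ⟨y, hy⟩, ⟨z, by omega⟩]) e := by
  obtain ⟨j, w⟩ := e
  simp only [Pi.add_apply, eF, sqc, se_iffF, all3, Fin.ext_iff]
  have hx' := hx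
  have hz' := hz
  fin_cases j
  · simp
    generalize (w 0).val = a
    generalize (w 1).val = b
    generalize (w 2).val = c
    split_ifs <;> first | rfl | (exfalso; omega)
  · simp
  · simp
    generalize (w 0).val = a
    generalize (w 1).val = b
    generalize (w 2).val = c
    split_ifs <;> first | rfl | (exfalso; omega)

private theorem sq0 (x y z : ℕ) (hx : x < l) (hy : y + 1 < l) (hz : z + 1 < l) (e : Ed l) :
    (eF l 1 x y z + eF l 1 x y (z + 1) + eF l 2 x y z + eF l 2 x (y + 1) z) e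
      = sqc (0, ![⟨x, hx⟩, ⟨y, by omega⟩, ⟨z, by omega⟩]) e := by
  obtain ⟨j, w⟩ := e
  simp only [Pi.add_apply, eF, sqc, se_iffF, all3, Fin.ext_iff]
  have hy' := hy
  have hz' := hz
  fin_cases j
  · simp
  · simp
    generalize (w 0).val = a
    generalize (w 1).val = b
    generalize (w 2).val = c
    split_ifs <;> first | rfl | (exfalso; omega)
  · simp
    generalize (w 0).val = a
    generalize (w 1).val = b
    generalize (w 2).val = c
    split_ifs <;> first | rfl | (exfalso; omega)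

/-- the coordinate `n` is bad -/
private def bd (X : Finset (Fin l)) (n : ℕ) : Prop := ∃ h : n < l, (⟨n, h⟩ : Fin l) ∈ X

private theorem bd_val (X : Finset (Fin l)) (a : Fin l) : bd X a.val ↔ a ∈ X := by
  constructor
  · rintro ⟨_, h⟩; exact h
  · intro h; exact ⟨a.2, h⟩

private theorem co_sub (X : Finset (Fin l)) (u : Vx l) :
    co u ⊆ X ↔ bd X (u 0).val ∧ bd X (u 1).val ∧ bd X (u 2).val := by
  rw [bd_val, bd_val, bd_val, ← all3 (fun m => u m ∈ X)]
  unfold co
  rw [Finset.image_subset_iff]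
  simp

private theorem memF2 (X : Finset (Fin l)) (x y z : ℕ) (hx : x + 1 < l) (hy : y + 1 < l)
    (hz : z < l) (h : (¬ bd X x ∧ ¬ bd X (x + 1)) ∨ (¬ bd X y ∧ ¬ bd X (y + 1)) ∨ ¬ bd X z) :
    eF l 0 x y z + eF l 0 x (y + 1) z + eF l 1 x y z + eF l 1 (x + 1) y z ∈ SS X := by
  refine sqc_mem X (2, ![⟨x, by omega⟩, ⟨y, by omega⟩, ⟨z, hz⟩]) ?_ ?_ _
    (sq2 x y z hx hy hz)
  · refine ⟨![⟨x, by omega⟩, ⟨y, by omega⟩, ⟨z, hz⟩], ?_⟩
    simp [sv, all3, hx, hy]
  · intro u hu
    rw [co_sub]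
    simp only [sv, all3, Fin.ext_iff] at hu
    simp at hu
    obtain ⟨-, h2, h0, h1⟩ := hu
    rw [h2]
    rcases h0 with h0 | h0 <;> rcases h1 with h1 | h1 <;> rw [h0, h1] <;> tauto

private theorem memF1 (X : Finset (Fin l)) (x y z : ℕ) (hx : x + 1 < l) (hy : y < l)
    (hz : z + 1 < l) (h : (¬ bd X x ∧ ¬ bd X (x + 1)) ∨ ¬ bd X y ∨ (¬ bd X z ∧ ¬ bd X (z + 1))) :
    eF l 0 x y z + eF l 0 x y (z + 1) + eF l 2 x y z + eF l 2 (x + 1) y z ∈ SS X := by
  refine sqc_mem X (1, ![⟨x, by omega⟩, ⟨y, hy⟩, ⟨z, by omega⟩]) ?_ ?_ _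
    (sq1 x y z hx hy hz)
  · refine ⟨![⟨x, by omega⟩, ⟨y, hy⟩, ⟨z, by omega⟩], ?_⟩
    simp [sv, all3, hx, hz]
  · intro u hu
    rw [co_sub]
    simp only [sv, all3, Fin.ext_iff] at hu
    simp at hu
    obtain ⟨-, h2, h0, h1⟩ := hu
    rw [h2]
    rcases h0 with h0 | h0 <;> rcases h1 with h1 | h1 <;> rw [h0, h1] <;> tauto

private theorem memF0 (X : Finset (Fin l)) (x y z : ℕ) (hx : x < l) (hy : y + 1 < l)
    (hz : z + 1 < l) (h : ¬ bd X x ∨ (¬ bd X y ∧ ¬ bd X (y + 1)) ∨ (¬ bd X z ∧ ¬ bd X (z + 1))) :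
    eF l 1 x y z + eF l 1 x y (z + 1) + eF l 2 x y z + eF l 2 x (y + 1) z ∈ SS X := by
  refine sqc_mem X (0, ![⟨x, hx⟩, ⟨y, by omega⟩, ⟨z, by omega⟩]) ?_ ?_ _
    (sq0 x y z hx hy hz)
  · refine ⟨![⟨x, hx⟩, ⟨y, by omega⟩, ⟨z, by omega⟩], ?_⟩
    simp [sv, all3, hy, hz]
  · intro u hu
    rw [co_sub]
    simp only [sv, all3, Fin.ext_iff] at hu
    simp at hu
    obtain ⟨-, h2, h0, h1⟩ := hu
    rw [h2]
    rcases h0 with h0 | h0 <;> rcases h1 with h1 | h1 <;> rw [h0, h1] <;> tauto

private theorem h2' (a : Ed l → ZMod 2) : a + a = 0 := by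
  funext e
  have : ∀ t : ZMod 2, t + t = 0 := by decide
  exact this _

/-- source and target with natural coordinates -/
private def srcF (e : Ed l) : ℕ × ℕ × ℕ := ((e.2 0).val, (e.2 1).val, (e.2 2).val)

private def tgtF (e : Ed l) : ℕ × ℕ × ℕ :=
  ((e.2 0).val + (if e.1 = 0 then 1 else 0), (e.2 1).val + (if e.1 = 1 then 1 else 0),
    (e.2 2).val + (if e.1 = 2 then 1 else 0))

private theorem ie_iffF (e : Ed l) (u : Vx l) : ie e u ↔ (e.2 e.1).val + 1 < l ∧
    (srcF e = ((u 0).val, (u 1).val, (u 2).val) ∨ tgtF e = ((u 0).val, (u 1).val, (u 2).val)) := by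
  obtain ⟨j, w⟩ := e
  simp only [ie, srcF, tgtF, all3, Prod.mk.injEq]
  refine and_congr_right fun _ => ?_
  fin_cases j <;> simp [Fin.ext_iff] <;> omega

private theorem src_ne_tgtF (e : Ed l) : srcF e ≠ tgtF e := by
  obtain ⟨j, w⟩ := e
  simp only [srcF, tgtF, ne_eq, Prod.mk.injEq]
  fin_cases j <;> simp

private theorem single_eq (i : Fin 3) (w : Vx l) :
    (Pi.single (i, w) (1 : ZMod 2) : Ed l → ZMod 2) = eF l i (w 0).val (w 1).val (w 2).val := by
  funext e
  obtain ⟨j, u⟩ := e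
  rw [Pi.single_apply]
  unfold eF
  refine if_congr ?_ rfl rfl
  rw [Prod.mk.injEq]
  refine and_congr_right fun _ => ?_
  rw [funext_iff, all3]
  simp only [Fin.ext_iff]

/-- every cycle outside `X^3` is a sum of squares outside `X^3` -/
theorem fill {X : Finset (Fin l)} (hX : X ≠ Finset.univ) {z : Ed l → ZMod 2}
    (hz : ∀ v, bdry z v = 0) (h0 : ∀ e, z e ≠ 0 → ∀ u, ie e u → ¬ co u ⊆ X)
    (hv : ∀ e, (∀ u, ¬ ie e u) → z e = 0) :
    ∃ σ : Sq l → ZMod 2, (∀ e, z e = ∑ C, σ C * sqc C e) ∧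
      ∀ C, σ C ≠ 0 → (∃ u, sv C u) ∧ ∀ u, sv C u → ¬ co u ⊆ X := by
  obtain ⟨x0, hx0⟩ : ∃ x0, x0 ∉ X := by
    by_contra h
    push Not at h
    exact hX (Finset.eq_univ_of_forall h)
  have hb0 : ¬ bd X x0.val := by rw [bd_val]; exact hx0
  set Z : Finset (Ed l) := Finset.univ.filter (fun e => z e ≠ 0) with hZ
  have hlen : ∀ e ∈ Z, (e.2 e.1).val + 1 < l := by
    intro e he
    by_contra h
    refine (Finset.mem_filter.1 he).2 (hv e ?_)
    intro u hu
    exact h hu.1
  have hsum : ∑ e ∈ Z, (Pi.single e (1 : ZMod 2) : Ed l → ZMod 2) = z := by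
    funext e'
    rw [Finset.sum_apply]
    by_cases h : z e' = 0
    · rw [h]
      refine Finset.sum_eq_zero fun e he => ?_
      rw [Pi.single_eq_of_ne]
      rintro rfl
      exact (Finset.mem_filter.1 he).2 h
    · rw [Finset.sum_eq_single e']
      · rw [Pi.single_eq_same]
        have : ∀ t : ZMod 2, t ≠ 0 → 1 = t := by decide
        exact this _ h
      · intro e _ he
        exact Pi.single_eq_of_ne (Ne.symm he) _
      · intro h'
        exact absurd (show e' ∈ Z from Finset.mem_filter.2 ⟨Finset.mem_univ _, h⟩) h'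
  have hmem : ∑ e ∈ Z, (Pi.single e (1 : ZMod 2) : Ed l → ZMod 2) ∈ SS X := by
    refine CPTGrp.even_sum_mem h2' (SS X) Z srcF tgtF _
      (fun v => CPTGrp.pathTo (bd X) (bd X) (eF l 0) (eF l 1) (eF l 2) x0.val x0.val x0.val
        v.1 v.2.1 v.2.2) ?_ ?_
    · rintro ⟨a, b, c⟩
      by_cases hr : a < l ∧ b < l ∧ c < l
      · have hb := hz ![⟨a, hr.1⟩, ⟨b, hr.2.1⟩, ⟨c, hr.2.2⟩]
        unfold bdry at hb
        have e1 : ∑ e ∈ Finset.univ.filter (fun e => ie e ![⟨a, hr.1⟩, ⟨b, hr.2.1⟩, ⟨c, hr.2.2⟩]), z e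
            = (((Z.filter (fun i => srcF i = (a, b, c))) ∪
              (Z.filter (fun i => tgtF i = (a, b, c)))).card : ZMod 2) := by
          rw [Finset.card_eq_sum_ones, Nat.cast_sum]
          rw [← Finset.sum_filter_ne_zero]
          refine Finset.sum_congr ?_ ?_
          · ext e
            simp only [Finset.mem_filter, Finset.mem_union, Finset.mem_univ, true_and, hZ, ie_iffF]
            simp only [Matrix.cons_val_zero, Matrix.cons_val_one, Matrix.cons_val]
            constructor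
            · rintro ⟨⟨_, h⟩, h'⟩
              rcases h with h | h
              · exact Or.inl ⟨h', h⟩
              · exact Or.inr ⟨h', h⟩
            · intro h
              have h' : z e ≠ 0 := by tauto
              exact ⟨⟨hlen e (Finset.mem_filter.2 ⟨Finset.mem_univ _, h'⟩), by tauto⟩, h'⟩
          · intro e he
            have : ∀ t : ZMod 2, t ≠ 0 → t = ((1 : ℕ) : ZMod 2) := by decide
            apply this
            simp only [Finset.mem_union, Finset.mem_filter, hZ] at he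
            tauto
        rw [e1] at hb
        rw [Finset.card_union_of_disjoint] at hb
        · rw [ZMod.natCast_eq_zero_iff_even] at hb
          exact hb
        · rw [Finset.disjoint_left]
          intro e h1 h2
          exact src_ne_tgtF e (((Finset.mem_filter.1 h1).2).trans ((Finset.mem_filter.1 h2).2).symm)
      · have e1 : Z.filter (fun i => srcF i = (a, b, c)) = ∅ := by
          rw [Finset.filter_eq_empty_iff]
          intro e _ h
          apply hr
          simp only [srcF, Prod.mk.injEq] at h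
          obtain ⟨rfl, rfl, rfl⟩ := h
          exact ⟨(e.2 0).2, (e.2 1).2, (e.2 2).2⟩
        have e2 : Z.filter (fun i => tgtF i = (a, b, c)) = ∅ := by
          rw [Finset.filter_eq_empty_iff]
          intro e he h
          apply hr
          have hl := hlen e he
          simp only [tgtF, Prod.mk.injEq] at h
          obtain ⟨rfl, rfl, rfl⟩ := h
          have h0 := (e.2 0).2
          have h1 := (e.2 1).2
          have h2 := (e.2 2).2
          obtain ⟨j, w⟩ := e
          fin_cases j <;> simp_all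
        rw [e1, e2]
        exact ⟨0, by simp⟩
    · rintro ⟨j, w⟩ he
      have hl := hlen _ he
      have hz' := (Finset.mem_filter.1 he).2
      have hends := h0 _ hz'
      have w0 := (w 0).2
      have w1 := (w 1).2
      have w2 := (w 2).2
      have hsrc : ¬ (bd X (w 0).val ∧ bd X (w 1).val ∧ bd X (w 2).val) := by
        rw [← co_sub]
        exact hends w ((ie_iffF _ _).2 ⟨hl, Or.inl rfl⟩)
      have hh : ∀ (u : Vx l), tgtF (l := l) (j, w) = ((u 0).val, (u 1).val, (u 2).val) →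
          ¬ (bd X (u 0).val ∧ bd X (u 1).val ∧ bd X (u 2).val) := by
        intro u hu
        rw [← co_sub]
        exact hends u ((ie_iffF _ _).2 ⟨hl, Or.inr hu⟩)
      rw [single_eq]
      fin_cases j
      · have hl' : (w 0).val + 1 < l := hl
        have := CPTGrp.edgeX h2' (SS X) l (bd X) (bd X) (bd X) (eF l 0) (eF l 1) (eF l 2)
          (fun x y z hx hy hz h => memF2 X x y z hx hy hz h)
          (fun x y z hx hy hz h => memF1 X x y z hx hy hz h)
          (fun x y z hx hy hz h => memF0 X x y z hx hy hz h)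
          x0.val x0.val x0.val x0.2 x0.2 x0.2 hb0 hb0 hb0 (w 0).val (w 1).val (w 2).val hl' w1 w2
          hsrc (hh ![⟨(w 0).val + 1, hl'⟩, w 1, w 2] (by simp [tgtF]))
        simpa [srcF, tgtF] using this
      · have hl' : (w 1).val + 1 < l := hl
        have := CPTGrp.edgeY h2' (SS X) l (bd X) (bd X) (bd X) (eF l 0) (eF l 1) (eF l 2)
          (fun x y z hx hy hz h => memF2 X x y z hx hy hz h)
          (fun x y z hx hy hz h => memF1 X x y z hx hy hz h)
          (fun x y z hx hy hz h => memF0 X x y z hx hy hz h)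
          x0.val x0.val x0.val x0.2 x0.2 x0.2 hb0 hb0 hb0 (w 0).val (w 1).val (w 2).val w0 hl' w2
          hsrc (hh ![w 0, ⟨(w 1).val + 1, hl'⟩, w 2] (by simp [tgtF]))
        simpa [srcF, tgtF] using this
      · have hl' : (w 2).val + 1 < l := hl
        have := CPTGrp.edgeZ h2' (SS X) l (bd X) (bd X) (bd X) (eF l 0) (eF l 1) (eF l 2)
          (fun x y z hx hy hz h => memF2 X x y z hx hy hz h)
          (fun x y z hx hy hz h => memF1 X x y z hx hy hz h)
          (fun x y z hx hy hz h => memF0 X x y z hx hy hz h)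
          x0.val x0.val x0.val x0.2 x0.2 x0.2 hb0 hb0 hb0 (w 0).val (w 1).val (w 2).val w0 w1 hl'
          hsrc (hh ![w 0, w 1, ⟨(w 2).val + 1, hl'⟩] (by simp [tgtF]))
        simpa [srcF, tgtF] using this
  rw [hsum] at hmem
  exact hmem

end Pool.Agent.CPT
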