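import Pool.Agent.CPT.At
import Pool.Agent.CPT.Ab
import Pool.Agent.CPT.GdF
import Pool.Agent.CPT.Grp

/-!
# The support theorem: objects with small orbits have small supports
-/

set_option autoImplicit false

namespace Pool.Agent.CPT

open Finset Classical

variable {l : ℕ} {B : Type} [Fintype B]

/-! ### Elements which act trivially -/

private theorem hf_triv {A K : Type} [Group K] [MulAction K A] {k : K} (h : ∀ a : A, k • a = a)
    (x : HF A) : k • x = x := by
  rw [HF.smul_def]
  have : (fun a : A => k • a) = id := funext h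
  rw [this, HF.map_id]

private theorem al_triv {k : KK l} (h : ∀ a : At l, k • a = a) (x : HF (AB (Al l) B)) :
    k • x = x := by
  apply hf_triv
  intro a
  rcases AB.cases a with ⟨a, rfl⟩ | ⟨b, rfl⟩
  · rw [AB.smul_l]
    congr 1
    rcases a with a | p
    · rw [smul_inl, h]
    · rw [smul_inr, h, h]
  · rw [AB.smul_r]

/-- an element acts trivially if it acts trivially on the components at the squares and the total
changes of the bits vanish -/
private theorem at_triv {k : KK l} (h1 : ∀ C u, sv C u → ∀ o : Om, k.g C • o = o)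
    (h2 : ∀ e u, ie e u → ∀ a : Sq l → Om,
      k.z e + ∑ C ∈ Finset.univ.filter (fun C => se C e), cc (k.g C) (a C) = 0) (a : At l) :
    k • a = a := by
  apply At.ext
  · rfl
  · funext C
    rw [smul_a]
    split_ifs with hC
    · exact h1 C _ hC _
    · rfl
  · funext e
    rw [smul_w]
    split_ifs with he
    · rw [add_assoc, h2 e _ he, add_zero]
    · rfl

private theorem two_self (a : ZMod 2) : a + a = 0 := by
  revert a; decide

private theorem cc_one' (x : Om) : cc 1 x = 0 := cc_one x

private theorem sum_filter_single (C : Sq l) (g : Gm) (a : Sq l → Om) (e : Ed l) :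
    ∑ C' ∈ Finset.univ.filter (fun C' => se C' e), cc ((Pi.mulSingle C g : Sq l → Gm) C') (a C') =
      if se C e then cc g (a C) else 0 := by
  rw [Finset.sum_filter, Finset.sum_eq_single C]
  · rw [Pi.mulSingle_eq_same]
  · intro C' _ hne
    rw [Pi.mulSingle_eq_of_ne hne, cc_one', ite_self]
  · intro h
    exact absurd (Finset.mem_univ C) h

/-- the flip of a square and the central element of its local group have the same action -/
private theorem kap_triv (C : Sq l) (a : At l) :
    (mkK (sqc C) (Pi.mulSingle C gmC) : KK l) • a = a := by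
  apply at_triv
  · intro C' u _ o
    rw [mkK_g]
    by_cases h : C' = C
    · subst h
      rw [Pi.mulSingle_eq_same, C_smul]
    · rw [Pi.mulSingle_eq_of_ne h, one_smul]
  · intro e u _ a
    rw [mkK_z, mkK_g, sum_filter_single]
    unfold sqc
    split_ifs
    · rw [cc_C]; exact two_self _
    · rw [add_zero]

/-- the group of a square without vertices acts trivially -/
private theorem fake_triv {C : Sq l} (hC : ∀ u, ¬ sv C u) (g : Gm) (a : At l) :
    (mkK 0 (Pi.mulSingle C g) : KK l) • a = a := by
  apply at_triv
  · intro C' u hu o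
    rw [mkK_g]
    have h : C' ≠ C := by
      rintro rfl
      exact hC u hu
    rw [Pi.mulSingle_eq_of_ne h, one_smul]
  · intro e u hu a
    rw [mkK_z, mkK_g, sum_filter_single, if_neg, Pi.zero_apply, add_zero]
    intro hse
    exact hC u (hse.2 u hu)

/-- flips of edges without ends act trivially -/
private theorem edge_triv {z : Ed l → ZMod 2} (hz : ∀ e u, ie e u → z e = 0) (a : At l) :
    (mkK z 1 : KK l) • a = a := by
  apply at_triv
  · intro C' u hu o
    rw [mkK_g, Pi.one_apply, one_smul]
  · intro e u hu a
    rw [mkK_z, mkK_g, hz e u hu, zero_add]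
    apply Finset.sum_eq_zero
    intro C _
    rw [Pi.one_apply, cc_one']

/-! ### Products -/

private theorem stab_prod (S : Subgroup (KK l)) (g : Sq l → Gm)
    (h : ∀ C, (mkK 0 (Pi.mulSingle C (g C)) : KK l) ∈ S) : (mkK 0 g : KK l) ∈ S := by
  have key : ∀ T : Finset (Sq l), (mkK 0 (fun C => if C ∈ T then g C else 1) : KK l) ∈ S := by
    intro T
    induction T using Finset.induction_on with
    | empty =>
      have : (mkK 0 (fun C : Sq l => if C ∈ (∅ : Finset (Sq l)) then g C else 1) : KK l) = 1 := by
        apply KK.ext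
        · rfl
        · funext C
          simp
      rw [this]
      exact S.one_mem
    | insert C T hC ih =>
      have : (mkK 0 (fun C' : Sq l => if C' ∈ insert C T then g C' else 1) : KK l) =
          mkK 0 (Pi.mulSingle C (g C)) * mkK 0 (fun C' => if C' ∈ T then g C' else 1) := by
        apply KK.ext
        · rw [mul_z, mkK_z, mkK_z, mkK_z, add_zero]
        · funext C'
          rw [mul_g, mkK_g, mkK_g, mkK_g, Pi.mul_apply]
          by_cases h' : C' = C
          · subst h'
            rw [Pi.mulSingle_eq_same, if_pos (Finset.mem_insert_self _ _), if_neg hC, mul_one]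
          · rw [Pi.mulSingle_eq_of_ne h', one_mul]
            congr 1
            rw [Finset.mem_insert, eq_iff_iff]
            exact ⟨fun h => h.resolve_left h', Or.inr⟩
      rw [this]
      exact S.mul_mem (h C) ih
  have := key Finset.univ
  simpa using this

private theorem stab_sum (S : Subgroup (KK l)) (σ : Sq l → ZMod 2) (c : Sq l → Gm)
    (h : ∀ C, σ C ≠ 0 → (mkK (sqc C) (Pi.mulSingle C (c C)) : KK l) ∈ S) :
    (mkK (fun e => ∑ C, σ C * sqc C e) (fun C => if σ C = 0 then 1 else c C) : KK l) ∈ S := by
  have key : ∀ T : Finset (Sq l), (mkK (fun e => ∑ C ∈ T, σ C * sqc C e)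
      (fun C => if C ∈ T then (if σ C = 0 then 1 else c C) else 1) : KK l) ∈ S := by
    intro T
    induction T using Finset.induction_on with
    | empty =>
      have : (mkK (fun e => ∑ C ∈ (∅ : Finset (Sq l)), σ C * sqc C e)
          (fun C => if C ∈ (∅ : Finset (Sq l)) then (if σ C = 0 then 1 else c C) else 1) : KK l) =
            1 := by
        apply KK.ext
        · funext e
          simp
        · funext C
          simp
      rw [this]
      exact S.one_mem
    | insert C T hC ih =>
      by_cases h0 : σ C = 0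
      · have : (mkK (fun e => ∑ C' ∈ insert C T, σ C' * sqc C' e)
            (fun C' => if C' ∈ insert C T then (if σ C' = 0 then 1 else c C') else 1) : KK l) =
            mkK (fun e => ∑ C' ∈ T, σ C' * sqc C' e)
            (fun C' => if C' ∈ T then (if σ C' = 0 then 1 else c C') else 1) := by
          apply KK.ext
          · funext e
            rw [mkK_z, mkK_z, Finset.sum_insert hC, h0, zero_mul, zero_add]
          · funext C'
            rw [mkK_g, mkK_g]
            by_cases h' : C' = C
            · subst h'
              rw [if_pos (Finset.mem_insert_self _ _), if_pos h0, if_neg hC]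
            · congr 1
              rw [Finset.mem_insert, eq_iff_iff]
              exact ⟨fun h => h.resolve_left h', Or.inr⟩
        rw [this]
        exact ih
      · have h1 : σ C = 1 := by
          revert h0
          generalize σ C = s
          revert s
          decide
        have : (mkK (fun e => ∑ C' ∈ insert C T, σ C' * sqc C' e)
            (fun C' => if C' ∈ insert C T then (if σ C' = 0 then 1 else c C') else 1) : KK l) =
            mkK (sqc C) (Pi.mulSingle C (c C)) * mkK (fun e => ∑ C' ∈ T, σ C' * sqc C' e)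
            (fun C' => if C' ∈ T then (if σ C' = 0 then 1 else c C') else 1) := by
          apply KK.ext
          · funext e
            rw [mul_z, mkK_z, mkK_z, mkK_z, Finset.sum_insert hC, h1, one_mul, Pi.add_apply]
          · funext C'
            rw [mul_g, mkK_g, mkK_g, mkK_g, Pi.mul_apply]
            by_cases h' : C' = C
            · subst h'
              rw [Pi.mulSingle_eq_same, if_pos (Finset.mem_insert_self _ _), if_neg hC, if_neg h0,
                mul_one]
            · rw [Pi.mulSingle_eq_of_ne h', one_mul]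
              congr 1
              rw [Finset.mem_insert, eq_iff_iff]
              exact ⟨fun h => h.resolve_left h', Or.inr⟩
        rw [this]
        exact S.mul_mem (h C h0) ih
  have := key Finset.univ
  simpa using this

/-- if `x` is fixed by the local groups of all squares outside `J`, then the coordinates of the
squares in `J` support `x` -/
theorem fix_of_sq (x : HF (AB (Al l) B)) (J : Finset (Sq l))
    (hJ : ∀ C, C ∉ J → ∀ g : Gm, mkK 0 (Pi.mulSingle C g) • x = x)
    (hl : J.biUnion cs ≠ Finset.univ) (k : KK l) (hk : k ∈ GG l)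
    (ht : Trv (A := Al l) pl (J.biUnion cs) k) : k • x = x := by
  set X := J.biUnion cs with hX
  set S : Subgroup (KK l) := MulAction.stabilizer (KK l) x with hS
  have memS : ∀ k' : KK l, k' ∈ S ↔ k' • x = x := fun k' => MulAction.mem_stabilizer_iff
  have trivS : ∀ k' : KK l, (∀ a : At l, k' • a = a) → k' ∈ S := fun k' h =>
    (memS k').2 (al_triv h x)
  have hk' : ∀ v, bdry k.z v = 0 := hk
  -- what `k` does at the vertices in `X ^ 3`
  have hat : ∀ a : At l, co a.v ⊆ X → k • a = a := by
    intro a ha
    have := ht (Sum.inl a) ha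
    rw [smul_inl] at this
    exact Sum.inl_injective this
  have hg : ∀ C u, sv C u → co u ⊆ X → k.g C = 1 ∨ k.g C = gmC := by
    intro C u hu hc
    apply om_faithful
    intro o
    have h1 := hat (mkA u (fun _ => o) 0) hc
    have h2 := congrArg (fun y => At.a y C) h1
    simp only [smul_a, mkA_v, mkA_a] at h2
    rwa [if_pos hu] at h2
  have hz : ∀ e u, ie e u → co u ⊆ X → ∀ a : Sq l → Om,
      k.z e + ∑ C ∈ Finset.univ.filter (fun C => se C e), cc (k.g C) (a C) = 0 := by
    intro e u hu hc a
    have h1 := hat (mkA u a 0) hc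
    have h2 := congrArg (fun y => At.w y e) h1
    simp only [smul_w, mkA_v, mkA_a, mkA_w] at h2
    rw [if_pos hu, Pi.zero_apply, zero_add] at h2
    exact h2
  -- the signs
  let s : Sq l → ZMod 2 := fun C => if (∃ u, sv C u ∧ co u ⊆ X) ∧ k.g C = gmC then 1 else 0
  have hs0 : ∀ C, s C ≠ 0 → (∃ u, sv C u ∧ co u ⊆ X) ∧ k.g C = gmC := by
    intro C hC
    by_contra hcon
    exact hC (if_neg hcon)
  let z' : Ed l → ZMod 2 := fun e => k.z e + ∑ C, s C * sqc C e
  have hz' : ∀ e u, ie e u → co u ⊆ X → z' e = 0 := by
    intro e u hu hc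
    have h1 := hz e u hu hc (fun _ => o0)
    have h2 : ∑ C ∈ Finset.univ.filter (fun C => se C e), cc (k.g C) (o0) =
        ∑ C, s C * sqc C e := by
      rw [Finset.sum_filter]
      apply Finset.sum_congr rfl
      intro C _
      unfold sqc
      by_cases hse : se C e
      · rw [if_pos hse, if_pos hse, mul_one]
        have hvu : sv C u := hse.2 u hu
        rcases hg C u hvu hc with h | h
        · have : s C = 0 := by
            by_contra hcon
            have := (hs0 C hcon).2
            rw [h] at this
            exact gmC_ne this.symm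
          rw [h, this, cc_one']
        · have : s C = 1 := if_pos ⟨⟨u, hvu, hc⟩, h⟩
          rw [h, this, cc_C]
      · rw [if_neg hse, if_neg hse, mul_zero]
    show k.z e + ∑ C, s C * sqc C e = 0
    rw [← h2]
    exact h1
  -- the part of `z'` at the real edges
  let z'' : Ed l → ZMod 2 := fun e => if ∃ u, ie e u then z' e else 0
  have hb' : ∀ v, bdry z' v = 0 := by
    intro v
    have h1 : z' = k.z + fun e => ∑ C, s C * sqc C e := rfl
    rw [h1, bdry_add, hk' v, zero_add]
    unfold bdry
    rw [Finset.sum_comm]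
    apply Finset.sum_eq_zero
    intro C _
    rw [← Finset.mul_sum]
    have := bdry_sqc C v
    unfold bdry at this
    rw [this, mul_zero]
  have hb'' : ∀ v, bdry z'' v = 0 := by
    intro v
    rw [← hb' v]
    unfold bdry
    apply Finset.sum_congr rfl
    intro e he
    exact if_pos ⟨v, (Finset.mem_filter.1 he).2⟩
  have h0'' : ∀ e, z'' e ≠ 0 → ∀ u, ie e u → ¬ co u ⊆ X := by
    intro e he u hu hc
    apply he
    show (if ∃ u, ie e u then z' e else 0) = 0
    rw [if_pos ⟨u, hu⟩]
    exact hz' e u hu hc
  have hv'' : ∀ e, (∀ u, ¬ ie e u) → z'' e = 0 := by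
    intro e he
    exact if_neg (by rintro ⟨u, hu⟩; exact he u hu)
  obtain ⟨σ, hσ1, hσ2⟩ := fill hl hb'' h0'' hv''
  have hσJ : ∀ C, σ C ≠ 0 → C ∉ J := by
    intro C hC hCJ
    obtain ⟨⟨u, hu⟩, hall⟩ := hσ2 C hC
    apply hall u hu
    exact (co_sub_cs hu).trans (Finset.subset_biUnion_of_mem cs hCJ)
  -- flips of squares outside `J`
  have hflip : ∀ C, C ∉ J → (mkK (sqc C) 1 : KK l) ∈ S := by
    intro C hC
    have h1 : (mkK (sqc C) (Pi.mulSingle C gmC) : KK l) ∈ S := trivS _ (kap_triv C)
    have h2 : (mkK 0 (Pi.mulSingle C gmC) : KK l) ∈ S := (memS _).2 (hJ C hC gmC)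
    have h3 : (mkK (sqc C) 1 : KK l) =
        mkK (sqc C) (Pi.mulSingle C gmC) * mkK 0 (Pi.mulSingle C gmC) := by
      apply KK.ext
      · rw [mul_z, mkK_z, mkK_z, mkK_z, add_zero]
      · funext C'
        rw [mul_g, mkK_g, mkK_g, mkK_g, Pi.mul_apply]
        by_cases h' : C' = C
        · subst h'
          rw [Pi.mulSingle_eq_same, gmC_sq, Pi.one_apply]
        · rw [Pi.mulSingle_eq_of_ne h', mul_one, Pi.one_apply]
    rw [h3]
    exact S.mul_mem h1 h2
  have hA : (mkK z'' 1 : KK l) ∈ S := by
    have h1 := stab_sum S σ (fun _ => 1) (by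
      intro C hC
      have h2 : (Pi.mulSingle C 1 : Sq l → Gm) = 1 := Pi.mulSingle_one C
      rw [h2]
      exact hflip C (hσJ C hC))
    have h2 : (mkK (fun e => ∑ C, σ C * sqc C e) (fun C => if σ C = 0 then 1 else 1) : KK l) =
        mkK z'' 1 := by
      apply KK.ext
      · funext e
        rw [mkK_z, mkK_z, hσ1 e]
      · funext C
        rw [mkK_g, mkK_g, ite_self, Pi.one_apply]
    rw [← h2]
    exact h1
  have hB : (mkK (z' + z'') 1 : KK l) ∈ S := by
    apply trivS
    apply edge_triv
    intro e u hu
    show z' e + z'' e = 0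
    have : z'' e = z' e := if_pos ⟨u, hu⟩
    rw [this]
    exact two_self _
  -- the signs
  have hC : (mkK (fun e => ∑ C, s C * sqc C e) (fun C => if s C = 0 then 1 else gmC) : KK l) ∈ S :=
    stab_sum S s (fun _ => gmC) (fun C _ => trivS _ (kap_triv C))
  -- the rest
  let g'' : Sq l → Gm := fun C => if s C = 0 then k.g C else 1
  have hD : (mkK 0 g'' : KK l) ∈ S := by
    apply stab_prod
    intro C
    by_cases hCJ : C ∈ J
    · by_cases hf : ∃ u, sv C u
      · obtain ⟨u, hu⟩ := hf
        have hc : co u ⊆ X := (co_sub_cs hu).trans (Finset.subset_biUnion_of_mem cs hCJ)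
        have h1 : g'' C = 1 := by
          show (if s C = 0 then k.g C else 1) = 1
          rcases hg C u hu hc with h | h
          · rw [h, ite_self]
          · have : s C = 1 := if_pos ⟨⟨u, hu, hc⟩, h⟩
            rw [this, if_neg (by decide)]
        rw [h1, Pi.mulSingle_one]
        exact S.one_mem
      · exact trivS _ (fake_triv (fun u hu => hf ⟨u, hu⟩) _)
    · exact (memS _).2 (hJ C hCJ _)
  have hfin : k = mkK z'' 1 * mkK (z' + z'') 1 *
      mkK (fun e => ∑ C, s C * sqc C e) (fun C => if s C = 0 then 1 else gmC) * mkK 0 g'' := by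
    apply KK.ext
    · funext e
      simp only [mul_z, mkK_z, Pi.add_apply, Pi.zero_apply, add_zero]
      show k.z e = z'' e + (k.z e + ∑ C, s C * sqc C e + z'' e) + ∑ C, s C * sqc C e
      generalize z'' e = a
      generalize k.z e = b
      generalize ∑ C, s C * sqc C e = c
      revert a b c
      decide
    · funext C
      simp only [mul_g, mkK_g, Pi.mul_apply, Pi.one_apply, one_mul]
      show k.g C = (if s C = 0 then 1 else gmC) * (if s C = 0 then k.g C else 1)
      by_cases h : s C = 0
      · rw [if_pos h, if_pos h, one_mul]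
      · rw [if_neg h, if_neg h, mul_one]
        exact (hs0 C h).2
  rw [← memS, hfin]
  exact S.mul_mem (S.mul_mem (S.mul_mem hA hB) hC) hD

/-- few squares have a local group that does not fix an object with a small orbit -/
theorem few_sq (Q : ℕ) (x : HF (AB (Al l) B)) (hx : (orb (GG l) x).card ≤ Q) :
    ∃ J : Finset (Sq l), J.card ≤ 2 * Nat.log 2 Q + 1 ∧
      ∀ C, C ∉ J → ∀ g : Gm, mkK 0 (Pi.mulSingle C g) • x = x := by
  let φ : (Sq l → Gm) →* KK l :=
    { toFun := fun g => mkK 0 g
      map_one' := rfl
      map_mul' := by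
        intro g g'
        apply KK.ext
        · rw [mul_z, mkK_z, mkK_z, mkK_z, add_zero]
        · rfl }
  letI : MulAction (Sq l → Gm) (HF (AB (Al l) B)) := MulAction.compHom _ φ
  have hsm : ∀ (g : Sq l → Gm) (y : HF (AB (Al l) B)), g • y = (mkK 0 g : KK l) • y :=
    fun g y => rfl
  set H : Subgroup (Sq l → Gm) := MulAction.stabilizer (Sq l → Gm) x with hH
  have hidx : H.index ≤ Q := by
    rw [hH, MulAction.index_stabilizer]
    refine le_trans ?_ hx
    rw [← Set.ncard_coe_finset]
    apply Set.ncard_le_ncard
    · rintro y ⟨g, rfl⟩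
      simp only [orb, Finset.coe_image, Set.mem_image, Finset.mem_coe, Finset.mem_filter,
        Finset.mem_univ, true_and]
      refine ⟨mkK 0 g, ?_, rfl⟩
      intro v
      show bdry (0 : Ed l → ZMod 2) v = 0
      unfold bdry
      exact Finset.sum_eq_zero fun e _ => rfl
    · exact Finset.finite_toSet _
  have hp := perfect_pi (ι := Sq l) gm_perfect H
  refine ⟨Finset.univ.filter (fun C => ¬ ∀ g : Gm, Pi.mulSingle C g ∈ H), ?_, ?_⟩
  · have h1 : 2 ^ (Finset.univ.filter (fun C => ¬ ∀ g : Gm, Pi.mulSingle C g ∈ H)).card <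
        2 ^ (2 * (Nat.log 2 Q + 1)) := by
      refine lt_of_le_of_lt hp ?_
      have h2 : H.index < 2 ^ (Nat.log 2 Q + 1) :=
        lt_of_le_of_lt hidx (Nat.lt_pow_succ_log_self (by norm_num) Q)
      calc H.index ^ 2 < (2 ^ (Nat.log 2 Q + 1)) ^ 2 := Nat.pow_lt_pow_left h2 (by norm_num)
        _ = 2 ^ (2 * (Nat.log 2 Q + 1)) := by rw [← pow_mul, mul_comm]
    have h3 := (Nat.pow_lt_pow_iff_right (by norm_num : 1 < 2)).1 h1
    omega
  · intro C hC g
    have h1 : ∀ g : Gm, Pi.mulSingle C g ∈ H := by
      by_contra hcon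
      exact hC (Finset.mem_filter.2 ⟨Finset.mem_univ _, hcon⟩)
    exact MulAction.mem_stabilizer_iff.1 (h1 g)

theorem card_pl (v0 : Vx l) (x : AB (Al l) B) : (((frm v0).ext B).pl x).card ≤ 6 := by
  rcases AB.cases x with ⟨a, rfl⟩ | ⟨b, rfl⟩
  · show (pl a).card ≤ 6
    rcases a with a | p
    · exact (card_co a.v).trans (by norm_num)
    · exact (Finset.card_union_le _ _).trans (Nat.add_le_add (card_co p.1.v) (card_co p.2.v))
  · show (∅ : Finset (Fin l)).card ≤ 6
    simp

theorem sup_exists (v0 : Vx l) (Q : ℕ) (hl : 10 * Nat.log 2 Q + 7 ≤ l) (x : HF (AB (Al l) B))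
    (hx : (orb ((frm v0).ext B).G x).card ≤ Q) :
    ∃ X : Finset (Fin l), X.card ≤ 10 * Nat.log 2 Q + 6 ∧
      Supp ((frm v0).ext B).pl ((frm v0).ext B).G X x := by
  rcases HF.cases' x with ⟨a, rfl⟩ | ⟨t, rfl⟩
  · refine ⟨((frm v0).ext B).pl a, (card_pl v0 a).trans (by omega), ?_, ?_⟩
    · intro g _ ht
      rw [HF.smul_atom, ht a (Finset.Subset.refl _)]
    · intro b hb
      rw [HF.atom_inj hb]
  · obtain ⟨J, hJ1, hJ2⟩ := few_sq Q (HF.mk t) hx
    have hcard : (J.biUnion cs).card ≤ 10 * Nat.log 2 Q + 5 := by
      refine (Finset.card_biUnion_le_card_mul J cs 5 fun C _ => card_cs C).trans ?_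
      omega
    refine ⟨J.biUnion cs, hcard.trans (by omega), ?_, ?_⟩
    · intro g hg ht
      apply fix_of_sq (HF.mk t) J hJ2 _ g hg
      · intro a ha
        have h1 := ht (AB.l a) ha
        rw [AB.smul_l] at h1
        exact AB.l_inj h1
      · intro hcon
        have h1 : (J.biUnion cs).card = l := by
          rw [hcon, Finset.card_univ, Fintype.card_fin]
        omega
    · intro a ha
      exact absurd ha.symm (HF.atom_ne_mk a t)

end Pool.Agent.CPT
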