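import Pool.Agent.CPT.Deg
import Pool.Agent.CPT.Ab

/-!
# The twins: pairs of graphs, single graphs
-/

set_option autoImplicit false

namespace Pool.Agent.CPT

open Finset Classical

variable {l : ℕ}

/-- the colour of a vertex: the number of its first place -/
noncomputable def col (x : Al l) : ℕ := (Fintype.equivFin (Vx l) (Deg_fv x)).val

theorem col_smul (k : KK l) (x : Al l) : col (k • x) = col x := by
  rcases x with x | p <;> rfl

private theorem tw_mem_l {B : Type} (S : Finset (Al l)) (T : Finset (AB (Al l) B))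
    (hT : ∀ a, (AB.l a : AB (Al l) B) ∉ T) (a : Al l) :
    (AB.l a : AB (Al l) B) ∈ S.image AB.l ∪ T ↔ a ∈ S := by
  rw [Finset.mem_union, or_iff_left (hT a), Finset.mem_image]
  constructor
  · rintro ⟨b, hb, h⟩
    rwa [← AB.l_inj h]
  · intro h
    exact ⟨a, h, rfl⟩

private theorem tw_l_ne_r {B : Type} (a : Al l) (b : B) : (AB.l a : AB (Al l) B) ≠ AB.r b := by
  intro h
  cases h

private theorem tw_not_r {B : Type} [Fintype B] (a : Al l) :
    (AB.l a : AB (Al l) B) ∉ Finset.univ.image AB.r := by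
  rw [Finset.mem_image]
  rintro ⟨b, _, h⟩
  exact tw_l_ne_r a b h.symm

private theorem tw_inv {B : Type} [Fintype B] {S S' : Finset (Al l)} (k : KK l)
    (x : AB (Al l) B) (h : ∀ a, x = AB.l a → (k • a ∈ S' ↔ a ∈ S)) :
    k • x ∈ S'.image AB.l ∪ Finset.univ.image AB.r ↔
      x ∈ S.image AB.l ∪ Finset.univ.image AB.r := by
  rcases AB.cases x with ⟨a, rfl⟩ | ⟨b, rfl⟩
  · rw [AB.smul_l, tw_mem_l _ _ tw_not_r, tw_mem_l _ _ tw_not_r]
    exact h a rfl
  · rw [AB.smul_r]
    have hb : (AB.r b : AB (Al l) B) ∈ Finset.univ.image AB.r :=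
      Finset.mem_image_of_mem _ (Finset.mem_univ b)
    exact ⟨fun _ => Finset.mem_union_right _ hb, fun _ => Finset.mem_union_right _ hb⟩

private theorem tw_inv' {S S' : Finset (Al l)} (k : KK l)
    (x : AB (Al l) Empty) (h : ∀ a, x = AB.l a → (k • a ∈ S' ↔ a ∈ S)) :
    k • x ∈ S'.image AB.l ↔ x ∈ S.image AB.l := by
  rcases AB.cases x with ⟨a, rfl⟩ | ⟨b, rfl⟩
  · have h1 := tw_mem_l (B := Empty) S' ∅ (fun a => Finset.notMem_empty _) (k • a)
    have h2 := tw_mem_l (B := Empty) S ∅ (fun a => Finset.notMem_empty _) a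
    rw [Finset.union_empty] at h1 h2
    rw [AB.smul_l, h1, h2]
    exact h a rfl
  · exact b.elim

/-- the structure of the pair on atoms -/
def prAB {B : Type} (r : B → B → Prop) (c : B → ℕ) (o : B → B → Prop) :
    Str PrV (AB (Al l) B) :=
  fun s x => prStr r c o adj col s (fun i => AB.elim Sum.inr Sum.inl (x i))

theorem pr_congr {V W : Type} (r : V → V → Prop) (c : V → ℕ) (o : V → V → Prop)
    (r' : W → W → Prop) (c' : W → ℕ) (s : Fin 3) (x : Fin 2 → V ⊕ W) :
    prStr r c o r' c' s x ↔ prStr r c o r' c' s ![x 0, x 1] := by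
  fin_cases s <;> simp [prStr]

private theorem tw_inv2 {B : Type} (r : B → B → Prop) (c : B → ℕ) (o : B → B → Prop) (k : KK l)
    (s : Fin 3) (y z : AB (Al l) B) :
    prStr r c o adj col s ![AB.elim Sum.inr Sum.inl (k • y), AB.elim Sum.inr Sum.inl (k • z)] ↔
      prStr r c o adj col s ![AB.elim Sum.inr Sum.inl y, AB.elim Sum.inr Sum.inl z] := by
  rcases AB.cases y with ⟨a, rfl⟩ | ⟨b, rfl⟩ <;> rcases AB.cases z with ⟨a', rfl⟩ | ⟨b', rfl⟩ <;>
    fin_cases s <;> simp [prStr, adj_smul, col_smul]

/-- the twins for pairs: a fixed graph `r` on `B` is the first graph -/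
noncomputable def twP (v0 : Vx l) (B : Type) [Fintype B] (r : B → B → Prop) (c : B → ℕ)
    (o : B → B → Prop) : Twin PrV (AB (Al l) B) (Fin l) (KK l) where
  F := (frm v0).ext B
  U0 := (Finset.univ.filter (InU 0)).image AB.l ∪ Finset.univ.image AB.r
  U1 := (Finset.univ.filter (InU (tw v0))).image AB.l ∪ Finset.univ.image AB.r
  S := prAB r c o
  inv := by
    intro k s x
    have key : ∀ f : Fin 2 → AB (Al l) B,
        prStr r c o adj col s (fun i => AB.elim Sum.inr Sum.inl (k • f i)) ↔
        prStr r c o adj col s (fun i => AB.elim Sum.inr Sum.inl (f i)) := fun f =>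
      ((pr_congr r c o adj col s _).trans (tw_inv2 r c o k s (f 0) (f 1))).trans
        (pr_congr r c o adj col s _).symm
    exact key x
  inv0 := by
    intro g hg x
    exact tw_inv g x fun a _ => (twn v0).inv0 g hg a
  inv1 := by
    intro g hg x
    exact tw_inv g x fun a _ => (twn v0).inv1 g hg a
  loc := by
    intro X k hk x hx
    refine tw_inv k x fun a ha => (twn v0).loc X k hk a ?_
    rw [ha] at hx
    exact hx

/-- the structure of a single graph on atoms -/
def grAB : Str GrV (AB (Al l) Empty) :=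
  fun s x => grStr adj col s (fun i => AB.elim id Empty.elim (x i))

/-- the twins for single graphs -/
noncomputable def twS (v0 : Vx l) : Twin GrV (AB (Al l) Empty) (Fin l) (KK l) where
  F := (frm v0).ext Empty
  U0 := (Finset.univ.filter (InU 0)).image AB.l
  U1 := (Finset.univ.filter (InU (tw v0))).image AB.l
  S := grAB
  inv := by
    intro k s x
    have key : ∀ (s : Fin 2) (f : Fin 2 → AB (Al l) Empty),
        grStr adj col s (fun i => AB.elim id Empty.elim (k • f i)) ↔
        grStr adj col s (fun i => AB.elim id Empty.elim (f i)) := by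
      intro s f
      rcases AB.cases (f 0) with ⟨a, h0⟩ | ⟨b, h0⟩
      · rcases AB.cases (f 1) with ⟨a', h1⟩ | ⟨b', h1⟩
        · fin_cases s <;> simp [grStr, h0, h1, adj_smul, col_smul]
        · exact b'.elim
      · exact b.elim
    exact key s x
  inv0 := by
    intro g hg x
    exact tw_inv' g x fun a _ => (twn v0).inv0 g hg a
  inv1 := by
    intro g hg x
    exact tw_inv' g x fun a _ => (twn v0).inv1 g hg a
  loc := by
    intro X k hk x hx
    refine tw_inv' k x fun a ha => (twn v0).loc X k hk a ?_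
    rw [ha] at hx
    exact hx

end Pool.Agent.CPT
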