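import Pool.Agent.CPT.EvT
import Pool.Agent.CPT.EvM
import Pool.Agent.CPT.Sup
import Pool.Agent.CPT.Tw
import Pool.Agent.CPT.Num
import Pool.Agent.CPT.Deg

/-!
# Choiceless programs do not distinguish the twins
-/

set_option autoImplicit false

namespace Pool.Agent.CPT

open Finset Classical

variable {l : ℕ}

/-- the corner of the grid -/
def v0c (l : ℕ) (h : 0 < l) : Vx l := fun _ => ⟨0, h⟩

/-- the vertices of the graph with parities `τ` -/
abbrev VG (l : ℕ) (τ : Vx l → ZMod 2) : Type := {x : Al l // InU τ x}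

theorem th_nonempty (v0 : Vx l) : (Tht v0 (∅ : Finset (Fin l))).Nonempty := by
  refine ⟨1, v0, ?_, ?_⟩
  · intro h
    have : v0 0 ∈ co v0 := Finset.mem_image_of_mem _ (Finset.mem_univ _)
    simpa using h this
  · intro v
    simp only [one_z, tw]
    have h2 : ∀ a : ZMod 2, a + a = 0 := by decide
    rw [h2]
    simp [bdry]

theorem twS_U0 (v0 : Vx l) : (twS v0).U0 = (Finset.univ.filter (InU 0)).image AB.l := rfl
theorem twS_U1 (v0 : Vx l) : (twS v0).U1 = (Finset.univ.filter (InU (tw v0))).image AB.l := rfl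

theorem card_U (h : 55 ≤ l) : Fintype.card (VG l (tw (v0c l (by omega)))) =
    Fintype.card (VG l 0) := by
  have h1 := twin_card (twS (v0c l (by omega))) 6 (card_pl _) (th_nonempty _)
    (by show 9 * 6 ≤ l - 1; omega)
  rw [twS_U0, twS_U1, Finset.card_image_of_injective _ (fun a b h => AB.l_inj h),
    Finset.card_image_of_injective _ (fun a b h => AB.l_inj h)] at h1
  rw [Fintype.card_subtype, Fintype.card_subtype]
  exact h1.symm

/-- the vertices of a pair of graphs as atoms -/
def prAt (τ : Vx l → ZMod 2) (x : VG l 0 ⊕ VG l τ) : AB (Al l) (VG l 0) :=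
  Sum.elim (fun v => AB.r v) (fun w => AB.l w.1) x

/-- the colouring of the graph -/
noncomputable def cl (τ : Vx l → ZMod 2) (x : VG l τ) : ℕ := col x.1

theorem prAB_comp (τ : Vx l → ZMod 2) (c : VG l 0 → ℕ) (o : VG l 0 → VG l 0 → Prop) :
    (fun (r : PrV.R) (x : Fin (PrV.ar r) → VG l 0 ⊕ VG l τ) =>
      prAB (XG l 0).Adj c o r (fun i => prAt τ (x i))) =
    prStr (XG l 0).Adj c o (XG l τ).Adj (cl τ) := by
  funext r x
  have h : ∀ (s : Fin 3) (f : Fin 2 → VG l 0 ⊕ VG l τ),
      prAB (XG l 0).Adj c o s (fun i => prAt τ (f i)) =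
      prStr (XG l 0).Adj c o (XG l τ).Adj (cl τ) s f := by
    intro s f
    rcases h0 : f 0 with v | v <;> rcases h1 : f 1 with w | w <;>
      fin_cases s <;> simp [prAB, prStr, prAt, h0, h1, XG, cl]
  exact h r x

/-- pairs of graphs -/
theorem pair_same (v0 : Vx l) (ns b N : ℕ) (t : Tm PrV) (c : VG l 0 → ℕ)
    (o : VG l 0 → VG l 0 → Prop)
    (hN : ∀ τ : Vx l → ZMod 2, Fintype.card (VG l τ) ≤ N)
    (e : ℕ) (he : ∀ b q : ℕ, t.bd b q 0 ≤ (b + q + 2) ^ e)
    (hl : (t.dep + 10) * (10 * Nat.log 2 ((max b (N + N) + 2) ^ e) + 6) + 1 ≤ l) :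
    Accepts (prStr (XG l 0).Adj c o (XG l 0).Adj (cl 0)) t ns b ↔
      Accepts (prStr (XG l 0).Adj c o (XG l (tw v0)).Adj (cl (tw v0))) t ns b := by
  set B := max b (N + N) with hB
  set Q := (B + 2) ^ e with hQ
  set s := 10 * Nat.log 2 Q + 6 with hs
  let P := twP v0 (VG l 0) (XG l 0).Adj c o
  have hf : ∀ τ : Vx l → ZMod 2, Function.Injective
      (fun x : VG l 0 ⊕ VG l τ => prAt τ x) := by
    intro τ x y hxy
    rcases x with x | x <;> rcases y with y | y
    · exact congrArg Sum.inl (AB.r_inj hxy)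
    · exact absurd hxy (by intro h; cases h)
    · exact absurd hxy (by intro h; cases h)
    · exact congrArg Sum.inr (Subtype.ext (AB.l_inj hxy))
  have hS : ∀ τ : Vx l → ZMod 2, (fun (r : PrV.R) (x : Fin (PrV.ar r) → VG l 0 ⊕ VG l τ) =>
      P.S r (fun i => prAt τ (x i))) =
      prStr (XG l 0).Adj c o (XG l τ).Adj (cl τ) := fun τ => prAB_comp τ c o
  have hU : ∀ τ : Vx l → ZMod 2, Finset.univ.image (fun x : VG l 0 ⊕ VG l τ => prAt τ x) =
      (Finset.univ.filter (InU τ)).image AB.l ∪ Finset.univ.image AB.r := by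
    intro τ
    ext z
    simp only [mem_image, mem_univ, true_and, mem_union, mem_filter, Sum.exists, prAt, Sum.elim_inl,
      Sum.elim_inr, Subtype.exists, exists_prop]
    rw [or_comm]
  have h0 := accepts_iff _ (hf 0) P.S ns b t
  have h1 := accepts_iff _ (hf (tw v0)) P.S ns b t
  rw [hS, hU] at h0 h1
  rw [h0, h1]
  have hcard : P.U0.card ≤ B := by
    show ((Finset.univ.filter (InU 0)).image AB.l ∪ Finset.univ.image AB.r).card ≤ B
    refine (card_union_le _ _).trans ?_
    have h2 : ((Finset.univ.filter (InU (l := l) 0)).image (AB.l (B := VG l 0))).card ≤ N := by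
      refine card_image_le.trans ?_
      have := hN 0
      rwa [Fintype.card_subtype] at this
    have h3 : ((Finset.univ : Finset (VG l 0)).image (AB.r (A := Al l))).card ≤ N :=
      card_image_le.trans (hN 0)
    omega
  have hdep : (10 : ℕ) * s ≤ (t.dep + 10) * s := Nat.mul_le_mul_right _ (by omega)
  have hdep' : t.dep * s ≤ (t.dep + 10) * s := Nat.mul_le_mul_right _ (by omega)
  exact twin_same P ns b B s Q hcard (le_max_left _ _) (fun a => (card_pl v0 a).trans (by omega))
    (fun x hx => sup_exists v0 Q (by omega) x hx) (th_nonempty v0) t (by simpa using he B 0)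
    (by show t.dep * s ≤ l - 1; omega)

/-- single graphs -/
theorem single_same (v0 : Vx l) (ns b N : ℕ) (t : Tm GrV)
    (hN : ∀ τ : Vx l → ZMod 2, Fintype.card (VG l τ) ≤ N)
    (e : ℕ) (he : ∀ b q : ℕ, t.bd b q 0 ≤ (b + q + 2) ^ e)
    (hl : (t.dep + 10) * (10 * Nat.log 2 ((max b (N + N) + 2) ^ e) + 6) + 1 ≤ l) :
    Accepts (grStr (XG l 0).Adj (cl 0)) t ns b ↔
      Accepts (grStr (XG l (tw v0)).Adj (cl (tw v0))) t ns b := by
  set B := max b (N + N) with hB
  set Q := (B + 2) ^ e with hQ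
  set s := 10 * Nat.log 2 Q + 6 with hs
  let P := twS v0
  have hf : ∀ τ : Vx l → ZMod 2, Function.Injective
      (fun x : VG l τ => (AB.l x.1 : AB (Al l) Empty)) := by
    intro τ x y hxy
    exact Subtype.ext (AB.l_inj hxy)
  have hS : ∀ τ : Vx l → ZMod 2, (fun (r : GrV.R) (x : Fin (GrV.ar r) → VG l τ) =>
      P.S r (fun i => (AB.l (x i).1 : AB (Al l) Empty))) = grStr (XG l τ).Adj (cl τ) := by
    intro τ
    funext r x
    have h : ∀ (s : Fin 2) (f : Fin 2 → VG l τ),
        grAB s (fun i => (AB.l (f i).1 : AB (Al l) Empty)) =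
          grStr (XG l τ).Adj (cl τ) s f := by
      intro s f
      fin_cases s <;> rfl
    exact h r x
  have hU : ∀ τ : Vx l → ZMod 2, Finset.univ.image (fun x : VG l τ =>
      (AB.l x.1 : AB (Al l) Empty)) = (Finset.univ.filter (InU τ)).image AB.l := by
    intro τ
    ext z
    simp only [mem_image, mem_univ, true_and, mem_filter, Subtype.exists, exists_prop]
  have h0 := accepts_iff _ (hf 0) P.S ns b t
  have h1 := accepts_iff _ (hf (tw v0)) P.S ns b t
  rw [hS, hU] at h0 h1
  rw [h0, h1]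
  have hcard : P.U0.card ≤ B := by
    show ((Finset.univ.filter (InU 0)).image AB.l).card ≤ B
    refine card_image_le.trans ?_
    have h3 := hN 0
    rw [Fintype.card_subtype] at h3
    refine h3.trans ?_
    omega
  have hdep : (10 : ℕ) * s ≤ (t.dep + 10) * s := Nat.mul_le_mul_right _ (by omega)
  have hdep' : t.dep * s ≤ (t.dep + 10) * s := Nat.mul_le_mul_right _ (by omega)
  exact twin_same P ns b B s Q hcard (le_max_left _ _) (fun a => (card_pl v0 a).trans (by omega))
    (fun x hx => sup_exists v0 Q (by omega) x hx) (th_nonempty v0) t (by simpa using he B 0)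
    (by show t.dep * s ≤ l - 1; omega)

end Pool.Agent.CPT
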