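import Pool.Agent.CPT.HF

/-!
# BGS logic (the definitions are in `Def.lean`)
-/
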