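import Mathlib

/-!
# Choiceless polynomial time with counting: definitions

`HF A` are the hereditarily finite sets over a type `A` of atoms, together with the atoms.

`Tm Γ` are the terms of BGS logic (Blass, Gurevich, Shelah; Graedel, Grohe; Rossman) over a
relational vocabulary `Γ`: set-theoretic terms over the hereditarily finite sets whose atoms are the
elements of the input structure, with comprehension, cardinality and bounded iteration (nesting and
parameters are allowed). Truth values are the sets `0 = ∅` and `1 = {∅}`. Variables are de Bruijn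
indices.
-/

set_option autoImplicit false

namespace Pool.Agent.CPT

open Finset Classical

/-! ### Hereditarily finite sets over a type of atoms -/

/-- finite trees whose leaves may be atoms -/
inductive Pre (A : Type) : Type
  | atom (a : A) : Pre A
  | node (n : ℕ) (f : Fin n → Pre A) : Pre A

namespace Pre

variable {A : Type}

/-- extensional equality -/
def Eqv : Pre A → Pre A → Prop
  | atom a, atom b => a = b
  | node n f, node m g => (∀ i : Fin n, ∃ j : Fin m, Eqv (f i) (g j)) ∧
      (∀ j : Fin m, ∃ i : Fin n, Eqv (f i) (g j))
  | atom _, node _ _ => False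
  | node _ _, atom _ => False

theorem eqv_refl (x : Pre A) : Eqv x x := by
  induction x with
  | atom a => simp only [Eqv]
  | node n f ih => exact ⟨fun i => ⟨i, ih i⟩, fun i => ⟨i, ih i⟩⟩

theorem eqv_symm {x y : Pre A} (h : Eqv x y) : Eqv y x := by
  induction x generalizing y with
  | atom a =>
    cases y with
    | atom b => simp only [Eqv] at h ⊢; exact h.symm
    | node m g => simp only [Eqv] at h
  | node n f ih =>
    cases y with
    | atom b => simp only [Eqv] at h
    | node m g =>
      simp only [Eqv] at h ⊢
      refine ⟨fun j => ?_, fun i => ?_⟩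
      · obtain ⟨i, hi⟩ := h.2 j
        exact ⟨i, ih i hi⟩
      · obtain ⟨j, hj⟩ := h.1 i
        exact ⟨j, ih i hj⟩

theorem eqv_trans {x y z : Pre A} (h : Eqv x y) (h' : Eqv y z) : Eqv x z := by
  induction x generalizing y z with
  | atom a =>
    cases y with
    | atom b =>
      cases z with
      | atom c => simp only [Eqv] at h h' ⊢; exact h.trans h'
      | node m g => simp only [Eqv] at h'
    | node m g => simp only [Eqv] at h
  | node n f ih =>
    cases y with
    | atom b => simp only [Eqv] at h
    | node m g =>
      cases z with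
      | atom c => simp only [Eqv] at h'
      | node k r =>
        simp only [Eqv] at h h' ⊢
        refine ⟨fun i => ?_, fun l => ?_⟩
        · obtain ⟨j, hj⟩ := h.1 i
          obtain ⟨l, hl⟩ := h'.1 j
          exact ⟨l, ih i hj hl⟩
        · obtain ⟨j, hj⟩ := h'.2 l
          obtain ⟨i, hi⟩ := h.2 j
          exact ⟨i, ih i hi hj⟩

instance setoid (A : Type) : Setoid (Pre A) := ⟨Eqv, eqv_refl, eqv_symm, eqv_trans⟩

end Pre

/-- the hereditarily finite sets (and the atoms) over `A` -/
def HF (A : Type) : Type := Quotient (Pre.setoid A)

namespace HF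

variable {A : Type}

noncomputable instance decEq : DecidableEq (HF A) := fun a b => Classical.propDecidable (a = b)

/-- the object of a tree -/
def ofPre (t : Pre A) : HF A := Quotient.mk _ t

/-- atoms as objects -/
def atom (a : A) : HF A := ofPre (Pre.atom a)

/-- the elements of an object; an atom has no elements -/
noncomputable def elems (x : HF A) : Finset (HF A) :=
  Quotient.lift (s := Pre.setoid A) (fun t : Pre A => match t with
    | Pre.atom _ => (∅ : Finset (HF A))
    | Pre.node _ f => Finset.univ.image (fun i => ofPre (f i)))
    (by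
      intro a b hab
      have hab' : Pre.Eqv a b := hab
      cases a with
      | atom a =>
        cases b with
        | atom b => rfl
        | node m g => simp only [Pre.Eqv] at hab'
      | node n f =>
        cases b with
        | atom b => simp only [Pre.Eqv] at hab'
        | node m g =>
          simp only [Pre.Eqv] at hab'
          ext y
          simp only [Finset.mem_image, Finset.mem_univ, true_and]
          constructor
          · rintro ⟨i, rfl⟩
            obtain ⟨j, hj⟩ := hab'.1 i
            exact ⟨j, Quotient.sound (Pre.eqv_symm hj)⟩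
          · rintro ⟨j, rfl⟩
            obtain ⟨i, hi⟩ := hab'.2 j
            exact ⟨i, Quotient.sound hi⟩) x

/-- the set with given elements -/
noncomputable def mk (s : Finset (HF A)) : HF A :=
  ofPre (Pre.node s.card (fun i => Quotient.out (s.equivFin.symm i).1))

/-- the empty set -/
noncomputable def emp : HF A := mk ∅

/-- von Neumann ordinals -/
noncomputable def ord : ℕ → HF A
  | 0 => emp
  | n + 1 => mk (insert (ord n) (elems (ord n)))

/-- the number of objects in the transitive closure of `{x}`, i.e. the number of all `y` with
`y = x` or `y ∈ y_1 ∈ … ∈ x` -/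
noncomputable def size (x : HF A) : ℕ :=
  Set.ncard {y : HF A | Relation.ReflTransGen (fun u v => u ∈ elems v) y x}

/-- truth values -/
noncomputable def tv (p : Prop) : HF A := if p then ord 1 else ord 0

/-- `{x, y}` -/
noncomputable def pr (x y : HF A) : HF A := mk {x, y}

/-- the union of the elements of `x` -/
noncomputable def un (x : HF A) : HF A := mk ((elems x).biUnion elems)

/-- the unique element of `x`, or `∅` -/
noncomputable def uq (x : HF A) : HF A := if h : ∃ y, elems x = {y} then h.choose else emp

/-- bounded iteration of `f` from `∅`: if a fixed point is reached after at most `a` steps and all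
stages up to this one have size at most `b`, the result is the fixed point; otherwise it is `∅` -/
noncomputable def itr (a b : ℕ) (f : HF A → HF A) : HF A :=
  if h : ∃ i : ℕ, i ≤ a ∧ f (f^[i] emp) = f^[i] emp ∧ ∀ j ≤ i, size (f^[j] emp) ≤ b then
    f^[Nat.find h] emp else emp

end HF

/-! ### Structures -/

/-- a relational vocabulary -/
structure Voc where
  /-- relation symbols -/
  R : Type
  /-- arities -/
  ar : R → ℕ

/-- a structure over the vocabulary `Γ` with elements in `A` -/
abbrev Str (Γ : Voc) (A : Type) : Type := (r : Γ.R) → (Fin (Γ.ar r) → A) → Prop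

/-- the vocabulary of graphs with ordered colours: adjacency (`0`) and comparison of the colours
(`1`), both binary -/
def GrV : Voc where
  R := Fin 2
  ar := fun _ => 2

/-- a graph with colouring `c` as a structure -/
def grStr {V : Type} (r : V → V → Prop) (c : V → ℕ) : Str GrV V := fun s x =>
  (![r (x (0 : Fin 2)) (x (1 : Fin 2)), c (x (0 : Fin 2)) ≤ c (x (1 : Fin 2))] : Fin 2 → Prop) s

/-- the vocabulary of pairs of graphs: adjacency (`0`), comparison of the colours (`1`) and an order
of the vertices of the first graph (`2`), all binary -/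
def PrV : Voc where
  R := Fin 3
  ar := fun _ => 2

/-- a pair of graphs with colourings, the first one with an order `o` of its vertices, as a structure
on the disjoint union of the vertices -/
def prStr {V W : Type} (r : V → V → Prop) (c : V → ℕ) (o : V → V → Prop) (r' : W → W → Prop)
    (c' : W → ℕ) : Str PrV (V ⊕ W) := fun s x =>
  (![Sum.LiftRel r r' (x (0 : Fin 2)) (x (1 : Fin 2)),
    Sum.elim c c' (x (0 : Fin 2)) ≤ Sum.elim c c' (x (1 : Fin 2)),
    Sum.LiftRel o (fun _ _ => False) (x (0 : Fin 2)) (x (1 : Fin 2))] : Fin 3 → Prop) s

/-! ### BGS logic with counting -/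

/-- terms of BGS logic with counting -/
inductive Tm (Γ : Voc) : Type
  /-- a variable -/
  | var (i : ℕ) : Tm Γ
  /-- the empty set -/
  | empty : Tm Γ
  /-- the set of all atoms -/
  | atoms : Tm Γ
  /-- `{s, t}` -/
  | pair (s t : Tm Γ) : Tm Γ
  /-- the union of the elements of `t` -/
  | union (t : Tm Γ) : Tm Γ
  /-- the element of `t`, if `t` has exactly one element, otherwise `∅` -/
  | uniq (t : Tm Γ) : Tm Γ
  /-- the number of elements of `t`, as a von Neumann ordinal -/
  | card (t : Tm Γ) : Tm Γ
  /-- truth value of `s = t` -/
  | eq (s t : Tm Γ) : Tm Γ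
  /-- truth value of `s ∈ t` -/
  | mem (s t : Tm Γ) : Tm Γ
  /-- truth value of an atomic formula `r (t_0, …)` of the input structure -/
  | rel (r : Γ.R) (ts : Fin (Γ.ar r) → Tm Γ) : Tm Γ
  /-- negation: `1` if `t = 0`, otherwise `0` -/
  | neg (t : Tm Γ) : Tm Γ
  /-- conjunction: `1` if `s ≠ 0` and `t ≠ 0`, otherwise `0` -/
  | and (s t : Tm Γ) : Tm Γ
  /-- comprehension `{s(x) : x ∈ t, c(x) ≠ 0}`; in `s` and `c` the variable `0` is `x` -/
  | comp (s t c : Tm Γ) : Tm Γ
  /-- iteration: the fixed point of `∅, t(∅), t(t(∅)), …`; in `t` the variable `0` is iterated -/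
  | iter (t : Tm Γ) : Tm Γ

/-- the value of a term; `U` is the set of atoms, `S` the structure, `a` and `b` the bounds for the
number of steps and the size of the stages of the iterations, `ρ` the list of the values of the
variables (variables outside the list are `∅`) -/
noncomputable def eval {Γ : Voc} {A : Type} (U : Finset A) (S : Str Γ A) (a b : ℕ) :
    Tm Γ → List (HF A) → HF A
  | .var i, ρ => ρ.getD i HF.emp
  | .empty, _ => HF.emp
  | .atoms, _ => HF.mk (U.image HF.atom)
  | .pair s t, ρ => HF.pr (eval U S a b s ρ) (eval U S a b t ρ)
  | .union t, ρ => HF.un (eval U S a b t ρ)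
  | .uniq t, ρ => HF.uq (eval U S a b t ρ)
  | .card t, ρ => HF.ord (HF.elems (eval U S a b t ρ)).card
  | .eq s t, ρ => HF.tv (eval U S a b s ρ = eval U S a b t ρ)
  | .mem s t, ρ => HF.tv (eval U S a b s ρ ∈ HF.elems (eval U S a b t ρ))
  | .rel r ts, ρ => HF.tv (∃ x : Fin (Γ.ar r) → A, (∀ i, eval U S a b (ts i) ρ = HF.atom (x i)) ∧
      S r x)
  | .neg t, ρ => HF.tv (eval U S a b t ρ = HF.ord 0)
  | .and s t, ρ => HF.tv (eval U S a b s ρ ≠ HF.ord 0 ∧ eval U S a b t ρ ≠ HF.ord 0)
  | .comp s t c, ρ => HF.mk (((HF.elems (eval U S a b t ρ)).filter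
      (fun x => eval U S a b c (x :: ρ) ≠ HF.ord 0)).image (fun x => eval U S a b s (x :: ρ)))
  | .iter t, ρ => HF.itr a b (fun x => eval U S a b t (x :: ρ))

/-- the input structure `S` on `V` is accepted by the term `t` with bounds `a` (number of steps) and
`b` (size) -/
def Accepts {Γ : Voc} {V : Type} [Fintype V] (S : Str Γ V) (t : Tm Γ) (a b : ℕ) : Prop :=
  eval Finset.univ S a b t [] = HF.ord 1

end Pool.Agent.CPT
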