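import Pool.Agent.CPT.Seq

/-!
# Choiceless polynomial time with counting does not capture polynomial time
-/

set_option autoImplicit false

namespace Pool.Agent.CPT

open Finset Classical

/-- the main theorem -/
theorem final : ∃ (D : ℕ) (L : ∀ V : Type, SimpleGraph V → Prop) (dec : List Bool → List Bool)
    (N : ℕ → ℕ) (G H : ∀ l, SimpleGraph (Fin (N l))) (c d : ∀ l, Fin (N l) → ℕ),
    (∀ (V W : Type) (G : SimpleGraph V) (H : SimpleGraph W), L V G → Nonempty (G ≃g H) → L W H) ∧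
    Nonempty (Turing.TM2ComputableInPolyTime (fun w : List Bool => w)
      (fun w : List Bool => w) dec) ∧
    (∀ (n : ℕ) (G : SimpleGraph (Fin n)), dec (P.gcode G) = [true] ↔ L (Fin n) G) ∧
    (∀ l, l ≤ N l ∧ N l ≤ D * (l + 1) ^ 3 ∧
      ((∀ v, ((G l).neighborSet v).ncard ≤ D) ∧ ∀ i, {v | c l v = i}.ncard ≤ D) ∧
      ((∀ v, ((H l).neighborSet v).ncard ≤ D) ∧ ∀ i, {v | d l v = i}.ncard ≤ D) ∧
      ¬ L (Fin (N l)) (G l) ∧ L (Fin (N l)) (H l) ∧ IsEmpty (G l ≃g H l)) ∧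
    (∀ (t : Tm PrV) (t' : Tm GrV), ∃ C : ℕ, ∀ l ≥ C, ∀ a b : ℕ, b ^ C ≤ 2 ^ l →
      (Accepts (prStr (G l).Adj (c l) (· ≤ ·) (G l).Adj (c l)) t a b ↔
        Accepts (prStr (G l).Adj (c l) (· ≤ ·) (H l).Adj (d l)) t a b) ∧
      (Accepts (grStr (G l).Adj (c l)) t' a b ↔ Accepts (grStr (H l).Adj (d l)) t' a b)) ∧
    (∀ (t : Tm PrV) (p q : Polynomial ℕ), ¬ ∀ (n : ℕ) (G H : SimpleGraph (Fin n))
      (c d : Fin n → ℕ), ((∀ v, (G.neighborSet v).ncard ≤ D) ∧ ∀ i, {v | c v = i}.ncard ≤ D) →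
      ((∀ v, (H.neighborSet v).ncard ≤ D) ∧ ∀ i, {v | d v = i}.ncard ≤ D) →
      (Accepts (prStr G.Adj c (· ≤ ·) H.Adj d) t (p.eval (n + n)) (q.eval (n + n)) ↔
        Nonempty (G ≃g H))) ∧
    (∀ (t : Tm PrV) (p q : Polynomial ℕ), ¬ ∀ (n : ℕ) (G H : SimpleGraph (Fin n))
      (c d : Fin n → ℕ), ((∀ v, (G.neighborSet v).ncard ≤ D) ∧ ∀ i, {v | c v = i}.ncard ≤ D) →
      ((∀ v, (H.neighborSet v).ncard ≤ D) ∧ ∀ i, {v | d v = i}.ncard ≤ D) →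
      (Accepts (prStr G.Adj c (· ≤ ·) H.Adj d) t (p.eval (n + n)) (q.eval (n + n)) ↔
        ∃ f : G ≃g H, ∀ v, d (f v) = c v)) ∧
    (∀ (t : Tm GrV) (p q : Polynomial ℕ), ¬ ∀ (n : ℕ) (G : SimpleGraph (Fin n))
      (c : Fin n → ℕ), ((∀ v, (G.neighborSet v).ncard ≤ D) ∧ ∀ i, {v | c v = i}.ncard ≤ D) →
      (Accepts (grStr G.Adj c) t (p.eval n) (q.eval n) ↔ L (Fin n) G)) := by
  obtain ⟨D, hD⟩ := s_bound
  have b1 : ∀ l, (∀ v, ((sG l).neighborSet v).ncard ≤ D) ∧ ∀ i, {v | sc l v = i}.ncard ≤ D :=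
    fun l => ⟨(hD l).2.1, (hD l).2.2.2.1⟩
  have b2 : ∀ l, (∀ v, ((sH l).neighborSet v).ncard ≤ D) ∧ ∀ i, {v | sd l v = i}.ncard ≤ D :=
    fun l => ⟨(hD l).2.2.1, (hD l).2.2.2.2⟩
  refine ⟨D, P.Lg, P.dec, sN, sG, sH, sc, sd, P.lg_iso', P.dec_time, fun n G => P.dec_iff G,
    fun l => ⟨le_sN l, (hD l).1, b1 l, b2 l, not_l_sG l, l_sH l, sG_not_iso l⟩, s_same, ?_, ?_, ?_⟩
  · intro t p q h
    obtain ⟨C, hC⟩ := s_same t .empty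
    obtain ⟨l0, hl0⟩ := poly_small q D C
    have h1 := (hl0 (l0 + C) (by omega) (sN (l0 + C)) (hD _).1).2
    have h2 := (hC (l0 + C) (by omega) (p.eval (sN (l0 + C) + sN (l0 + C))) _ h1).1
    obtain ⟨f⟩ := (h _ _ _ _ _ (b1 _) (b2 _)).1
      (h2.1 ((h _ _ _ _ _ (b1 _) (b1 _)).2 ⟨RelIso.refl _⟩))
    exact (sG_not_iso _).false f
  · intro t p q h
    obtain ⟨C, hC⟩ := s_same t .empty
    obtain ⟨l0, hl0⟩ := poly_small q D C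
    have h1 := (hl0 (l0 + C) (by omega) (sN (l0 + C)) (hD _).1).2
    have h2 := (hC (l0 + C) (by omega) (p.eval (sN (l0 + C) + sN (l0 + C))) _ h1).1
    obtain ⟨f, -⟩ := (h _ _ _ _ _ (b1 _) (b2 _)).1
      (h2.1 ((h _ _ _ _ _ (b1 _) (b1 _)).2 ⟨RelIso.refl _, fun _ => rfl⟩))
    exact (sG_not_iso _).false f
  · intro t p q h
    obtain ⟨C, hC⟩ := s_same .empty t
    obtain ⟨l0, hl0⟩ := poly_small q D C
    have h1 := (hl0 (l0 + C) (by omega) (sN (l0 + C)) (hD _).1).1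
    have h2 := (hC (l0 + C) (by omega) (p.eval (sN (l0 + C))) _ h1).2
    exact not_l_sG _ ((h _ _ _ (b1 _)).1 (h2.2 ((h _ _ _ (b2 _)).2 (l_sH _))))

end Pool.Agent.CPT
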