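import Pool.Agent.CPT.Bgs

/-!
# Frames: groups of local isomorphisms, supports, transport

`A` is the type of all atoms, `pl a` the finite set of coordinates of the atom `a`, `K` a finite
group acting on the atoms, `G` a normal subgroup (the automorphisms of both structures), `Th X` the
elements of `K` that are local isomorphisms from the first to the second structure on `X`.
`L` bounds the sizes of the sets `X`.
-/

set_option autoImplicit false

namespace Pool.Agent.CPT

open Finset Classical

section sup

variable {A I K : Type} [Group K] [MulAction K A]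

/-- `k` is trivial on the atoms at `X` -/
def Trv (pl : A → Finset I) (X : Finset I) (k : K) : Prop := ∀ a, pl a ⊆ X → k • a = a

/-- `k` and `k'` agree on the atoms at `X` -/
def Agr (pl : A → Finset I) (X : Finset I) (k k' : K) : Prop := ∀ a, pl a ⊆ X → k • a = k' • a

/-- `X` supports `x` -/
def Supp (pl : A → Finset I) (G : Subgroup K) (X : Finset I) (x : HF A) : Prop :=
  (∀ g ∈ G, Trv pl X g → g • x = x) ∧ ∀ a, x = HF.atom a → pl a ⊆ X

/-- all objects in the transitive closure of `x` have supports of size at most `s` -/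
def HS (pl : A → Finset I) (G : Subgroup K) (s : ℕ) (x : HF A) : Prop :=
  ∀ y ∈ HF.tc x, ∃ X : Finset I, X.card ≤ s ∧ Supp pl G X y

/-- the orbit of `x` under `G` -/
noncomputable def orb [Fintype K] (G : Subgroup K) (x : HF A) : Finset (HF A) :=
  (Finset.univ.filter (fun g : K => g ∈ G)).image (fun g => g • x)

/-- all objects in the transitive closure of `x` have orbits of size at most `q` -/
def Sm [Fintype K] (G : Subgroup K) (q : ℕ) (x : HF A) : Prop :=
  ∀ y ∈ HF.tc x, (orb G y).card ≤ q

end sup

/-- a frame -/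
structure Fr (A I K : Type) [Fintype A] [Fintype I] [Fintype K] [Group K] [MulAction K A] where
  /-- coordinates of the atoms -/
  pl : A → Finset I
  pl_smul : ∀ (k : K) a, pl (k • a) = pl a
  /-- the automorphisms -/
  G : Subgroup K
  norm : G.Normal
  /-- the local isomorphisms -/
  Th : Finset I → Set K
  /-- the bound for the sizes -/
  L : ℕ
  Th_anti : ∀ {X Y : Finset I}, X ⊆ Y → Th Y ⊆ Th X
  Th_inv : ∀ {X : Finset I} {k : K}, k ∈ Th X → k⁻¹ ∈ Th X
  Th_mul : ∀ {X : Finset I} {g k : K}, g ∈ G → k ∈ Th X → g * k ∈ Th X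
  Th_ext : ∀ {X Y : Finset I} {k : K}, X ⊆ Y → Y.card ≤ L → k ∈ Th X →
    ∃ k' ∈ Th Y, Agr pl X k k'
  Th_hom : ∀ {X : Finset I} {k k' : K}, X.card ≤ L → k ∈ Th X → k' ∈ Th X →
    ∃ g ∈ G, Agr pl X k' (k * g)

namespace Fr

variable {A I K : Type} [Fintype A] [Fintype I] [Fintype K] [Group K] [MulAction K A]

/-- the transport of objects along local isomorphisms; `s` bounds the supports -/
noncomputable def T (F : Fr A I K) (s : ℕ) : HF A → Finset I → K → HF A :=
  HF.fold (fun a _ k => HF.atom (k • a)) (fun S ih X k =>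
    HF.mk ((S.attach ×ˢ ((Finset.univ : Finset (Finset I)) ×ˢ (Finset.univ : Finset K))).filter
      (fun p => p.2.1.card ≤ s ∧ Supp F.pl F.G p.2.1 p.1.1 ∧ p.2.2 ∈ F.Th (X ∪ p.2.1) ∧
        Agr F.pl X k p.2.2) |>.image (fun p => ih p.1.1 p.1.2 p.2.1 p.2.2)))

end Fr

end Pool.Agent.CPT
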