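import Mathlib

/-!
# The three-dimensional grid: vertices, edges, unit squares, cycles

Edges and squares are indexed by pairs `(i, v)`: the edge from `v` in direction `i`, the square at
`v` orthogonal to the direction `i`; indices at the boundary which do not belong to an edge or a
square have no vertices.
-/

set_option autoImplicit false

namespace Pool.Agent.CPT

open Finset Classical

/-- vertices of the grid -/
abbrev Vx (l : ℕ) : Type := Fin 3 → Fin l

/-- indices of edges -/
abbrev Ed (l : ℕ) : Type := Fin 3 × Vx l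

/-- indices of squares -/
abbrev Sq (l : ℕ) : Type := Fin 3 × Vx l

variable {l : ℕ}

/-- `u` is an end of the edge `e` -/
def ie (e : Ed l) (u : Vx l) : Prop :=
  (e.2 e.1).val + 1 < l ∧ (∀ j, j ≠ e.1 → u j = e.2 j) ∧
    ((u e.1).val = (e.2 e.1).val ∨ (u e.1).val = (e.2 e.1).val + 1)

/-- `u` is a vertex of the square `C` -/
def sv (C : Sq l) (u : Vx l) : Prop :=
  (∀ j, j ≠ C.1 → (C.2 j).val + 1 < l) ∧ u C.1 = C.2 C.1 ∧
    ∀ j, j ≠ C.1 → ((u j).val = (C.2 j).val ∨ (u j).val = (C.2 j).val + 1)

/-- `e` is an edge of the square `C` -/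
def se (C : Sq l) (e : Ed l) : Prop := (∃ u, ie e u) ∧ ∀ u, ie e u → sv C u

/-- the coordinates of a vertex -/
def co (v : Vx l) : Finset (Fin l) := Finset.univ.image v

/-- the boundary of a chain at a vertex -/
noncomputable def bdry (z : Ed l → ZMod 2) (v : Vx l) : ZMod 2 :=
  ∑ e ∈ Finset.univ.filter (fun e => ie e v), z e

/-- the four edges of a square as a chain -/
noncomputable def sqc (C : Sq l) (e : Ed l) : ZMod 2 := if se C e then 1 else 0

/-- all coordinates of the vertices of a square -/
noncomputable def cs (C : Sq l) : Finset (Fin l) :=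
  (Finset.univ.filter (fun u => sv C u)).biUnion co

theorem card_co (v : Vx l) : (co v).card ≤ 3 := by
  refine Finset.card_image_le.trans ?_
  rw [Finset.card_univ, Fintype.card_fin]

theorem co_sub_cs {C : Sq l} {v : Vx l} (h : sv C v) : co v ⊆ cs C := by
  refine Finset.subset_biUnion_of_mem co ?_
  rw [Finset.mem_filter]
  exact ⟨Finset.mem_univ _, h⟩

theorem card_cs (C : Sq l) : (cs C).card ≤ 5 := by
  have h : cs C ⊆ (Finset.univ.image C.2) ∪ ((Finset.univ.erase C.1).image
      (fun j => if h : (C.2 j).val + 1 < l then (⟨(C.2 j).val + 1, h⟩ : Fin l) else C.2 j)) := by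
    intro x hx
    rw [cs, Finset.mem_biUnion] at hx
    obtain ⟨u, hu, hx⟩ := hx
    rw [Finset.mem_filter] at hu
    rw [co, Finset.mem_image] at hx
    obtain ⟨j, -, hj⟩ := hx
    obtain ⟨h1, h2, h3⟩ := hu.2
    rw [Finset.mem_union]
    by_cases hjk : j = C.1
    · left
      rw [Finset.mem_image]
      exact ⟨C.1, Finset.mem_univ _, by rw [← h2, ← hjk, hj]⟩
    · rcases h3 j hjk with h4 | h4
      · left
        rw [Finset.mem_image]
        exact ⟨j, Finset.mem_univ _, by rw [← hj]; exact (Fin.ext h4).symm⟩
      · right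
        rw [Finset.mem_image]
        refine ⟨j, Finset.mem_erase.2 ⟨hjk, Finset.mem_univ _⟩, ?_⟩
        rw [dif_pos (h1 j hjk), ← hj]
        exact (Fin.ext h4).symm
  refine (Finset.card_le_card h).trans ((Finset.card_union_le _ _).trans ?_)
  have h1 : (Finset.univ.image C.2).card ≤ 3 := by
    refine Finset.card_image_le.trans ?_
    rw [Finset.card_univ, Fintype.card_fin]
  have h2 : ((Finset.univ.erase C.1).image
      (fun j => if h : (C.2 j).val + 1 < l then (⟨(C.2 j).val + 1, h⟩ : Fin l) else C.2 j)).card ≤ 2 := by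
    refine Finset.card_image_le.trans ?_
    rw [Finset.card_erase_of_mem (Finset.mem_univ _), Finset.card_univ, Fintype.card_fin]
  omega

theorem bdry_add (z z' : Ed l → ZMod 2) (v : Vx l) : bdry (z + z') v = bdry z v + bdry z' v :=
  Finset.sum_add_distrib

private theorem z2_add_self (a : ZMod 2) : a + a = 0 := CharTwo.add_self_eq_zero a

/-- the second end of an edge -/
def up (e : Ed l) (h : (e.2 e.1).val + 1 < l) : Vx l := Function.update e.2 e.1 ⟨(e.2 e.1).val + 1, h⟩

theorem up_ne (e : Ed l) (h : (e.2 e.1).val + 1 < l) : up e h ≠ e.2 := by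
  intro h1
  have h2 := congrFun h1 e.1
  rw [up, Function.update_self] at h2
  have h3 := congrArg Fin.val h2
  simp at h3

theorem ie_iff (e : Ed l) (h : (e.2 e.1).val + 1 < l) (u : Vx l) : ie e u ↔ u = e.2 ∨ u = up e h := by
  constructor
  · rintro ⟨-, h1, h2 | h2⟩
    · left
      funext j
      by_cases hj : j = e.1
      · rw [hj]; exact Fin.ext h2
      · exact h1 j hj
    · right
      funext j
      by_cases hj : j = e.1
      · rw [up, hj, Function.update_self]; exact Fin.ext h2
      · rw [up, Function.update_of_ne hj]; exact h1 j hj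
  · rintro (rfl | rfl)
    · exact ⟨h, fun _ _ => rfl, Or.inl rfl⟩
    · refine ⟨h, fun j hj => ?_, Or.inr ?_⟩
      · rw [up, Function.update_of_ne hj]
      · rw [up, Function.update_self]

theorem ie_lt {e : Ed l} {u : Vx l} (h : ie e u) : (e.2 e.1).val + 1 < l := h.1

/-- the boundary of a single edge -/
theorem bdry_single (e : Ed l) (h : (e.2 e.1).val + 1 < l) (v : Vx l) :
    bdry (Pi.single e 1) v = (if v = e.2 then 1 else 0) + (if v = up e h then 1 else 0) := by
  have h1 : bdry (Pi.single e 1) v = if ie e v then 1 else 0 := by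
    rw [bdry, Finset.sum_filter]
    rw [Finset.sum_eq_single e]
    · rw [Pi.single_eq_same]
    · intro b _ hb
      rw [Pi.single_eq_of_ne hb]
      simp
    · intro h; exact absurd (Finset.mem_univ _) h
  rw [h1, if_congr (ie_iff e h v) rfl rfl]
  by_cases h2 : v = e.2
  · have h3 : v ≠ up e h := fun h4 => up_ne e h (h4 ▸ h2)
    simp [h2, (up_ne e h).symm]
  · simp [h2]

/-- every edge has two ends or none -/
theorem sum_bdry (z : Ed l → ZMod 2) : ∑ v, bdry z v = 0 := by
  have h1 : ∑ v, bdry z v = ∑ e, ∑ v, if ie e v then z e else 0 := by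
    simp only [bdry, Finset.sum_filter]
    exact Finset.sum_comm
  rw [h1]
  refine Finset.sum_eq_zero fun e _ => ?_
  by_cases h : (e.2 e.1).val + 1 < l
  · rw [← Finset.sum_filter]
    have h2 : (Finset.univ.filter (fun v => ie e v)) = {e.2, up e h} := by
      ext v
      rw [Finset.mem_filter, Finset.mem_insert, Finset.mem_singleton, ie_iff e h]
      simp
    rw [h2, Finset.sum_pair (up_ne e h).symm, z2_add_self]
  · refine Finset.sum_eq_zero fun v _ => ?_
    rw [if_neg (fun h3 => h h3.1)]

/-- the edges of a square at one of its vertices -/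
theorem se_iff {C : Sq l} {v : Vx l} (h : sv C v) (e : Ed l) :
    (ie e v ∧ se C e) ↔ e.1 ≠ C.1 ∧ e.2 = Function.update v e.1 (C.2 e.1) := by
  constructor
  · rintro ⟨h1, -, h2⟩
    have hl := h1.1
    have h3 := h2 e.2 ((ie_iff e hl _).2 (Or.inl rfl))
    have h4 := h2 (up e hl) ((ie_iff e hl _).2 (Or.inr rfl))
    have hne : e.1 ≠ C.1 := by
      intro hc
      have h5 := h3.2.1
      have h6 := h4.2.1
      rw [← hc] at h5 h6
      rw [up, Function.update_self] at h6
      rw [← h5] at h6
      have h7 := congrArg Fin.val h6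
      simp at h7
    refine ⟨hne, ?_⟩
    have h5 : e.2 e.1 = C.2 e.1 := by
      have h6 := h3.2.2 e.1 hne
      have h7 := h4.2.2 e.1 hne
      rw [up, Function.update_self] at h7
      apply Fin.ext
      simp only at h7
      omega
    funext j
    by_cases hj : j = e.1
    · rw [hj, Function.update_self, h5]
    · rw [Function.update_of_ne hj, h1.2.1 j hj]
  · rintro ⟨hne, he⟩
    have h5 : e.2 e.1 = C.2 e.1 := by rw [he, Function.update_self]
    have hl : (e.2 e.1).val + 1 < l := by rw [h5]; exact h.1 e.1 hne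
    have h6 : ∀ j, j ≠ e.1 → e.2 j = v j := by
      intro j hj
      rw [he, Function.update_of_ne hj]
    have key : ∀ u, ie e u → sv C u := by
      intro u hu
      refine ⟨h.1, ?_, fun j hj => ?_⟩
      · rw [hu.2.1 C.1 hne.symm, h6 C.1 hne.symm, h.2.1]
      · by_cases hje : j = e.1
        · rw [hje]
          have := hu.2.2
          rw [h5] at this
          exact this
        · rw [hu.2.1 j hje, h6 j hje]
          exact h.2.2 j hj
    refine ⟨⟨hl, fun j hj => (h6 j hj).symm, ?_⟩, ⟨e.2, (ie_iff e hl _).2 (Or.inl rfl)⟩, key⟩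
    rw [h5]
    exact h.2.2 e.1 hne

/-- the squares are cycles -/
theorem bdry_sqc (C : Sq l) (v : Vx l) : bdry (sqc C) v = 0 := by
  by_cases h : sv C v
  · have h2 : (Finset.univ.filter (fun e : Ed l => ie e v)).filter (fun e => se C e) =
        (Finset.univ.erase C.1).image (fun i => ((i, Function.update v i (C.2 i)) : Ed l)) := by
      ext e
      rw [Finset.filter_filter, Finset.mem_filter, Finset.mem_image]
      constructor
      · rintro ⟨-, h3⟩
        obtain ⟨h4, h5⟩ := (se_iff h e).1 h3
        exact ⟨e.1, Finset.mem_erase.2 ⟨h4, Finset.mem_univ _⟩, Prod.ext rfl h5.symm⟩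
      · rintro ⟨i, hi, rfl⟩
        refine ⟨Finset.mem_univ _, (se_iff h _).2 ⟨(Finset.mem_erase.1 hi).1, rfl⟩⟩
    have h3 : bdry (sqc C) v = ∑ e ∈ (Finset.univ.filter (fun e : Ed l => ie e v)).filter (fun e => se C e),
        (1 : ZMod 2) := by
      rw [Finset.sum_filter]
      rfl
    rw [h3, h2, Finset.sum_const, Finset.card_image_of_injective, Finset.card_erase_of_mem (Finset.mem_univ _),
      Finset.card_univ, Fintype.card_fin]
    · decide
    · intro i j hij
      exact congrArg Prod.fst hij
  · rw [bdry]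
    refine Finset.sum_eq_zero fun e he => ?_
    rw [Finset.mem_filter] at he
    rw [sqc, if_neg]
    exact fun h1 => h (h1.2 v he.2)

end Pool.Agent.CPT
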