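import Pool.Agent.CPT.Asm
import Pool.Agent.CPT.P.Main

/-!
# The sequence of twins on `Fin n`
-/

set_option autoImplicit false

namespace Pool.Agent.CPT

open Finset Classical

/-- the graph with parities `τ` on `Fin n` -/
noncomputable def fg (l : ℕ) (τ : Vx l → ZMod 2) (n : ℕ) (e : Fin n ≃ VG l τ) : SimpleGraph (Fin n) :=
  (XG l τ).comap e

/-- the colouring of the graph on `Fin n` -/
noncomputable def fc (l : ℕ) (τ : Vx l → ZMod 2) (n : ℕ) (e : Fin n ≃ VG l τ) (v : Fin n) : ℕ :=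
  col (e v).1

/-- it is isomorphic to the graph -/
noncomputable def fgIso {l : ℕ} {τ : Vx l → ZMod 2} {n : ℕ} (e : Fin n ≃ VG l τ) :
    fg l τ n e ≃g XG l τ := ⟨e, by intro a b; rfl⟩

theorem fg_deg {l : ℕ} {τ : Vx l → ZMod 2} {n D : ℕ} (e : Fin n ≃ VG l τ)
    (h : ∀ x : VG l τ, (Finset.univ.filter (fun y => (XG l τ).Adj x y)).card ≤ D) (v : Fin n) :
    ((fg l τ n e).neighborSet v).ncard ≤ D := by
  refine le_trans ?_ (h (e v))
  rw [← Set.ncard_coe_finset]
  refine Set.ncard_le_ncard_of_injOn e ?_ (e.injective.injOn) (Set.toFinite _)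
  intro w hw
  have : (XG l τ).Adj (e v) (e w) := hw
  simpa using this

/-- the colour classes are bounded -/
theorem col_bound : ∃ D : ℕ, ∀ (l : ℕ) (τ : Vx l → ZMod 2) (i : ℕ),
    (Finset.univ.filter (fun x : VG l τ => col x.1 = i)).card ≤ D := by
  refine ⟨Fintype.card Deg_K, fun l τ i => ?_⟩
  by_cases hi : ∃ x : VG l τ, col x.1 = i
  · obtain ⟨x0, hx0⟩ := hi
    have hfv : ∀ x : VG l τ, col x.1 = i → Deg_fv x.1 = Deg_fv x0.1 := by
      intro x hx
      apply (Fintype.equivFin (Vx l)).injective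
      apply Fin.ext
      exact hx.trans hx0.symm
    rw [← Finset.card_univ]
    refine Finset.card_le_card_of_injOn (fun x => Deg_loc (Deg_fv x0.1) x.1)
      (fun _ _ => Finset.mem_coe.2 (Finset.mem_univ _)) ?_
    intro x hx y hy hxy
    have hx' : col x.1 = i := by simpa using hx
    have hy' : col y.1 = i := by simpa using hy
    refine Subtype.ext (Deg_loc_inj x.2 y.2 ?_ ?_ hxy)
    · rw [← hfv x hx']
      exact Deg_Near_self x.2
    · rw [← hfv y hy']
      exact Deg_Near_self y.2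
  · have h0 : Finset.univ.filter (fun x : VG l τ => col x.1 = i) = ∅ := by
      rw [Finset.filter_eq_empty_iff]
      intro x _ hx
      exact hi ⟨x, hx⟩
    rw [h0, Finset.card_empty]
    exact Nat.zero_le _

theorem fc_class {l : ℕ} {τ : Vx l → ZMod 2} {n D : ℕ} (e : Fin n ≃ VG l τ)
    (h : ∀ i, (Finset.univ.filter (fun x : VG l τ => col x.1 = i)).card ≤ D) (i : ℕ) :
    {v : Fin n | fc l τ n e v = i}.ncard ≤ D := by
  refine le_trans ?_ (h i)
  rw [← Set.ncard_coe_finset]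
  refine Set.ncard_le_ncard_of_injOn e ?_ (e.injective.injOn) (Set.toFinite _)
  intro w hw
  have : col (e w).1 = i := hw
  simpa using this

theorem fg_pair {l : ℕ} {τ τ' : Vx l → ZMod 2} {n : ℕ} (e : Fin n ≃ VG l τ) (e' : Fin n ≃ VG l τ')
    (t : Tm PrV) (ns b : ℕ) :
    Accepts (prStr (fg l τ n e).Adj (fc l τ n e) (· ≤ ·) (fg l τ' n e').Adj (fc l τ' n e')) t ns b ↔
      Accepts (prStr (XG l τ).Adj (cl τ) (fun x y => e.symm x ≤ e.symm y) (XG l τ').Adj (cl τ'))
        t ns b := by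
  rw [← accepts_iso (Equiv.sumCongr e e')]
  have h : prStr (fg l τ n e).Adj (fc l τ n e) (· ≤ ·) (fg l τ' n e').Adj (fc l τ' n e') =
      fun (r : PrV.R) x => prStr (XG l τ).Adj (cl τ) (fun x y => e.symm x ≤ e.symm y)
        (XG l τ').Adj (cl τ') r (fun i => Equiv.sumCongr e e' (x i)) := by
    funext r x
    have key : ∀ (s : Fin 3) (f : Fin 2 → Fin n ⊕ Fin n),
        prStr (fg l τ n e).Adj (fc l τ n e) (· ≤ ·) (fg l τ' n e').Adj (fc l τ' n e') s f =
        prStr (XG l τ).Adj (cl τ) (fun x y => e.symm x ≤ e.symm y) (XG l τ').Adj (cl τ') s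
          (fun i => Equiv.sumCongr e e' (f i)) := by
      intro s f
      rcases h0 : f 0 with v | v <;> rcases h1 : f 1 with w | w <;>
        fin_cases s <;> simp [prStr, h0, h1, fg, fc, cl]
    exact key r x
  rw [h]

theorem fg_single {l : ℕ} {τ : Vx l → ZMod 2} {n : ℕ} (e : Fin n ≃ VG l τ)
    (t : Tm GrV) (ns b : ℕ) : Accepts (grStr (fg l τ n e).Adj (fc l τ n e)) t ns b ↔
      Accepts (grStr (XG l τ).Adj (cl τ)) t ns b := by
  rw [← accepts_iso e]
  have h : grStr (fg l τ n e).Adj (fc l τ n e) =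
      fun (r : GrV.R) x => grStr (XG l τ).Adj (cl τ) r (fun i => e (x i)) := by
    funext r x
    have key : ∀ (s : Fin 2) (f : Fin 2 → Fin n), grStr (fg l τ n e).Adj (fc l τ n e) s f =
        grStr (XG l τ).Adj (cl τ) s (fun i => e (f i)) := by
      intro s f
      fin_cases s <;> rfl
    exact key r x
  rw [h]

/-- every program fails on all but finitely many of the pairs -/
theorem twins_same (t : Tm PrV) (t' : Tm GrV) {D : ℕ}
    (hD : ∀ (l : ℕ) (τ : Vx l → ZMod 2), (Finset.univ.filter (InU τ)).card ≤ D * l ^ 3) :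
    ∃ C : ℕ, ∀ l ≥ C, ∀ (h : 0 < l) (n : ℕ) (e : Fin n ≃ VG l 0)
      (e' : Fin n ≃ VG l (tw (v0c l h))), ∀ ns b : ℕ, b ^ C ≤ 2 ^ l →
      (Accepts (prStr (fg l _ n e).Adj (fc l _ n e) (· ≤ ·) (fg l _ n e).Adj (fc l _ n e)) t ns b ↔
        Accepts (prStr (fg l _ n e).Adj (fc l _ n e) (· ≤ ·) (fg l _ n e').Adj (fc l _ n e'))
          t ns b) ∧
      (Accepts (grStr (fg l _ n e).Adj (fc l _ n e)) t' ns b ↔
        Accepts (grStr (fg l _ n e').Adj (fc l _ n e')) t' ns b) := by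
  obtain ⟨e1, he1⟩ := t.bd_poly 0
  obtain ⟨e2, he2⟩ := t'.bd_poly 0
  obtain ⟨C1, hC1⟩ := num_bound (D + D) e1 (t.dep + 10)
  obtain ⟨C2, hC2⟩ := num_bound (D + D) e2 (t'.dep + 10)
  refine ⟨C1 + C2, fun l hl h0 n e e' ns b hb => ?_⟩
  have hN : ∀ τ : Vx l → ZMod 2, Fintype.card (VG l τ) ≤ D * l ^ 3 := by
    intro τ
    rw [Fintype.card_subtype]
    exact hD l τ
  have hDD : D * l ^ 3 + D * l ^ 3 = (D + D) * l ^ 3 := by ring
  have hpow : ∀ C0 : ℕ, C0 ≤ C1 + C2 → b ^ C0 ≤ 2 ^ l := by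
    intro C0 hC0
    rcases Nat.eq_zero_or_pos b with hb0 | hb0
    · subst hb0
      rcases Nat.eq_zero_or_pos C0 with h | h
      · subst h
        simpa using Nat.one_le_two_pow
      · rw [zero_pow (by omega)]
        exact Nat.zero_le _
    · exact le_trans (Nat.pow_le_pow_right hb0 hC0) hb
  refine ⟨?_, ?_⟩
  · rw [fg_pair, fg_pair]
    refine pair_same (v0c l h0) ns b (D * l ^ 3) t _ _ hN e1 he1 ?_
    rw [hDD]
    exact hC1 l (by omega) b (hpow C1 (by omega))
  · rw [fg_single, fg_single]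
    refine single_same (v0c l h0) ns b (D * l ^ 3) t' hN e2 he2 ?_
    rw [hDD]
    exact hC2 l (by omega) b (hpow C2 (by omega))

end Pool.Agent.CPT
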