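import Pool.Agent.CPT.SL

/-!
# The double cover `SL(2,5) → SL(2,5)/±1` and its cocycle

`Om` is a set of representatives of `SL(2,5)/±1` on which `SL(2,5)` acts; `cc g x` is the sign of
`g x`, a cocycle with `cc (-1) x = 1`.
-/

set_option autoImplicit false

namespace Pool.Agent.CPT

open Finset Classical

noncomputable instance : Fintype Gm := Fintype.ofFinite _

/-- a sign of the elements of `SL(2,5)` with `sgn (-x) = sgn x + 1` -/
noncomputable def sgn (x : Gm) : ZMod 2 :=
  if (Fintype.equivFin Gm x).val < (Fintype.equivFin Gm (gmC * x)).val then 0 else 1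

private theorem CC_mul (x : Gm) : gmC * (gmC * x) = x := by
  rw [← mul_assoc, gmC_sq, one_mul]

private theorem C_mul_ne (x : Gm) : gmC * x ≠ x := by
  intro h
  exact gmC_ne (mul_eq_right.1 h)

private theorem z2 (a : ZMod 2) (h : a ≠ 0) : a = 1 := by
  revert a; decide

theorem sgn_C (x : Gm) : sgn (gmC * x) = sgn x + 1 := by
  unfold sgn
  rw [CC_mul]
  have hne : (Fintype.equivFin Gm x).val ≠ (Fintype.equivFin Gm (gmC * x)).val := by
    intro h
    exact C_mul_ne x ((Fintype.equivFin Gm).injective (Fin.ext h)).symm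
  by_cases h : (Fintype.equivFin Gm x).val < (Fintype.equivFin Gm (gmC * x)).val
  · rw [if_pos h, if_neg (by omega)]
    decide
  · rw [if_neg h, if_pos (by omega)]
    decide

/-- representatives of `SL(2,5)/±1` -/
def Om : Type := {x : Gm // sgn x = 0}

noncomputable instance : Fintype Om := inferInstanceAs (Fintype {x : Gm // sgn x = 0})

instance : Nonempty Om := by
  by_cases h : sgn 1 = 0
  · exact ⟨⟨1, h⟩⟩
  · refine ⟨⟨gmC * 1, ?_⟩⟩
    rw [sgn_C, z2 _ h]
    decide

/-- the cocycle: the sign of `g x` -/
noncomputable def cc (g : Gm) (x : Om) : ZMod 2 := sgn (g * x.1)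

private theorem om_aux (y : Gm) (h : ¬ sgn y = 0) : sgn (gmC * y) = 0 := by
  rw [sgn_C, z2 _ h]
  decide

/-- the action on the representatives -/
noncomputable def omAct (g : Gm) (x : Om) : Om :=
  if h : sgn (g * x.1) = 0 then ⟨g * x.1, h⟩ else ⟨gmC * (g * x.1), om_aux _ h⟩

private theorem om_ext {a b : Om} (h : a.1 = b.1 ∨ a.1 = gmC * b.1) : a = b := by
  rcases h with h | h
  · exact Subtype.ext h
  · exfalso
    have h1 := a.2
    rw [h, sgn_C, b.2] at h1
    revert h1
    decide

private theorem omAct_val (g : Gm) (x : Om) :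
    (omAct g x).1 = g * x.1 ∨ (omAct g x).1 = gmC * (g * x.1) := by
  unfold omAct
  by_cases h : sgn (g * x.1) = 0
  · rw [dif_pos h]; exact Or.inl rfl
  · rw [dif_neg h]; exact Or.inr rfl

noncomputable instance : MulAction Gm Om where
  smul := omAct
  one_smul x := by
    change omAct 1 x = x
    apply om_ext
    simpa using omAct_val 1 x
  mul_smul g g' x := by
    change omAct (g * g') x = omAct g (omAct g' x)
    apply om_ext
    have e1 := omAct_val (g * g') x
    have e2 := omAct_val g' x
    have e3 := omAct_val g (omAct g' x)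
    have hc : ∀ y : Gm, g * (gmC * y) = gmC * (g * y) := by
      intro y
      rw [← mul_assoc, ← gmC_comm, mul_assoc]
    rcases e2 with e2 | e2 <;> rcases e3 with e3 | e3 <;> rcases e1 with e1 | e1 <;>
      rw [e2] at e3 <;> rw [e1, e3] <;> simp [hc, CC_mul, mul_assoc]

theorem cc_mul (g g' : Gm) (x : Om) : cc (g * g') x = cc g (g' • x) + cc g' x := by
  change sgn (g * g' * x.1) = sgn (g * (omAct g' x).1) + sgn (g' * x.1)
  unfold omAct
  by_cases h : sgn (g' * x.1) = 0
  · rw [dif_pos h, h, add_zero, mul_assoc]
  · rw [dif_neg h]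
    have hc : g * (gmC * (g' * x.1)) = gmC * (g * g' * x.1) := by
      rw [← mul_assoc, ← gmC_comm, mul_assoc, mul_assoc]
    change _ = sgn (g * (gmC * (g' * x.1))) + _
    rw [hc, sgn_C, z2 _ h]
    have : ∀ a : ZMod 2, a = a + 1 + 1 := by decide
    exact this _

theorem cc_one (x : Om) : cc 1 x = 0 := by
  unfold cc
  rw [one_mul]
  exact x.2

theorem cc_C (x : Om) : cc gmC x = 1 := by
  unfold cc
  rw [sgn_C, x.2]
  decide

theorem C_smul (x : Om) : gmC • x = x := by
  change omAct gmC x = x
  apply om_ext
  rcases omAct_val gmC x with h | h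
  · exact Or.inr h
  · left
    rw [h, CC_mul]

theorem om_faithful {g : Gm} (h : ∀ x : Om, g • x = x) : g = 1 ∨ g = gmC := by
  obtain ⟨x⟩ : Nonempty Om := inferInstance
  have h1 : omAct g x = x := h x
  rcases omAct_val g x with h2 | h2
  · left
    rw [h1] at h2
    exact mul_eq_right.1 h2.symm
  · right
    rw [h1, ← mul_assoc] at h2
    have h3 : gmC * g = 1 := mul_eq_right.1 h2.symm
    have h4 := congrArg (fun y => gmC * y) h3
    simp only [CC_mul, mul_one] at h4
    exact h4

private theorem gmE_ne : ∀ t s : ZMod 5, gmE t = gmE s ∨ gmE t = gmC * gmE s → t = s := by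
  decide

theorem card_Om : 4 ≤ Fintype.card Om := by
  obtain ⟨x⟩ : Nonempty Om := inferInstance
  have hinj : Function.Injective (fun t : ZMod 5 => omAct (gmE t) x) := by
    intro t s hts
    have hts' : omAct (gmE t) x = omAct (gmE s) x := hts
    apply gmE_ne
    have e1 := omAct_val (gmE t) x
    have e2 := omAct_val (gmE s) x
    rw [hts'] at e1
    rcases e1 with e1 | e1 <;> rcases e2 with e2 | e2
    · left; exact mul_right_cancel (e1.symm.trans e2)
    · right
      have := e1.symm.trans e2
      rw [← mul_assoc] at this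
      exact mul_right_cancel this
    · right
      have := e1.symm.trans e2
      have h2 := congrArg (fun y => gmC * y) this
      simp only [CC_mul] at h2
      rw [← mul_assoc] at h2
      exact mul_right_cancel h2
    · left
      have := e1.symm.trans e2
      exact mul_right_cancel (mul_left_cancel this)
  have := Fintype.card_le_of_injective _ hinj
  rw [ZMod.card] at this
  omega

end Pool.Agent.CPT
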