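import Mathlib

/-!
# Powers of values of polynomials are small compared with `2 ^ l`
-/

set_option autoImplicit false

namespace Pool.Agent.CPT

open Filter Topology

private theorem mono_small (m a K : ℕ) : ∃ l0 : ℕ, ∀ l ≥ l0, K * (a * l ^ m) ≤ 2 ^ l := by
  have h := tendsto_pow_const_div_const_pow_of_one_lt m (r := (2 : ℝ)) (by norm_num)
  have hpos : (0 : ℝ) < 1 / ((K * a : ℕ) + 1 : ℝ) := by positivity
  have h1 := h.eventually (gt_mem_nhds hpos)
  obtain ⟨l0, hl0⟩ := eventually_atTop.1 h1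
  refine ⟨l0, fun l hl => ?_⟩
  have h2 := hl0 l hl
  have h3 : (0 : ℝ) < 2 ^ l := by positivity
  rw [div_lt_div_iff₀ h3 (by positivity)] at h2
  have h4 : ((K * (a * l ^ m) : ℕ) : ℝ) ≤ ((2 ^ l : ℕ) : ℝ) := by
    push_cast at h2 ⊢
    have h5 : (0 : ℝ) ≤ (l : ℝ) ^ m := by positivity
    nlinarith
  exact_mod_cast h4

private theorem eval_small (q : Polynomial ℕ) : ∀ K : ℕ, ∃ l0 : ℕ, ∀ l ≥ l0,
    K * q.eval l ≤ 2 ^ l := by
  induction q using Polynomial.induction_on' with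
  | add p q hp hq =>
    intro K
    obtain ⟨l1, h1⟩ := hp (2 * K)
    obtain ⟨l2, h2⟩ := hq (2 * K)
    refine ⟨max l1 l2, fun l hl => ?_⟩
    have h3 := h1 l (le_trans (le_max_left _ _) hl)
    have h4 := h2 l (le_trans (le_max_right _ _) hl)
    rw [Polynomial.eval_add]
    nlinarith
  | monomial m a =>
    intro K
    obtain ⟨l0, h⟩ := mono_small m a K
    refine ⟨l0, fun l hl => ?_⟩
    rw [Polynomial.eval_monomial]
    exact h l hl

private theorem eval_mono_nat (q : Polynomial ℕ) {m n : ℕ} (h : m ≤ n) :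
    q.eval m ≤ q.eval n := by
  induction q using Polynomial.induction_on' with
  | add p q hp hq =>
    rw [Polynomial.eval_add, Polynomial.eval_add]
    exact Nat.add_le_add hp hq
  | monomial k a =>
    rw [Polynomial.eval_monomial, Polynomial.eval_monomial]
    exact Nat.mul_le_mul_left _ (Nat.pow_le_pow_left h k)

private theorem comp_small (p : Polynomial ℕ) (D C : ℕ) : ∃ l0 : ℕ, ∀ l ≥ l0,
    ∀ n ≤ D * (l + 1) ^ 3, (p.eval n) ^ C ≤ 2 ^ l := by
  obtain ⟨l0, h⟩ := eval_small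
    ((p.comp (Polynomial.C D * (Polynomial.X + 1) ^ 3)) ^ C) 1
  refine ⟨l0, fun l hl n hn => ?_⟩
  have h1 := h l hl
  rw [one_mul, Polynomial.eval_pow, Polynomial.eval_comp, Polynomial.eval_mul, Polynomial.eval_C,
    Polynomial.eval_pow, Polynomial.eval_add, Polynomial.eval_X, Polynomial.eval_one] at h1
  exact (Nat.pow_le_pow_left (eval_mono_nat p hn) C).trans h1

/-- polynomial bounds are covered -/
theorem poly_small (p : Polynomial ℕ) (D C : ℕ) : ∃ l0 : ℕ, ∀ l ≥ l0,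
    ∀ n ≤ D * (l + 1) ^ 3, (p.eval n) ^ C ≤ 2 ^ l ∧ (p.eval (n + n)) ^ C ≤ 2 ^ l := by
  obtain ⟨l1, h1⟩ := comp_small p D C
  obtain ⟨l2, h2⟩ := comp_small p (D + D) C
  refine ⟨max l1 l2, fun l hl n hn => ⟨?_, ?_⟩⟩
  · exact h1 l (le_trans (le_max_left _ _) hl) n hn
  · refine h2 l (le_trans (le_max_right _ _) hl) (n + n) ?_
    rw [Nat.add_mul]
    exact Nat.add_le_add hn hn

end Pool.Agent.CPT
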