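import Mathlib

/-!
The group `SL(2, 5)`: it is perfect and `-1` is a central involution.
-/

namespace Pool.Agent.CPT

/-- `SL(2, 5)`. -/
abbrev Gm := Matrix.SpecialLinearGroup (Fin 2) (ZMod 5)

/-- The upper transvection. -/
def gmE (t : ZMod 5) : Gm := ⟨!![1, t; 0, 1], by simp [Matrix.det_fin_two]⟩

/-- The lower transvection. -/
def gmF (t : ZMod 5) : Gm := ⟨!![1, 0; t, 1], by simp [Matrix.det_fin_two]⟩

/-- A diagonal element. -/
def gmD : Gm := ⟨!![2, 0; 0, 3], by simp [Matrix.det_fin_two]; decide⟩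

/-- The central involution. -/
def gmC : Gm := ⟨!![4, 0; 0, 4], by simp [Matrix.det_fin_two]; decide⟩

lemma gmE_eq : ∀ t : ZMod 5, gmD * gmE (2 * t) * gmD⁻¹ * (gmE (2 * t))⁻¹ = gmE t := by decide

lemma gmF_eq : ∀ t : ZMod 5, gmD * gmF (2 * t) * gmD⁻¹ * (gmF (2 * t))⁻¹ = gmF t := by decide

lemma gmE_mem (t : ZMod 5) : gmE t ∈ commutator Gm := by
  rw [← gmE_eq t, ← commutatorElement_def]
  exact Subgroup.commutator_mem_commutator (Subgroup.mem_top _) (Subgroup.mem_top _)

lemma gmF_mem (t : ZMod 5) : gmF t ∈ commutator Gm := by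
  rw [← gmF_eq t, ← commutatorElement_def]
  exact Subgroup.commutator_mem_commutator (Subgroup.mem_top _) (Subgroup.mem_top _)

instance : Fact (Nat.Prime 5) := ⟨by norm_num⟩

lemma gm_mem_of_ne (A : Gm) (h : A.1 1 0 ≠ 0) : A ∈ commutator Gm := by
  have hd := A.2
  rw [Matrix.det_fin_two] at hd
  have e : A = gmE ((A.1 0 0 - 1) / A.1 1 0) * gmF (A.1 1 0) * gmE ((A.1 1 1 - 1) / A.1 1 0) := by
    apply Subtype.ext
    rw [Matrix.SpecialLinearGroup.coe_mul, Matrix.SpecialLinearGroup.coe_mul]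
    ext i j
    fin_cases i <;> fin_cases j
    · simp [gmE, gmF, Matrix.mul_apply, Fin.sum_univ_two]
      field_simp
      ring
    · simp [gmE, gmF, Matrix.mul_apply, Fin.sum_univ_two]
      field_simp
      linear_combination (-1 : ZMod 5) * hd
    · simp [gmE, gmF, Matrix.mul_apply, Fin.sum_univ_two]
    · simp [gmE, gmF, Matrix.mul_apply, Fin.sum_univ_two]
      field_simp
      ring
  rw [e]
  exact mul_mem (mul_mem (gmE_mem _) (gmF_mem _)) (gmE_mem _)

/-- `SL(2, 5)` is perfect. -/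
theorem gm_perfect : commutator Gm = ⊤ := by
  rw [eq_top_iff]
  intro A _
  by_cases h : A.1 1 0 = 0
  · have hd := A.2
    rw [Matrix.det_fin_two, h, mul_zero, sub_zero] at hd
    have h1 : (gmF 1 * A).1 1 0 ≠ 0 := by
      rw [Matrix.SpecialLinearGroup.coe_mul]
      simp only [gmF, Matrix.mul_apply, Fin.sum_univ_two, h]
      intro h2
      simp at h2
      rw [h2] at hd
      simp at hd
    have h3 := gm_mem_of_ne _ h1
    have h4 := mul_mem (inv_mem (gmF_mem 1)) h3
    rwa [inv_mul_cancel_left] at h4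
  · exact gm_mem_of_ne A h

theorem gmC_sq : gmC * gmC = 1 := by decide

theorem gmC_ne : gmC ≠ 1 := by decide

theorem gmC_comm (g : Gm) : gmC * g = g * gmC := by
  apply Subtype.ext
  rw [Matrix.SpecialLinearGroup.coe_mul, Matrix.SpecialLinearGroup.coe_mul]
  ext i j
  fin_cases i <;> fin_cases j <;>
  simp [gmC, Matrix.mul_apply, Fin.sum_univ_two, mul_comm]

end Pool.Agent.CPT
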