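import Pool.Agent.CPT.Main
import Pool.Agent.CPT.PolyN

/-!
# The sequence of pairs of graphs
-/

set_option autoImplicit false

namespace Pool.Agent.CPT

open Finset Classical

/-- the number of vertices of the members of the sequence -/
noncomputable def sN (l : ℕ) : ℕ := Fintype.card (VG (l + 55) 0)

/-- the twisted vertex -/
def sv0 (l : ℕ) : Vx (l + 55) := v0c (l + 55) (by omega)

/-- numbering of the vertices of the untwisted graph -/
noncomputable def sE (l : ℕ) : Fin (sN l) ≃ VG (l + 55) 0 := (Fintype.equivFin _).symm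

/-- numbering of the vertices of the twisted graph -/
noncomputable def sF (l : ℕ) : Fin (sN l) ≃ VG (l + 55) (tw (sv0 l)) :=
  (Fintype.equivFinOfCardEq (card_U (Nat.le_add_left 55 l))).symm

/-- the untwisted graphs -/
noncomputable def sG (l : ℕ) : SimpleGraph (Fin (sN l)) := fg (l + 55) 0 (sN l) (sE l)

/-- the twisted graphs -/
noncomputable def sH (l : ℕ) : SimpleGraph (Fin (sN l)) := fg (l + 55) (tw (sv0 l)) (sN l) (sF l)

/-- the colours of the untwisted graphs -/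
noncomputable def sc (l : ℕ) : Fin (sN l) → ℕ := fc (l + 55) 0 (sN l) (sE l)

/-- the colours of the twisted graphs -/
noncomputable def sd (l : ℕ) : Fin (sN l) → ℕ := fc (l + 55) (tw (sv0 l)) (sN l) (sF l)

theorem le_sN (l : ℕ) : l ≤ sN l := by
  have h1 : Fintype.card (Vx (l + 55)) ≤ Fintype.card (VG (l + 55) 0) := by
    refine Fintype.card_le_of_injective
      (fun v => (⟨Sum.inl (mkA v (fun _ => o0) 0), ⟨fun _ _ => rfl, fun _ _ => rfl, ?_⟩⟩ :
        VG (l + 55) 0)) ?_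
    · exact bdry_zero v
    · intro v w h
      have h2 := congrArg Subtype.val h
      exact congrArg At.v (Sum.inl.inj h2)
  have h2 : Fintype.card (Vx (l + 55)) = (l + 55) ^ 3 := by simp
  have h3 : l + 55 ≤ (l + 55) ^ 3 := Nat.le_self_pow (by norm_num) _
  unfold sN
  omega

theorem not_l_sG (l : ℕ) : ¬ P.Lg (Fin (sN l)) (sG l) := fun h =>
  P.not_lg_zero (l := l + 55) (by omega) (P.lg_iso' _ _ _ _ h ⟨fgIso (sE l)⟩)

theorem l_sH (l : ℕ) : P.Lg (Fin (sN l)) (sH l) :=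
  P.lg_iso' _ _ _ _ (P.lg_tw (l := l + 55) (by omega) (sv0 l)) ⟨(fgIso (sF l)).symm⟩

theorem sG_not_iso (l : ℕ) : IsEmpty (sG l ≃g sH l) :=
  ⟨fun f => not_l_sG l (P.lg_iso' _ _ _ _ (l_sH l) ⟨f.symm⟩)⟩

/-- the bounds for the sizes, the degrees and the colour classes -/
theorem s_bound : ∃ D : ℕ, ∀ l : ℕ, sN l ≤ D * (l + 1) ^ 3 ∧
    (∀ v, ((sG l).neighborSet v).ncard ≤ D) ∧ (∀ v, ((sH l).neighborSet v).ncard ≤ D) ∧
    (∀ i, {v | sc l v = i}.ncard ≤ D) ∧ ∀ i, {v | sd l v = i}.ncard ≤ D := by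
  obtain ⟨D1, hD1⟩ := XG_bound
  obtain ⟨D2, hD2⟩ := col_bound
  have h1 : D1 ≤ D1 * 55 ^ 3 + D2 := by omega
  have h2 : D2 ≤ D1 * 55 ^ 3 + D2 := by omega
  refine ⟨D1 * 55 ^ 3 + D2, fun l => ⟨?_, ?_, ?_, ?_, ?_⟩⟩
  · have h3 := (hD1 (l + 55) 0).1
    have h4 : sN l ≤ D1 * (l + 55) ^ 3 := by
      unfold sN
      rw [Fintype.card_subtype]
      exact h3
    refine h4.trans ?_
    have h5 : (l + 55) ^ 3 ≤ (55 * (l + 1)) ^ 3 := Nat.pow_le_pow_left (by omega) 3
    calc D1 * (l + 55) ^ 3 ≤ D1 * (55 * (l + 1)) ^ 3 := Nat.mul_le_mul_left _ h5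
      _ = D1 * 55 ^ 3 * (l + 1) ^ 3 := by rw [mul_pow, mul_assoc]
      _ ≤ _ := Nat.mul_le_mul_right _ (by omega)
  · exact fun v => (fg_deg (sE l) (hD1 _ _).2 v).trans h1
  · exact fun v => (fg_deg (sF l) (hD1 _ _).2 v).trans h1
  · exact fun i => (fc_class (sE l) (hD2 _ _) i).trans h2
  · exact fun i => (fc_class (sF l) (hD2 _ _) i).trans h2

/-- no program distinguishes the members of the sequence -/
theorem s_same (t : Tm PrV) (t' : Tm GrV) :
    ∃ C : ℕ, ∀ l ≥ C, ∀ a b : ℕ, b ^ C ≤ 2 ^ l →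
      (Accepts (prStr (sG l).Adj (sc l) (· ≤ ·) (sG l).Adj (sc l)) t a b ↔
        Accepts (prStr (sG l).Adj (sc l) (· ≤ ·) (sH l).Adj (sd l)) t a b) ∧
      (Accepts (grStr (sG l).Adj (sc l)) t' a b ↔ Accepts (grStr (sH l).Adj (sd l)) t' a b) := by
  obtain ⟨D, hD⟩ := XG_bound
  obtain ⟨C, hC⟩ := twins_same t t' (D := D) (fun l τ => (hD l τ).1)
  refine ⟨C, fun l hl a b hb => ?_⟩
  exact hC (l + 55) (by omega) (by omega) _ (sE l) (sF l) a b
    (hb.trans (Nat.pow_le_pow_right (by norm_num) (by omega)))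

end Pool.Agent.CPT
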