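import Pool.Agent.CPT.Fr

/-!
# The transport of hereditarily finite sets: basic properties
-/

set_option autoImplicit false

namespace Pool.Agent.CPT

open Finset Classical

namespace Fr

variable {A I K : Type} [Fintype A] [Fintype I] [Fintype K] [Group K] [MulAction K A]
variable (F : Fr A I K) (s : ℕ)

private theorem tr_agr_iff {X : Finset I} {k k' : K} :
    Agr F.pl X k k' ↔ Trv F.pl X (k⁻¹ * k') := by
  constructor
  · intro h a ha
    rw [mul_smul, ← h a ha, inv_smul_smul]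
  · intro h a ha
    have := h a ha
    rw [mul_smul, inv_smul_eq_iff] at this
    exact this.symm

private theorem tr_one (X : Finset I) : Trv F.pl X (1 : K) := fun a _ => one_smul K a

private theorem tr_mul {X : Finset I} {k k' : K} (h : Trv F.pl X k) (h' : Trv F.pl X k') :
    Trv F.pl X (k * k') := fun a ha => by rw [mul_smul, h' a ha, h a ha]

private theorem tr_inv {X : Finset I} {k : K} (h : Trv F.pl X k) : Trv F.pl X k⁻¹ :=
  fun a ha => by rw [inv_smul_eq_iff, h a ha]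

private theorem tr_anti {X Y : Finset I} (hXY : X ⊆ Y) {k : K} (h : Trv F.pl Y k) :
    Trv F.pl X k := fun a ha => h a (ha.trans hXY)

theorem trv_conj {X : Finset I} {g : K} (h : Trv F.pl X g) (k : K) : Trv F.pl X (k⁻¹ * g * k) := by
  intro a ha
  have h1 : g • k • a = k • a := h (k • a) (by rw [F.pl_smul]; exact ha)
  rw [mul_smul, mul_smul, h1, inv_smul_smul]

private theorem tr_conj' {X : Finset I} {g : K} (h : Trv F.pl X g) (k : K) :
    Trv F.pl X (k * g * k⁻¹) := by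
  have := F.trv_conj h k⁻¹
  rwa [inv_inv] at this

private theorem tr_agr_refl {X : Finset I} (k : K) : Agr F.pl X k k := fun _ _ => rfl

private theorem tr_agr_anti {X Y : Finset I} (hXY : X ⊆ Y) {k k' : K} (h : Agr F.pl Y k k') :
    Agr F.pl X k k' := fun a ha => h a (ha.trans hXY)

private theorem tr_agr_symm {X : Finset I} {k k' : K} (h : Agr F.pl X k k') :
    Agr F.pl X k' k := fun a ha => (h a ha).symm

private theorem tr_agr_trans {X : Finset I} {k k' k'' : K} (h : Agr F.pl X k k')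
    (h' : Agr F.pl X k' k'') : Agr F.pl X k k'' := fun a ha => (h a ha).trans (h' a ha)

private theorem tr_agr_left {X : Finset I} {k k' : K} (h : Agr F.pl X k k') (g : K) :
    Agr F.pl X (g * k) (g * k') := fun a ha => by rw [mul_smul, mul_smul, h a ha]

private theorem tr_agr_right {X : Finset I} {k k' : K} (h : Agr F.pl X k k') (g : K) :
    Agr F.pl X (k * g) (k' * g) := fun a ha => by
  rw [mul_smul, mul_smul]; exact h _ (by rw [F.pl_smul]; exact ha)

private theorem tr_agr_inv {X : Finset I} {k k' : K} (h : Agr F.pl X k k') :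
    Agr F.pl X k⁻¹ k'⁻¹ := fun a ha => by
  rw [inv_smul_eq_iff]
  have h1 : k • k'⁻¹ • a = k' • k'⁻¹ • a := h _ (by rw [F.pl_smul]; exact ha)
  rw [h1, smul_inv_smul]

private theorem tr_Thr {X : Finset I} {g k : K} (hg : g ∈ F.G) (hk : k ∈ F.Th X) :
    k * g ∈ F.Th X := by
  have h := F.Th_mul (F.norm.conj_mem g hg k) hk
  have e : k * g * k⁻¹ * k = k * g := by group
  rwa [e] at h

private theorem tr_supp_inv {X : Finset I} {x : HF A} (h : Supp F.pl F.G X x) {g : K}
    (hg : g ∈ F.G) (hn : Trv F.pl X g) : g • x = x := h.1 g hg hn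

theorem supp_smul {X : Finset I} {x : HF A} (h : Supp F.pl F.G X x) (k : K) :
    Supp F.pl F.G X (k • x) := by
  obtain ⟨h1, h2⟩ := h
  constructor
  · intro g hg hn
    have h3 : k⁻¹ * g * k ∈ F.G := by
      have := F.norm.conj_mem g hg k⁻¹
      rwa [inv_inv] at this
    have h5 := h1 _ h3 (F.trv_conj hn k)
    have h6 : g • k • x = k • (k⁻¹ * g * k) • x := by
      rw [smul_smul, smul_smul]; congr 1; group
    rw [h6, h5]
  · intro a ha
    have h3 : x = HF.atom (k⁻¹ • a) := by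
      rw [← HF.smul_atom, ← ha, inv_smul_smul]
    have := h2 _ h3
    rwa [F.pl_smul] at this

private theorem tr_supp_smul_iff {X : Finset I} {x : HF A} (k : K) :
    Supp F.pl F.G X (k • x) ↔ Supp F.pl F.G X x := by
  constructor
  · intro h
    have := F.supp_smul h k⁻¹
    rwa [inv_smul_smul] at this
  · intro h; exact F.supp_smul h k

theorem supp_mono {X Y : Finset I} {x : HF A} (h : Supp F.pl F.G X x) (hXY : X ⊆ Y) :
    Supp F.pl F.G Y x :=
  ⟨fun g hg hn => h.1 g hg (F.tr_anti hXY hn), fun a ha => (h.2 a ha).trans hXY⟩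

theorem HS.smul {x : HF A} (h : HS F.pl F.G s x) (k : K) : HS F.pl F.G s (k • x) := by
  intro y hy
  rw [HF.tc_smul] at hy
  obtain ⟨z, hz, rfl⟩ := Finset.mem_image.1 hy
  obtain ⟨X, hX, hXs⟩ := h z hz
  exact ⟨X, hX, F.supp_smul hXs k⟩

theorem HS.tc {x y : HF A} (h : HS F.pl F.G s x) (hy : y ∈ HF.tc x) : HS F.pl F.G s y :=
  fun _ hz => h _ (HF.tc_sub hy hz)

theorem HS.mem {x y : HF A} (h : HS F.pl F.G s x) (hy : y ∈ HF.elems x) : HS F.pl F.G s y :=
  HS.tc F s h (HF.elems_sub_tc x hy)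

theorem T_atom (a : A) (X : Finset I) (k : K) : F.T s (HF.atom a) X k = HF.atom (k • a) := by
  unfold T; rw [HF.fold_atom]

theorem T_mk (S : Finset (HF A)) (X : Finset I) (k : K) :
    F.T s (HF.mk S) X k = HF.mk (HF.elems (F.T s (HF.mk S) X k)) := by
  unfold T; rw [HF.fold_mk, HF.elems_mk]

theorem mem_T (x : HF A) (X : Finset I) (k : K) (z : HF A) :
    z ∈ HF.elems (F.T s x X k) ↔ ∃ y ∈ HF.elems x, ∃ Y : Finset I, Y.card ≤ s ∧
      Supp F.pl F.G Y y ∧ ∃ k' ∈ F.Th (X ∪ Y), Agr F.pl X k k' ∧ z = F.T s y Y k' := by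
  rcases HF.cases' x with ⟨a, rfl⟩ | ⟨S, rfl⟩
  · rw [T_atom, HF.elems_atom, HF.elems_atom]; simp
  · conv_lhs => unfold T
    rw [HF.fold_mk, HF.elems_mk, HF.elems_mk]
    simp only [Finset.mem_image, Finset.mem_filter, Finset.mem_product, Finset.mem_attach,
      Finset.mem_univ, true_and, Prod.exists, Subtype.exists]
    constructor
    · rintro ⟨y, hy, Y, k', ⟨h1, h2, h3, h4⟩, h5⟩
      exact ⟨y, hy, Y, h1, h2, k', h3, h4, h5.symm⟩
    · rintro ⟨y, hy, Y, h1, h2, k', h3, h4, h5⟩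
      exact ⟨y, hy, Y, k', ⟨h1, h2, h3, h4⟩, h5.symm⟩

private theorem tr_ext {S : Finset (HF A)} {X Y : Finset I} {k k' : K}
    {S' : Finset (HF A)}
    (h : ∀ z, z ∈ HF.elems (F.T s (HF.mk S) X k) ↔ z ∈ HF.elems (F.T s (HF.mk S') Y k')) :
    F.T s (HF.mk S) X k = F.T s (HF.mk S') Y k' := by
  rw [F.T_mk s S, F.T_mk s S', Finset.ext h]

/-- the transport only depends on the restriction of `k` -/
theorem T_agr {x : HF A} {X : Finset I} {k k' : K} (hx : Supp F.pl F.G X x)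
    (h : Agr F.pl X k k') : F.T s x X k = F.T s x X k' := by
  rcases HF.cases' x with ⟨a, rfl⟩ | ⟨S, rfl⟩
  · rw [T_atom, T_atom, h a (hx.2 a rfl)]
  · apply tr_ext
    intro z
    rw [mem_T, mem_T]
    constructor
    · rintro ⟨y, hy, Y, h1, h2, r, h3, h4, h5⟩
      exact ⟨y, hy, Y, h1, h2, r, h3, F.tr_agr_trans (F.tr_agr_symm h) h4, h5⟩
    · rintro ⟨y, hy, Y, h1, h2, r, h3, h4, h5⟩
      exact ⟨y, hy, Y, h1, h2, r, h3, F.tr_agr_trans h h4, h5⟩

theorem T_smul (x : HF A) (X : Finset I) (k : K) {g : K} (hg : g ∈ F.G) :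
    F.T s (g • x) X (k * g⁻¹) = F.T s x X k := by
  revert X k
  refine HF.ind (P := fun x => ∀ (X : Finset I) (k : K),
    F.T s (g • x) X (k * g⁻¹) = F.T s x X k) ?_ ?_ x
  · intro a X k
    rw [HF.smul_atom, T_atom, T_atom, smul_smul]
    simp
  · intro S ih X k
    rw [HF.smul_mk]
    apply tr_ext
    intro z
    rw [mem_T, mem_T, HF.elems_mk, HF.elems_mk]
    constructor
    · rintro ⟨y, hy, Y, h1, h2, r, h3, h4, h5⟩
      obtain ⟨w, hw, rfl⟩ := Finset.mem_image.1 hy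
      refine ⟨w, hw, Y, h1, (F.tr_supp_smul_iff g).1 h2, r * g, F.tr_Thr hg h3, ?_, ?_⟩
      · have := F.tr_agr_right h4 g
        rwa [inv_mul_cancel_right] at this
      · rw [h5, ← ih w hw Y (r * g), mul_inv_cancel_right]
    · rintro ⟨w, hw, Y, h1, h2, r, h3, h4, h5⟩
      refine ⟨g • w, Finset.mem_image_of_mem _ hw, Y, h1, F.supp_smul h2 g, r * g⁻¹,
        F.tr_Thr (F.G.inv_mem hg) h3, F.tr_agr_right h4 _, ?_⟩
      rw [h5, ih w hw Y r]

private theorem tr_mul_right {g : K} (hg : g ∈ F.G) (x : HF A) (X : Finset I) (k : K) :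
    F.T s x X (k * g) = F.T s (g • x) X k := by
  rw [← F.T_smul s x X (k * g) hg, mul_inv_cancel_right]

theorem smul_T (x : HF A) (X : Finset I) (k : K) {g : K} (hg : g ∈ F.G) :
    g • F.T s x X k = F.T s x X (g * k) := by
  revert X k
  refine HF.ind (P := fun x => ∀ (X : Finset I) (k : K),
    g • F.T s x X k = F.T s x X (g * k)) ?_ ?_ x
  · intro a X k
    rw [T_atom, T_atom, HF.smul_atom, smul_smul]
  · intro S ih X k
    rw [F.T_mk s S X k, F.T_mk s S X (g * k), HF.smul_mk]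
    congr 1
    ext z
    rw [Finset.mem_image]
    constructor
    · rintro ⟨w, hw, rfl⟩
      rw [mem_T] at hw ⊢
      obtain ⟨y, hy, Y, h1, h2, r, h3, h4, rfl⟩ := hw
      rw [HF.elems_mk] at hy
      exact ⟨y, by rwa [HF.elems_mk], Y, h1, h2, g * r, F.Th_mul hg h3, F.tr_agr_left h4 g,
        ih y hy Y r⟩
    · intro hz
      rw [mem_T] at hz
      obtain ⟨y, hy, Y, h1, h2, r, h3, h4, rfl⟩ := hz
      refine ⟨F.T s y Y (g⁻¹ * r), ?_, ?_⟩
      · rw [mem_T]
        refine ⟨y, hy, Y, h1, h2, g⁻¹ * r, F.Th_mul (F.G.inv_mem hg) h3, ?_, rfl⟩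
        have := F.tr_agr_left h4 g⁻¹
        rwa [inv_mul_cancel_left] at this
      · rw [HF.elems_mk] at hy
        rw [ih y hy Y (g⁻¹ * r), mul_inv_cancel_left]

/-- the common part of the proofs: move an element of the transport to a given extension `ζ` of `k` -/
private theorem tr_move {x y : HF A} {X Y : Finset I} {k r ζ : K} (hx : ∀ g ∈ F.G,
    Trv F.pl X g → g • x = x) (hy : y ∈ HF.elems x) (hY : Supp F.pl F.G Y y)
    (hL : (X ∪ Y).card ≤ F.L) (hr : r ∈ F.Th (X ∪ Y)) (hkr : Agr F.pl X k r)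
    (hζ : ζ ∈ F.Th (X ∪ Y)) (hkζ : Agr F.pl X k ζ) :
    ∃ g ∈ F.G, Trv F.pl X g ∧ g • y ∈ HF.elems x ∧ Supp F.pl F.G Y (g • y) ∧
      F.T s y Y r = F.T s (g • y) Y ζ := by
  obtain ⟨g, hg, hg1⟩ := F.Th_hom hL hζ hr
  have hgN : Trv F.pl X g := by
    have a1 : Agr F.pl X ζ (ζ * g) :=
      F.tr_agr_trans (F.tr_agr_trans (F.tr_agr_symm hkζ) hkr)
        (F.tr_agr_anti Finset.subset_union_left hg1)
    rw [tr_agr_iff, inv_mul_cancel_left] at a1
    exact a1
  refine ⟨g, hg, hgN, ?_, F.supp_smul hY g, ?_⟩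
  · have : g • y ∈ HF.elems (g • x) := by rw [HF.smul_mem_elems]; exact hy
    rwa [hx g hg hgN] at this
  · rw [← F.tr_mul_right s hg]
    exact F.T_agr s hY (F.tr_agr_anti Finset.subset_union_right hg1)

/-- the transport does not depend on the support -/
theorem T_indep {x : HF A} {X Y : Finset I} {k : K} (hX : Supp F.pl F.G X x)
    (hY : Supp F.pl F.G Y x) (hL : (X ∪ Y).card + s ≤ F.L) (hk : k ∈ F.Th (X ∪ Y)) :
    F.T s x X k = F.T s x Y k := by
  have key : ∀ (X Y : Finset I) (z : HF A), Supp F.pl F.G X x → (X ∪ Y).card + s ≤ F.L →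
      k ∈ F.Th (X ∪ Y) → z ∈ HF.elems (F.T s x X k) → z ∈ HF.elems (F.T s x Y k) := by
    intro X Y z hX hL hk hz
    rw [mem_T] at hz ⊢
    obtain ⟨y, hy, C, hC, hCs, r, hr, hr1, rfl⟩ := hz
    have hcard : ((X ∪ Y) ∪ C).card ≤ F.L :=
      le_trans (le_trans (Finset.card_union_le _ _) (Nat.add_le_add_left hC _)) hL
    obtain ⟨ζ, hζ, hζ1⟩ := F.Th_ext (X := X ∪ Y) (Y := (X ∪ Y) ∪ C)
      Finset.subset_union_left hcard hk
    have s1 : X ∪ C ⊆ (X ∪ Y) ∪ C := Finset.union_subset_union_left Finset.subset_union_left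
    have s2 : Y ∪ C ⊆ (X ∪ Y) ∪ C := Finset.union_subset_union_left Finset.subset_union_right
    obtain ⟨g, hg, hgN, h1, h2, h3⟩ := F.tr_move s hX.1 hy hCs
      (le_trans (Finset.card_le_card s1) hcard) hr hr1 (F.Th_anti s1 hζ)
      (F.tr_agr_anti Finset.subset_union_left hζ1)
    exact ⟨g • y, h1, C, hC, h2, ζ, F.Th_anti s2 hζ,
      F.tr_agr_anti Finset.subset_union_right hζ1, h3⟩
  rcases HF.cases' x with ⟨a, rfl⟩ | ⟨S, rfl⟩
  · rw [T_atom, T_atom]
  · apply tr_ext
    intro z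
    exact ⟨key X Y z hX hL hk, key Y X z hY (by rwa [Finset.union_comm])
      (by rwa [Finset.union_comm])⟩

theorem supp_T {x : HF A} {X : Finset I} (k : K) (hX : Supp F.pl F.G X x) :
    Supp F.pl F.G X (F.T s x X k) := by
  constructor
  · intro g hg hn
    rw [F.smul_T s x X k hg]
    refine (F.T_agr s hX ?_).symm
    rw [tr_agr_iff, ← mul_assoc]
    exact F.trv_conj hn k
  · intro a ha
    rcases HF.cases' x with ⟨b, rfl⟩ | ⟨S, rfl⟩
    · rw [T_atom] at ha
      rw [← HF.atom_inj ha, F.pl_smul]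
      exact hX.2 b rfl
    · rw [F.T_mk] at ha
      exact absurd ha.symm (HF.atom_ne_mk _ _)

private theorem tr_small {x : HF A} {X : Finset I} {k : K} (hx : HS F.pl F.G s x)
    (hX : Supp F.pl F.G X x) (hL : X.card + 3 * s ≤ F.L) (hk : k ∈ F.Th X) :
    ∃ Y : Finset I, Y.card ≤ s ∧ Supp F.pl F.G Y (F.T s x X k) := by
  obtain ⟨Y, hY, hYs⟩ := hx x (HF.self_mem_tc x)
  have hcard : (X ∪ Y).card ≤ X.card + s :=
    le_trans (Finset.card_union_le _ _) (Nat.add_le_add_left hY _)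
  obtain ⟨ζ, hζ, hζ1⟩ := F.Th_ext (X := X) (Y := X ∪ Y) Finset.subset_union_left (by omega) hk
  refine ⟨Y, hY, ?_⟩
  rw [F.T_agr s hX hζ1, F.T_indep s hX hYs (by omega) hζ]
  exact F.supp_T s ζ hYs

theorem HS_T {x : HF A} {X : Finset I} {k : K} (hx : HS F.pl F.G s x) (hX : Supp F.pl F.G X x)
    (h5 : 5 * s ≤ F.L) (hL : X.card + 3 * s ≤ F.L) (hk : k ∈ F.Th X) :
    HS F.pl F.G s (F.T s x X k) := by
  revert X k
  revert hx
  refine HF.ind (P := fun x => HS F.pl F.G s x → ∀ {X : Finset I} {k : K}, Supp F.pl F.G X x →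
    X.card + 3 * s ≤ F.L → k ∈ F.Th X → HS F.pl F.G s (F.T s x X k)) ?_ ?_ x
  · intro a hx X k hX hL hk z hz
    obtain ⟨Y, hY, hYs⟩ := F.tr_small s hx hX hL hk
    rw [T_atom, HF.tc_atom, Finset.mem_singleton] at hz
    rw [hz]
    rw [T_atom] at hYs
    exact ⟨Y, hY, hYs⟩
  · intro S ih hx X k hX hL hk z hz
    rw [F.T_mk, HF.tc_mk, Finset.mem_insert, ← F.T_mk, Finset.mem_biUnion] at hz
    rcases hz with rfl | ⟨w, hw, hz⟩
    · exact F.tr_small s hx hX hL hk
    · rw [mem_T] at hw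
      obtain ⟨y, hy, Y, hY, hYs, r, hr, hr1, rfl⟩ := hw
      have hy' : y ∈ S := by rwa [HF.elems_mk] at hy
      exact ih y hy' (HS.mem F s hx hy) hYs (by omega)
        (F.Th_anti Finset.subset_union_right hr) z hz

/-- the inverse transport -/
theorem T_inv {x : HF A} {X : Finset I} {k : K} (hx : HS F.pl F.G s x) (hX : Supp F.pl F.G X x)
    (h5 : 5 * s ≤ F.L) (hL : X.card + 3 * s ≤ F.L) (hk : k ∈ F.Th X) :
    F.T s (F.T s x X k) X k⁻¹ = x := by
  revert X k
  revert hx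
  refine HF.ind (P := fun x => HS F.pl F.G s x → ∀ {X : Finset I} {k : K}, Supp F.pl F.G X x →
    X.card + 3 * s ≤ F.L → k ∈ F.Th X → F.T s (F.T s x X k) X k⁻¹ = x) ?_ ?_ x
  · intro a _ X k _ _ _
    rw [T_atom, T_atom, inv_smul_smul]
  · intro S ih hS X k hX hL hk
    rw [F.T_mk s S X k, F.T_mk s _ X k⁻¹, ← F.T_mk s S X k]
    congr 1
    ext z
    rw [mem_T]
    constructor
    · rintro ⟨Z, hZ, C, hC, hCs, κ, hκ, hκ1, rfl⟩
      rw [mem_T] at hZ
      obtain ⟨y, hy, Y, hY, hYs, r, hr, hr1, rfl⟩ := hZ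
      have hκi : κ⁻¹ ∈ F.Th (X ∪ C) := F.Th_inv hκ
      have hc1 : (X ∪ C).card ≤ X.card + s :=
        le_trans (Finset.card_union_le _ _) (Nat.add_le_add_left hC _)
      have hc2 : ((X ∪ C) ∪ Y).card ≤ X.card + s + s :=
        le_trans (Finset.card_union_le _ _) (Nat.add_le_add hc1 hY)
      obtain ⟨ζ, hζ, hζ1⟩ := F.Th_ext (X := X ∪ C) (Y := (X ∪ C) ∪ Y)
        Finset.subset_union_left (by omega) hκi
      have s1 : X ∪ Y ⊆ (X ∪ C) ∪ Y := Finset.union_subset_union_left Finset.subset_union_left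
      have s2 : C ∪ Y ⊆ (X ∪ C) ∪ Y := Finset.union_subset_union_left Finset.subset_union_right
      have hkζ : Agr F.pl X k ζ := by
        have h1 := F.tr_agr_inv hκ1
        rw [inv_inv] at h1
        exact F.tr_agr_trans h1 (F.tr_agr_anti Finset.subset_union_left hζ1)
      obtain ⟨g, hg, hgN, h1, h2, h3⟩ := F.tr_move s hX.1 hy hYs
        (by have := Finset.card_le_card s1; omega) hr hr1 (F.Th_anti s1 hζ) hkζ
      have hζY : ζ ∈ F.Th Y := F.Th_anti Finset.subset_union_right hζ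
      have e2 : F.T s (F.T s y Y r) C κ = F.T s (F.T s y Y r) Y ζ⁻¹ := by
        have e3 : F.T s (F.T s y Y r) C κ = F.T s (F.T s y Y r) C ζ⁻¹ := by
          refine F.T_agr s hCs ?_
          have h4 := F.tr_agr_inv (F.tr_agr_anti Finset.subset_union_right hζ1 :
            Agr F.pl C κ⁻¹ ζ)
          rwa [inv_inv] at h4
        rw [e3]
        refine F.T_indep s hCs (F.supp_T s r hYs) ?_ (F.Th_inv (F.Th_anti s2 hζ))
        have := Finset.card_union_le C Y
        omega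
      have h1' : g • y ∈ S := by rwa [HF.elems_mk] at h1
      rw [e2, h3, ih (g • y) h1' (HS.mem F s hS h1) h2 (by omega) hζY]
      exact h1'
    · intro hz
      have hz' : z ∈ HF.elems (HF.mk S) := by rwa [HF.elems_mk]
      obtain ⟨Y, hY, hYs⟩ := hS z (HF.elems_sub_tc _ hz')
      have hc1 : (X ∪ Y).card ≤ X.card + s :=
        le_trans (Finset.card_union_le _ _) (Nat.add_le_add_left hY _)
      obtain ⟨r, hr, hr1⟩ := F.Th_ext (X := X) (Y := X ∪ Y) Finset.subset_union_left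
        (by omega) hk
      refine ⟨F.T s z Y r, ?_, Y, hY, F.supp_T s r hYs, r⁻¹, F.Th_inv hr, F.tr_agr_inv hr1, ?_⟩
      · rw [mem_T]
        exact ⟨z, hz', Y, hY, hYs, r, hr, hr1, rfl⟩
      · exact (ih z hz (HS.mem F s hS hz') hYs (by omega)
          (F.Th_anti Finset.subset_union_right hr)).symm

theorem T_inj {x y : HF A} {X Y : Finset I} {k : K} (hx : HS F.pl F.G s x)
    (hy : HS F.pl F.G s y) (hX : Supp F.pl F.G X x) (hY : Supp F.pl F.G Y y)
    (h5 : 5 * s ≤ F.L) (hL : (X ∪ Y).card + 3 * s ≤ F.L) (hk : k ∈ F.Th (X ∪ Y)) :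
    F.T s x X k = F.T s y Y k ↔ x = y := by
  have c1 : X.card ≤ (X ∪ Y).card := Finset.card_le_card Finset.subset_union_left
  have c2 : Y.card ≤ (X ∪ Y).card := Finset.card_le_card Finset.subset_union_right
  constructor
  · intro h
    rw [← F.T_inv s hx hX h5 (by omega) (F.Th_anti Finset.subset_union_left hk),
      ← F.T_inv s hy hY h5 (by omega) (F.Th_anti Finset.subset_union_right hk), ← h]
    refine F.T_indep s (F.supp_T s k hX) ?_ (by omega) (F.Th_inv hk)
    rw [h]; exact F.supp_T s k hY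
  · rintro rfl
    exact F.T_indep s hX hY (by omega) hk

theorem T_mem {x y : HF A} {X Y : Finset I} {k : K} (hx : HS F.pl F.G s x)
    (hy : HS F.pl F.G s y) (hX : Supp F.pl F.G X x) (hY : Supp F.pl F.G Y y) (hs : X.card ≤ s)
    (h5 : 5 * s ≤ F.L) (hL : (X ∪ Y).card + 3 * s ≤ F.L) (hk : k ∈ F.Th (X ∪ Y)) :
    F.T s x X k ∈ HF.elems (F.T s y Y k) ↔ x ∈ HF.elems y := by
  have c1 : X.card ≤ (X ∪ Y).card := Finset.card_le_card Finset.subset_union_left
  have c2 : Y.card ≤ (X ∪ Y).card := Finset.card_le_card Finset.subset_union_right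
  have key : ∀ (x y : HF A) (k : K), Supp F.pl F.G X x → k ∈ F.Th (X ∪ Y) →
      x ∈ HF.elems y → F.T s x X k ∈ HF.elems (F.T s y Y k) := by
    intro x y k hX hk h
    rw [mem_T]
    exact ⟨x, h, X, hs, hX, k, by rwa [Finset.union_comm], F.tr_agr_refl k, rfl⟩
  constructor
  · intro h
    have := key _ _ k⁻¹ (F.supp_T s k hX) (F.Th_inv hk) h
    rwa [F.T_inv s hx hX h5 (by omega) (F.Th_anti Finset.subset_union_left hk),
      F.T_inv s hy hY h5 (by omega) (F.Th_anti Finset.subset_union_right hk)] at this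
  · exact key x y k hX hk

theorem T_ord (n : ℕ) {X : Finset I} {k : K} (hk : k ∈ F.Th X) :
    F.T s (HF.ord n) X k = HF.ord n := by
  revert X k
  induction n using Nat.strong_induction_on with
  | _ n ih =>
    intro X k hk
    rw [HF.ord_eq_mk, F.T_mk]
    congr 1
    ext z
    rw [mem_T, HF.elems_mk]
    constructor
    · rintro ⟨y, hy, Y, hY, hYs, r, hr, hr1, rfl⟩
      obtain ⟨m, hm, rfl⟩ := Finset.mem_image.1 hy
      rw [ih m (Finset.mem_range.1 hm) (F.Th_anti Finset.subset_union_right hr)]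
      exact hy
    · intro hz
      obtain ⟨m, hm, rfl⟩ := Finset.mem_image.1 hz
      refine ⟨HF.ord m, hz, ∅, by simp, ⟨?_, ?_⟩, k, by rwa [Finset.union_empty],
        F.tr_agr_refl k, (ih m (Finset.mem_range.1 hm) (F.Th_anti (Finset.empty_subset _) hk)).symm⟩
      · intro g _ _
        rw [HF.smul_ord]
      · intro a ha
        rw [HF.ord_eq_mk] at ha
        exact absurd ha.symm (HF.atom_ne_mk _ _)

end Fr

end Pool.Agent.CPT
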